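import Mathlib

/-!
# The algebra of the bounded exponent case (module AO-CasePAlg)

(proofs: helper41)
-/

set_option autoImplicit false

namespace Pool.Agent.AO

private theorem sum_pow_perm {R : Type*} [CommRing R] (p : ℕ) (hp : p.Prime) (y : R)
    (hy : y ^ p = 1) (k : ℕ) (hk0 : 0 < k) (hkp : k < p) :
    ∑ i ∈ Finset.range p, (y ^ i) ^ k = ∑ i ∈ Finset.range p, y ^ i := by
  have hcop : Nat.Coprime p k :=
    (Nat.Prime.coprime_iff_not_dvd hp).mpr
      (fun h => absurd (Nat.le_of_dvd hk0 h) (not_le.mpr hkp))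
  have hmaps : ∀ i ∈ Finset.range p, i * k % p ∈ Finset.range p := fun i _ =>
    Finset.mem_range.mpr (Nat.mod_lt _ hp.pos)
  have hinj : Set.InjOn (fun i => i * k % p) (Finset.range p : Set ℕ) := by
    intro i hi j hj hij
    have hi' : i < p := Finset.mem_range.mp hi
    have hj' : j < p := Finset.mem_range.mp hj
    have h1 : i * k ≡ j * k [MOD p] := hij
    have h2 : i ≡ j [MOD p] := Nat.ModEq.cancel_right_of_coprime hcop h1
    exact Nat.ModEq.eq_of_lt_of_lt h2 hi' hj'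
  refine Finset.sum_nbij (fun i => i * k % p) hmaps hinj ?_ ?_
  · exact Finset.surjOn_of_injOn_of_card_le _ hmaps hinj le_rfl
  · intro i _
    rw [← pow_mul]
    exact pow_eq_pow_mod _ hy

section aux

variable {M 𝔻 : Type*} [AddCommGroup M] [CommGroup 𝔻] [DistribMulAction 𝔻 M]

/-- the points of `S` fixed by `F` -/
private def fixS (S : AddSubgroup M) (F : Set 𝔻) : AddSubgroup M where
  carrier := {w | w ∈ S ∧ ∀ d ∈ F, d • w = w}
  add_mem' := by
    rintro a b ⟨ha, ha'⟩ ⟨hb, hb'⟩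
    exact ⟨S.add_mem ha hb, fun d hd => by rw [smul_add, ha' d hd, hb' d hd]⟩
  zero_mem' := ⟨S.zero_mem, fun d _ => smul_zero d⟩
  neg_mem' := by
    rintro a ⟨ha, ha'⟩
    exact ⟨S.neg_mem ha, fun d hd => by rw [smul_neg, ha' d hd]⟩

private theorem mem_fixS (S : AddSubgroup M) (F : Set 𝔻) (w : M) :
    w ∈ fixS S F ↔ w ∈ S ∧ ∀ d ∈ F, d • w = w := Iff.rfl

private theorem fixS_inv (S : AddSubgroup M) (hS : ∀ d : 𝔻, ∀ w ∈ S, d • w ∈ S) (F : Set 𝔻)
    (d : 𝔻) (w : M) (hw : w ∈ fixS S F) : d • w ∈ fixS S F := by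
  rw [mem_fixS] at hw ⊢
  refine ⟨hS d w hw.1, fun e he => ?_⟩
  rw [smul_smul, mul_comm, ← smul_smul, hw.2 e he]

omit [DistribMulAction 𝔻 M] [CommGroup 𝔻] in
private theorem fin_of_ker (S : AddSubgroup M) (f : M →+ M) (h1 : (f '' (S : Set M)).Finite)
    (h2 : {w | w ∈ S ∧ f w = 0}.Finite) : (S : Set M).Finite := by
  refine Set.Finite.of_finite_fibers f h1 ?_
  rintro y ⟨w0, hw0, rfl⟩
  refine (h2.image (fun w => w0 + w)).subset ?_
  rintro w ⟨hw, hw'⟩
  refine ⟨w - w0, ⟨S.sub_mem hw hw0, ?_⟩, by simp⟩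
  rw [map_sub]
  have : f w = f w0 := hw'
  rw [this, sub_self]

omit [DistribMulAction 𝔻 M] [CommGroup 𝔻] in
private theorem fin_pow_ker (S : AddSubgroup M) (T : AddMonoid.End M) (hT : ∀ w ∈ S, T w ∈ S)
    (h : {w | w ∈ S ∧ T w = 0}.Finite) (k : ℕ) : {w | w ∈ S ∧ (T ^ k) w = 0}.Finite := by
  induction k with
  | zero =>
    refine (Set.finite_singleton (0 : M)).subset ?_
    rintro w ⟨-, hw⟩
    simpa using hw
  | succ k ih =>
    let S' : AddSubgroup M :=
      { carrier := {w | w ∈ S ∧ (T ^ (k + 1)) w = 0}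
        add_mem' := by
          rintro a b ⟨ha, ha'⟩ ⟨hb, hb'⟩
          exact ⟨S.add_mem ha hb, by rw [map_add, ha', hb', add_zero]⟩
        zero_mem' := ⟨S.zero_mem, map_zero _⟩
        neg_mem' := by
          rintro a ⟨ha, ha'⟩
          exact ⟨S.neg_mem ha, by rw [map_neg, ha', neg_zero]⟩ }
    have hfin : (S' : Set M).Finite := by
      refine fin_of_ker S' T (ih.subset ?_) (h.subset ?_)
      · rintro y ⟨w, ⟨hw, hw'⟩, rfl⟩
        refine ⟨hT w hw, ?_⟩
        rw [pow_succ] at hw'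
        exact hw'
      · rintro w ⟨hw, hw'⟩
        exact ⟨hw.1, hw'⟩
    exact hfin

private theorem step_inf (p : ℕ) (hp : p.Prime) (S : AddSubgroup M)
    (hS : ∀ d : 𝔻, ∀ w ∈ S, d • w ∈ S) (hpS : ∀ w ∈ S, p • w = 0)
    (hinf : (S : Set M).Infinite) (d : 𝔻) (hd : d ^ p = 1) :
    {w | w ∈ S ∧ d • w = w}.Infinite := by
  intro hfin
  apply hinf
  obtain ⟨D, hD⟩ : ∃ D : AddMonoid.End M, D = DistribMulAction.toAddMonoidEnd 𝔻 M d := ⟨_, rfl⟩
  have hDw : ∀ w, D w = d • w := fun w => by rw [hD]; rfl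
  have hadd : ∀ (f g : AddMonoid.End M) (w : M), (f + g) w = f w + g w := fun f g w => rfl
  have hDp : D ^ p = 1 := by rw [hD, ← map_pow, hd, map_one]
  have hTw : ∀ w, (D + -1) w = d • w - w := fun w => by
    rw [hadd, hDw, sub_eq_add_neg]
    rfl
  have hTS : ∀ w ∈ S, (D + -1) w ∈ S := fun w hw => by
    rw [hTw]
    exact S.sub_mem (hS d w hw) hw
  have h0 : {w | w ∈ S ∧ (D + -1) w = 0}.Finite := by
    refine hfin.subset ?_
    rintro w ⟨hw, hw'⟩
    rw [hTw] at hw'
    exact ⟨hw, sub_eq_zero.mp hw'⟩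
  refine (fin_pow_ker S (D + -1) hTS h0 p).subset ?_
  intro w hw
  refine ⟨hw, ?_⟩
  obtain ⟨r, hr⟩ := (Commute.neg_right (Commute.one_right D)).exists_add_pow_prime_eq hp
  rw [hr, hDp]
  have hpw : p • w = 0 := hpS w hw
  have h1 : ((p : AddMonoid.End M) * D * -1 * r) w = 0 := by
    have h2 : ((p : AddMonoid.End M) * D * -1 * r) w = p • ((D * -1 * r) w) := by
      rw [mul_assoc, mul_assoc]
      rw [mul_assoc]
      exact AddMonoid.End.natCast_apply p _
    rw [h2, ← map_nsmul, hpw, map_zero]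
  have h3 : ((-1 : AddMonoid.End M) ^ p) w = -w := by
    rcases hp.eq_two_or_odd' with rfl | hodd
    · rw [neg_one_sq]
      have : w + w = 0 := by rw [← two_nsmul]; exact hpw
      exact eq_neg_of_add_eq_zero_left this
    · rw [hodd.neg_one_pow]
      rfl
  rw [hadd, hadd, h1, h3, add_zero]
  exact add_neg_cancel w

private theorem fixed_aux [Finite 𝔻] (p : ℕ) (hp : p.Prime) (hexp : ∀ d : 𝔻, d ^ p = 1)
    (S : AddSubgroup M) (hS : ∀ d : 𝔻, ∀ w ∈ S, d • w ∈ S) (hpS : ∀ w ∈ S, p • w = 0)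
    (hinf : (S : Set M).Infinite) : {w | w ∈ S ∧ ∀ d : 𝔻, d • w = w}.Infinite := by
  classical
  have := Fintype.ofFinite 𝔻
  have key : ∀ F : Finset 𝔻, ((fixS S (F : Set 𝔻) : AddSubgroup M) : Set M).Infinite := by
    intro F
    induction F using Finset.induction_on with
    | empty =>
      refine hinf.mono ?_
      intro w hw
      exact ⟨hw, fun d hd => by simp at hd⟩
    | insert d F _ ih =>
      have h1 := step_inf p hp (fixS S (F : Set 𝔻)) (fixS_inv S hS _)
        (fun w hw => hpS w hw.1) ih d (hexp d)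
      refine h1.mono ?_
      rintro w ⟨hw, hw'⟩
      refine ⟨hw.1, fun e he => ?_⟩
      rcases Finset.mem_insert.mp (Finset.mem_coe.mp he) with rfl | he
      · exact hw'
      · exact hw.2 e he
  refine (key Finset.univ).mono ?_
  rintro w ⟨hw, hw'⟩
  exact ⟨hw, fun d => hw' d (by simp)⟩

end aux

/-- In a commutative ring (or for commuting elements): if `x^p = 1`, `y^p = 1`, `p` prime, then
`p = ∑_{i<p} N(x y^i) + N(y) - N(x) N(y)` with `N(z) = ∑_{k<p} z^k`.
PROOF. `∑_i N(x y^i) = ∑_k x^k ∑_i y^{ik}`; for `k = 0` the inner sum is `p`, and for `0 < k < p`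
the map `i ↦ ik` permutes the residues mod `p`, so the inner sum is `N(y)` (as `y^p = 1`). So
`∑_i N(x y^i) = p + (N(x) - 1) N(y)`. -/
theorem sum_norms {R : Type*} [CommRing R] (p : ℕ) (hp : p.Prime) (x y : R)
    (hx : x ^ p = 1) (hy : y ^ p = 1) :
    (p : R) = ∑ i ∈ Finset.range p, ∑ k ∈ Finset.range p, (x * y ^ i) ^ k
      + ∑ k ∈ Finset.range p, y ^ k
      - (∑ k ∈ Finset.range p, x ^ k) * ∑ k ∈ Finset.range p, y ^ k := by
  have h1 : ∑ i ∈ Finset.range p, ∑ k ∈ Finset.range p, (x * y ^ i) ^ k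
      = ∑ k ∈ Finset.range p, x ^ k * ∑ i ∈ Finset.range p, (y ^ i) ^ k := by
    rw [Finset.sum_comm]
    refine Finset.sum_congr rfl fun k _ => ?_
    rw [Finset.mul_sum]
    exact Finset.sum_congr rfl fun i _ => mul_pow _ _ _
  obtain ⟨n, rfl⟩ : ∃ n, p = n + 1 := ⟨p - 1, by have := hp.pos; omega⟩
  rw [h1, Finset.sum_range_succ' (fun k => x ^ k * ∑ i ∈ Finset.range (n + 1), (y ^ i) ^ k) n,
    Finset.sum_range_succ' (fun k => x ^ k) n]
  have h2 : ∀ k ∈ Finset.range n, x ^ (k + 1) * ∑ i ∈ Finset.range (n + 1), (y ^ i) ^ (k + 1)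
      = x ^ (k + 1) * ∑ i ∈ Finset.range (n + 1), y ^ i := by
    intro k hk
    have hk' := Finset.mem_range.mp hk
    rw [sum_pow_perm (n + 1) hp y hy (k + 1) (by omega) (by omega)]
  rw [Finset.sum_congr rfl h2, ← Finset.sum_mul]
  simp only [pow_zero, Finset.sum_const, Finset.card_range, one_mul, nsmul_eq_mul, mul_one]
  ring

/-- A finite abelian group of exponent `p` acting on an infinite abelian group `W` with `p W = 0`
has infinitely many fixed points.
PROOF. Induction on the number of generators of a subgroup: for every finite set `F` of elements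
of `𝔻` the set `{w | ∀ d ∈ F, d • w = w}` is infinite (`Finset.induction`). Step: let
`W' = {w | ∀ d ∈ F, d • w = w}` be infinite (an additive subgroup, invariant under `𝔻` since `𝔻` is
commutative) and `d ∈ 𝔻`. With `T = d - 1` acting on `W'` we have `T^p = d^p - 1 = 0` on `W'`
(binomial formula, `p W = 0`; e.g. `sub_pow_char`-type lemma in the commutative subring generated
by `d`, or `(1 + T)^p = 1 + T^p` because `p ∣ p.choose k`). If the kernel of `T` on `W'` were
finite then by induction the kernel of `T^k` would be finite for all `k` (`T` maps `ker T^{k+1}` to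
`ker T^k` with finite fibres), so `W' = ker T^p` would be finite. Take `F = 𝔻`. -/
theorem fixed_infinite {W 𝔻 : Type*} [AddCommGroup W] [CommGroup 𝔻] [Finite 𝔻]
    [DistribMulAction 𝔻 W] (p : ℕ) (hp : p.Prime) (hexp : ∀ d : 𝔻, d ^ p = 1)
    (hW : ∀ w : W, p • w = 0) [Infinite W] : {w : W | ∀ d : 𝔻, d • w = w}.Infinite := by
  have h := fixed_aux p hp hexp (⊤ : AddSubgroup W) (fun _ _ _ => AddSubgroup.mem_top _)
    (fun w _ => hW w) (by simpa using Set.infinite_univ (α := W))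
  refine h.mono ?_
  rintro w ⟨-, hw⟩
  exact hw

/-- PROOF. Suppose `M` is infinite. For a subgroup `E ≤ 𝔻` let
`C(E) = {m | ∀ e ∈ E, e • m = m}`, an additive subgroup of `M` invariant under `𝔻`.
`C(⊥) = M` is infinite. Choose `E ≤ 𝔻` with `C(E)` infinite and `Nat.card E` maximal.

(1) The index of `E` in `𝔻` is larger than `p`: otherwise consider
`K = {e | ∀ q, σ q e ∈ E} = ⋂_q (σ q)⁻¹(E)`; each `(σ q)⁻¹(E)` has index `[𝔻 : E] ≤ p`, so `K` has
index `≤ p ^ |Q| < |𝔻|` (`Subgroup.index_iInf_le` or `Subgroup.relIndex_inf_le`...), so there is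
`e ∈ K`, `e ≠ 1`, and `C(E) ⊆ {m | ∀ q, σ q e • m = m}` is finite by `hfix`: contradiction.

(2) So there are `x ∉ E` and `y ∉ E⟨x⟩` (as `|E⟨x⟩| ≤ p |E| < |𝔻|`). Then for all `i`:
`x y^i ∉ E` (if `x y^i ∈ E` with `p ∣ i` then `x ∈ E`, otherwise `y ∈ E⟨x⟩`), and `y ∉ E`, `x ∉ E`.
Write `M' = C(E)`. By maximality the subgroups
`C(E ⊔ ⟨z⟩) = {m ∈ M' | z • m = m}`, `z ∈ {x y^i, y}`, are finite.
By `sum_norms` (applied in the commutative ring of endomorphisms generated by the action, e.g. in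
`MonoidAlgebra ℤ 𝔻` acting on `M`, or directly with sums) for every `m ∈ M'`:
`p m = ∑_i N(x y^i) m + N(y) m - N(x) N(y) m`, where `N(z) m ∈ M'` is fixed by `z`
and `N(x) N(y) m = N(y) (N(x) m)` is in `M'` and fixed by `y`. So
`p M'` is contained in a finite sum of finite sets: `p M'` is finite. So
`W = {m ∈ M' | p m = 0}` is infinite (`M' / W ≅ p M'`). By `fixed_infinite` `W` has infinitely many
elements fixed by `𝔻`. But there is `d ≠ 1` in `𝔻` (since `p ^ |Q| < |𝔻|`), and these elements are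
fixed by all `σ q d`: contradiction to `hfix`. -/
theorem casePAlg {M 𝔻 Q : Type*} [AddCommGroup M] [CommGroup 𝔻] [Finite 𝔻]
    [DistribMulAction 𝔻 M] [Fintype Q] (p : ℕ) (hp : p.Prime) (hexp : ∀ d : 𝔻, d ^ p = 1)
    (hcard : p ^ Fintype.card Q < Nat.card 𝔻) (σ : Q → 𝔻 ≃* 𝔻)
    (hfix : ∀ d : 𝔻, d ≠ 1 → {m : M | ∀ q, σ q d • m = m}.Finite) : Finite M := by
  classical
  by_contra hM
  rw [not_finite_iff_infinite] at hM
  let C : Subgroup 𝔻 → AddSubgroup M := fun E => fixS (⊤ : AddSubgroup M) (E : Set 𝔻)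
  have hCinv : ∀ E : Subgroup 𝔻, ∀ d : 𝔻, ∀ w ∈ C E, d • w ∈ C E := fun E =>
    fixS_inv ⊤ (fun _ _ _ => AddSubgroup.mem_top _) _
  have hne : {E : Subgroup 𝔻 | ((C E : AddSubgroup M) : Set M).Infinite}.Nonempty := by
    refine ⟨⊥, ?_⟩
    refine (Set.infinite_univ (α := M)).mono ?_
    intro w _
    refine ⟨AddSubgroup.mem_top _, fun d hd => ?_⟩
    have hd1 : d = 1 := Subgroup.mem_bot.mp hd
    rw [hd1, one_smul]
  obtain ⟨E, hE, hmax⟩ := Set.exists_max_image
    {E : Subgroup 𝔻 | ((C E : AddSubgroup M) : Set M).Infinite} (fun E => Nat.card E)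
    (Set.toFinite _) hne
  have hEinf : ((C E : AddSubgroup M) : Set M).Infinite := hE
  -- the index of E is larger than p
  have hidx : p < E.index := by
    by_contra hle
    push Not at hle
    obtain ⟨K, hK⟩ : ∃ K : Subgroup 𝔻, K = ⨅ q : Q, E.comap (σ q).toMonoidHom := ⟨_, rfl⟩
    have h1 : K.index ≤ p ^ Fintype.card Q := by
      rw [hK]
      calc (⨅ q : Q, E.comap (σ q).toMonoidHom).index
          ≤ ∏ q : Q, (E.comap (σ q).toMonoidHom).index := Subgroup.index_iInf_le _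
        _ = ∏ q : Q, E.index := by
          refine Finset.prod_congr rfl fun q _ => ?_
          exact Subgroup.index_comap_of_surjective E (σ q).surjective
        _ = E.index ^ Fintype.card Q := by simp
        _ ≤ p ^ Fintype.card Q := Nat.pow_le_pow_left hle _
    have h2 : K ≠ ⊥ := by
      intro h
      rw [h, Subgroup.index_bot] at h1
      omega
    obtain ⟨⟨e, heK⟩, he1⟩ := Subgroup.ne_bot_iff_exists_ne_one.mp h2
    have he1' : e ≠ 1 := fun h => he1 (Subtype.ext h)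
    have h3 : ∀ q, σ q e ∈ E := by
      intro q
      rw [hK, Subgroup.mem_iInf] at heK
      exact heK q
    refine hEinf ((hfix e he1').subset ?_)
    rintro w ⟨-, hw⟩ q
    exact hw _ (h3 q)
  have hEidx : ∀ x : 𝔻, E ⊔ Subgroup.zpowers x ≠ ⊤ := by
    intro x htop
    have hsurj : Function.Surjective (fun i : Fin p => ((x ^ (i : ℕ) : 𝔻) : 𝔻 ⧸ E)) := by
      intro g'
      obtain ⟨g, rfl⟩ := QuotientGroup.mk_surjective g'
      have hg : g ∈ E ⊔ Subgroup.zpowers x := by rw [htop]; exact Subgroup.mem_top _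
      obtain ⟨e, he, z, hz, rfl⟩ := Subgroup.mem_sup.mp hg
      have hz' : z ∈ Submonoid.powers x := mem_powers_iff_mem_zpowers.mpr hz
      obtain ⟨m, rfl⟩ := hz'
      refine ⟨⟨m % p, Nat.mod_lt _ hp.pos⟩, ?_⟩
      show ((x ^ (m % p) : 𝔻) : 𝔻 ⧸ E) = ((e * x ^ m : 𝔻) : 𝔻 ⧸ E)
      rw [← pow_eq_pow_mod m (hexp x), QuotientGroup.eq, mul_comm e, ← mul_assoc,
        inv_mul_cancel, one_mul]
      exact he
    have h1 := Nat.card_le_card_of_surjective _ hsurj
    have h2 : Nat.card (Fin p) = p := by simp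
    rw [h2] at h1
    exact absurd hidx (not_lt.mpr h1)
  obtain ⟨x, hx⟩ : ∃ x, x ∉ E := by
    by_contra hall
    push Not at hall
    apply hEidx 1
    rw [eq_top_iff]
    intro g _
    exact Subgroup.mem_sup_left (hall g)
  obtain ⟨y, hy⟩ : ∃ y, y ∉ E ⊔ Subgroup.zpowers x := by
    by_contra hall
    push Not at hall
    apply hEidx x
    rw [eq_top_iff]
    intro g _
    exact hall g
  have hyE : y ∉ E := fun h => hy (Subgroup.mem_sup_left h)
  have hxy : ∀ i : ℕ, x * y ^ i ∉ E := by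
    intro i hi
    by_cases hdvd : p ∣ i
    · obtain ⟨c, rfl⟩ := hdvd
      rw [pow_mul, hexp y, one_pow, mul_one] at hi
      exact hx hi
    · have hyi : y ^ i ∈ E ⊔ Subgroup.zpowers x := by
        have h1 : y ^ i = (x * y ^ i) * x⁻¹ := by
          rw [mul_comm x, mul_assoc, mul_inv_cancel, mul_one]
        rw [h1]
        exact mul_mem (Subgroup.mem_sup_left hi)
          (inv_mem (Subgroup.mem_sup_right (Subgroup.mem_zpowers x)))
      have hcop : Nat.Coprime p i := (Nat.Prime.coprime_iff_not_dvd hp).mpr hdvd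
      apply hy
      have h2 : y = (y ^ i) ^ ((Nat.gcdB p i)) * (y ^ p) ^ (Nat.gcdA p i) := by
        rw [← zpow_natCast y i, ← zpow_natCast y p, ← zpow_mul, ← zpow_mul, ← zpow_add]
        have h3 := Nat.gcd_eq_gcd_ab p i
        rw [hcop.gcd_eq_one] at h3
        have h4 : (i : ℤ) * Nat.gcdB p i + (p : ℤ) * Nat.gcdA p i = 1 := by
          rw [add_comm]
          exact_mod_cast h3.symm
        rw [h4, zpow_one]
      rw [h2, hexp y, one_zpow, mul_one]
      exact zpow_mem hyi _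
  -- fixed points of elements outside E
  have hfinz : ∀ z : 𝔻, z ∉ E → {w | w ∈ C E ∧ z • w = w}.Finite := by
    intro z hz
    have h1 : ((C (E ⊔ Subgroup.zpowers z) : AddSubgroup M) : Set M).Finite := by
      by_contra hinf
      have h2 := hmax (E ⊔ Subgroup.zpowers z) hinf
      have h3 : E = E ⊔ Subgroup.zpowers z :=
        Subgroup.eq_of_le_of_card_ge le_sup_left h2
      apply hz
      rw [h3]
      exact Subgroup.mem_sup_right (Subgroup.mem_zpowers z)
    refine h1.subset ?_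
    rintro w ⟨⟨-, hw⟩, hzw⟩
    refine ⟨AddSubgroup.mem_top _, ?_⟩
    have h4 : E ⊔ Subgroup.zpowers z ≤ MulAction.stabilizer 𝔻 w := by
      refine sup_le ?_ ?_
      · intro d hd
        exact MulAction.mem_stabilizer_iff.mpr (hw d hd)
      · rw [Subgroup.zpowers_le]
        exact MulAction.mem_stabilizer_iff.mpr hzw
    intro d hd
    exact MulAction.mem_stabilizer_iff.mp (h4 hd)
  -- norms
  let Nm : 𝔻 → M → M := fun z w => ∑ k ∈ Finset.range p, z ^ k • w
  have hNmem : ∀ z w, w ∈ C E → Nm z w ∈ C E := by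
    intro z w hw
    exact AddSubgroup.sum_mem _ fun k _ => hCinv E _ _ hw
  have hNfix : ∀ z w, z • Nm z w = Nm z w := by
    intro z w
    show z • ∑ k ∈ Finset.range p, z ^ k • w = ∑ k ∈ Finset.range p, z ^ k • w
    rw [Finset.smul_sum]
    obtain ⟨n, hn⟩ : ∃ n, p = n + 1 := ⟨p - 1, by have := hp.pos; omega⟩
    have h1 : ∀ k ∈ Finset.range p, z • z ^ k • w = z ^ (k + 1) • w := fun k _ => by
      rw [smul_smul, pow_succ']
    rw [Finset.sum_congr rfl h1, hn, Finset.sum_range_succ, ← hn,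
      hn, Finset.sum_range_succ' (fun k => z ^ k • w), pow_zero, ← hn, hexp z]
  have hcomm : ∀ z z' w, Nm z (Nm z' w) = Nm z' (Nm z w) := by
    intro z z' w
    show ∑ k ∈ Finset.range p, z ^ k • ∑ l ∈ Finset.range p, z' ^ l • w
      = ∑ l ∈ Finset.range p, z' ^ l • ∑ k ∈ Finset.range p, z ^ k • w
    simp only [Finset.smul_sum]
    rw [Finset.sum_comm]
    refine Finset.sum_congr rfl fun l _ => Finset.sum_congr rfl fun k _ => ?_
    rw [smul_smul, smul_smul, mul_comm]
  have hident : ∀ w : M, p • w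
      = ∑ i ∈ Finset.range p, Nm (x * y ^ i) w + Nm y w - Nm y (Nm x w) := by
    intro w
    let φ : MonoidAlgebra ℤ 𝔻 →ₐ[ℤ] AddMonoid.End M :=
      MonoidAlgebra.lift ℤ (AddMonoid.End M) 𝔻 (DistribMulAction.toAddMonoidEnd 𝔻 M)
    have hφ : ∀ z : 𝔻, ∀ w : M, φ (MonoidAlgebra.of ℤ 𝔻 z) w = z • w := by
      intro z w
      show (MonoidAlgebra.lift ℤ (AddMonoid.End M) 𝔻 (DistribMulAction.toAddMonoidEnd 𝔻 M))
        (MonoidAlgebra.of ℤ 𝔻 z) w = z • w
      rw [MonoidAlgebra.lift_of]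
      rfl
    have h1 := sum_norms p hp (MonoidAlgebra.of ℤ 𝔻 x) (MonoidAlgebra.of ℤ 𝔻 y)
      (by rw [← map_pow, hexp, map_one]) (by rw [← map_pow, hexp, map_one])
    let ev : M → (MonoidAlgebra ℤ 𝔻 →+ M) := fun w =>
      { toFun := fun r => φ r w
        map_zero' := by rw [map_zero]; rfl
        map_add' := fun a b => by rw [map_add]; rfl }
    have hevdef : ∀ w r, ev w r = φ r w := fun w r => rfl
    have hevmul : ∀ w a b, ev w (a * b) = ev (ev w b) a := by
      intro w a b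
      rw [hevdef, hevdef, hevdef, map_mul]
      rfl
    have hev : ∀ (z : 𝔻) (w : M),
        ev w (∑ k ∈ Finset.range p, (MonoidAlgebra.of ℤ 𝔻 z) ^ k) = Nm z w := by
      intro z w
      show ev w (∑ k ∈ Finset.range p, (MonoidAlgebra.of ℤ 𝔻 z) ^ k)
        = ∑ k ∈ Finset.range p, z ^ k • w
      rw [map_sum]
      refine Finset.sum_congr rfl fun k _ => ?_
      rw [← map_pow, hevdef, hφ]
    have h2 : ev w (p : MonoidAlgebra ℤ 𝔻) = p • w := by
      rw [hevdef, map_natCast]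
      exact AddMonoid.End.natCast_apply p _
    rw [← h2, h1, map_sub, map_add, map_sum, hevmul, hev, hev, hcomm x y w]
    congr 2
    refine Finset.sum_congr rfl fun i _ => ?_
    rw [← hev]
    congr 1
    refine Finset.sum_congr rfl fun k _ => ?_
    rw [map_mul, map_pow]
  -- the image of multiplication by p is finite
  have himg : ((fun w : M => p • w) '' ((C E : AddSubgroup M) : Set M)).Finite := by
    have hF : (Set.pi Set.univ (fun i : Fin p => {w | w ∈ C E ∧ (x * y ^ (i : ℕ)) • w = w})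
        ×ˢ ({w | w ∈ C E ∧ y • w = w} ×ˢ {w | w ∈ C E ∧ y • w = w})).Finite :=
      (Set.Finite.pi fun (i : Fin p) => hfinz _ (hxy (i : ℕ))).prod ((hfinz y hyE).prod (hfinz y hyE))
    refine (hF.image (fun t => ∑ i : Fin p, t.1 i + t.2.1 - t.2.2)).subset ?_
    rintro _ ⟨w, hw, rfl⟩
    refine ⟨(fun i => Nm (x * y ^ (i : ℕ)) w, (Nm y w, Nm y (Nm x w))), ?_, ?_⟩
    · refine ⟨fun i _ => ⟨hNmem _ _ hw, hNfix _ _⟩, ⟨hNmem _ _ hw, hNfix _ _⟩,
        ⟨hNmem _ _ (hNmem _ _ hw), hNfix _ _⟩⟩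
    · show ∑ i : Fin p, Nm (x * y ^ (i : ℕ)) w + Nm y w - Nm y (Nm x w) = p • w
      rw [hident w, Fin.sum_univ_eq_sum_range (fun i => Nm (x * y ^ i) w) p]
  let W : AddSubgroup M :=
    { carrier := {w | w ∈ C E ∧ p • w = 0}
      add_mem' := by
        rintro a b ⟨ha, ha'⟩ ⟨hb, hb'⟩
        exact ⟨(C E).add_mem ha hb, by rw [smul_add, ha', hb', add_zero]⟩
      zero_mem' := ⟨(C E).zero_mem, smul_zero _⟩
      neg_mem' := by
        rintro a ⟨ha, ha'⟩
        exact ⟨(C E).neg_mem ha, by rw [smul_neg, ha', neg_zero]⟩ }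
  have hWinf : (W : Set M).Infinite := by
    intro hWfin
    exact hEinf (fin_of_ker (C E) (nsmulAddMonoidHom p) himg hWfin)
  have hfixW := fixed_aux (𝔻 := 𝔻) p hp hexp W
    (fun d w hw => ⟨hCinv E d w hw.1, by
      show p • (d • w) = 0
      have h5 : p • w = 0 := hw.2
      rw [smul_comm, h5, smul_zero]⟩) (fun w hw => hw.2) hWinf
  obtain ⟨d, hd⟩ : ∃ d : 𝔻, d ≠ 1 := by
    by_contra hall
    push Not at hall
    have h1 : Nat.card 𝔻 = 1 := by
      rw [Nat.card_eq_one_iff_unique]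
      exact ⟨⟨fun a b => by rw [hall a, hall b]⟩, ⟨1⟩⟩
    have h2 : 0 < p ^ Fintype.card Q := pow_pos hp.pos _
    omega
  refine hfixW ((hfix d hd).subset ?_)
  rintro w ⟨-, hw⟩ q
  exact hw _

end Pool.Agent.AO
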