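import Pool.Agent.AO.TOne
import Pool.Agent.AO.CasePAlg

/-!
# `V` as a module (module AO-Act)

Proofs by helper59.

`DData` packages `V` as an abelian group `M` (written additively) with the action of `𝔻` by
conjugation and the action `σ` of the transversal on `𝔻`. `TData` adds, when `V` is normalised by
`G`, the action of `G` and the cocycles `δ`.
-/

set_option autoImplicit false

universe uH

namespace Pool.Agent.AO

variable {H : Type uH} [Group H] {𝔻 : Type*} [CommGroup 𝔻] {Q : Type*} [Fintype Q]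

/-- `V` as an additive group `M` with its action of `𝔻`. -/
structure DData (S : Core H 𝔻 Q) (M : Type*) [AddCommGroup M] where
  ι : M → H
  ι_add : ∀ x y, ι (x + y) = ι x * ι y
  ι_inj : Function.Injective ι
  ι_V : ∀ x, ι x ∈ S.V
  V_ι : ∀ v ∈ S.V, ∃ x, ι x = v
  ρ : 𝔻 →* Module.End ℤ M
  ρ_spec : ∀ d v, ι (ρ d v) = S.j d * ι v * (S.j d)⁻¹
  σ : Q → 𝔻 ≃* 𝔻
  σ_spec : ∀ q d, S.j (σ q d) = S.t q * S.j d * (S.t q)⁻¹

/-- The same with the action of `G` on `V` and the cocycles `δ g : 𝔻 → M`, `g ∈ G1`, where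
`G1` is the centraliser of `Gam / V` in `G`. The functions `act`, `δ` are only meaningful
on `G`, respectively `G1`. -/
structure TData (S : Core H 𝔻 Q) (M : Type*) [AddCommGroup M] extends DData S M where
  V_norm : ∀ g ∈ S.G, ∀ v ∈ S.V, g * v * g⁻¹ ∈ S.V
  act : H → Module.End ℤ M
  act_spec : ∀ g ∈ S.G, ∀ v, ι (act g v) = g * ι v * g⁻¹
  G1 : Subgroup H
  mem_G1 : ∀ g, g ∈ G1 ↔ g ∈ S.G ∧ ∀ d, g * S.j d * g⁻¹ * (S.j d)⁻¹ ∈ S.V
  δ : H → 𝔻 → M
  δ_spec : ∀ g ∈ G1, ∀ d, ι (δ g d) = g * S.j d * g⁻¹ * (S.j d)⁻¹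

/-- auxiliary: `V` as an additive group -/
private theorem Act_base (S : Core H 𝔻 Q) :
    ∃ (M : Type uH) (_ : AddCommGroup M) (ι : M → H), (∀ x y, ι (x + y) = ι x * ι y) ∧
      Function.Injective ι ∧ (∀ x, ι x ∈ S.V) ∧ ∀ v ∈ S.V, ∃ x, ι x = v := by
  let _ : CommGroup S.V :=
    { (inferInstance : Group S.V) with
      mul_comm := fun x y => Subtype.ext (S.V_comm x.1 x.2 y.1 y.2) }
  refine ⟨Additive S.V, inferInstance, fun x => ((Additive.toMul x : S.V) : H), ?_, ?_, ?_, ?_⟩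
  · intro x y
    rfl
  · intro x y h
    exact Additive.toMul.injective (Subtype.ext h)
  · intro x
    exact (Additive.toMul x : S.V).2
  · intro v hv
    exact ⟨Additive.ofMul ⟨v, hv⟩, rfl⟩

/-- auxiliary: conjugation as a linear map -/
private theorem Act_end (S : Core H 𝔻 Q) {M : Type uH} [AddCommGroup M] (ι : M → H)
    (ι_add : ∀ x y, ι (x + y) = ι x * ι y) (ι_inj : Function.Injective ι)
    (ι_V : ∀ x, ι x ∈ S.V) (V_ι : ∀ v ∈ S.V, ∃ x, ι x = v) (h : H)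
    (hh : ∀ v ∈ S.V, h * v * h⁻¹ ∈ S.V) :
    ∃ φ : Module.End ℤ M, ∀ v, ι (φ v) = h * ι v * h⁻¹ := by
  choose f hf using fun v : M => V_ι _ (hh (ι v) (ι_V v))
  have hadd : ∀ x y, f (x + y) = f x + f y := by
    intro x y
    apply ι_inj
    rw [ι_add, hf, hf, hf, ι_add]
    group
  exact ⟨(AddMonoidHom.mk' f hadd).toIntLinearMap, hf⟩

/-- auxiliary: conjugation by an element of `B` on `𝔻` -/
private theorem Act_tau (S : Core H 𝔻 Q) {b : H} (hb : b ∈ S.B) :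
    ∃ τ : 𝔻 ≃* 𝔻, ∀ d, S.j (τ d) = b * S.j d * b⁻¹ := by
  choose f hf using S.jB b hb
  choose g hg using S.jB b⁻¹ (inv_mem hb)
  have hf' : ∀ d, S.j (f d) = b * S.j d * b⁻¹ := fun d => (hf d).symm
  have hg' : ∀ d, S.j (g d) = b⁻¹ * S.j d * b := fun d => by
    have := (hg d).symm
    rwa [inv_inv] at this
  refine ⟨{ toFun := f, invFun := g, left_inv := ?_, right_inv := ?_, map_mul' := ?_ }, hf'⟩
  · intro d
    apply S.jinj
    rw [hg', hf']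
    group
  · intro d
    apply S.jinj
    rw [hf', hg']
    group
  · intro x y
    apply S.jinj
    rw [map_mul, hf', hf', hf', map_mul]
    group

/-- PROOF. Take `M = Additive S.V`, with `AddCommGroup` structure from `V_comm`
(build `CommGroup S.V` with `mul_comm` from `V_comm`), `ι v = (v.toMul : H)`.
`ρ d` is conjugation by `j d` (`D_norm_V`); additive maps are `ℤ`-linear (`AddMonoidHom.toIntLinearMap`);
`ρ (d e) = ρ d * ρ e` and `ρ 1 = 1` by injectivity of `ι`. `σ q d` is the (unique, `jinj`) element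
with `j (σ q d) = t q (j d) (t q)⁻¹` (`jB`, `tB`); it is a homomorphism, bijective since the same
construction for `(t q)⁻¹` gives the inverse. -/
theorem exists_DData (S : Core H 𝔻 Q) :
    ∃ (M : Type uH) (_ : AddCommGroup M), Nonempty (DData S M) := by
  obtain ⟨M, inst, ι, ι_add, ι_inj, ι_V, V_ι⟩ := Act_base S
  have hend : ∀ d : 𝔻, ∃ φ : Module.End ℤ M, ∀ v, ι (φ v) = S.j d * ι v * (S.j d)⁻¹ :=
    fun d => Act_end S ι ι_add ι_inj ι_V V_ι (S.j d) (S.D_norm_V d)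
  choose r hr using hend
  choose τ hτ using fun q => Act_tau S (S.tB q)
  refine ⟨M, inst, ⟨{
    ι := ι
    ι_add := ι_add
    ι_inj := ι_inj
    ι_V := ι_V
    V_ι := V_ι
    ρ := {
      toFun := r
      map_one' := ?_
      map_mul' := ?_ }
    ρ_spec := fun d v => hr d v
    σ := τ
    σ_spec := hτ }⟩⟩
  · refine LinearMap.ext fun v => ι_inj ?_
    rw [hr, map_one]
    change 1 * ι v * 1⁻¹ = ι v
    group
  · intro x y
    refine LinearMap.ext fun v => ι_inj ?_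
    rw [hr, Module.End.mul_apply, hr, hr, map_mul]
    group

/-- PROOF. As `exists_DData`; `act g` is conjugation by `g` for `g ∈ G` (`V_norm`) and `0` (or `1`)
otherwise. `G1 = {g ∈ G | ∀ d, g d g⁻¹ d⁻¹ ∈ V}` is a subgroup:
`g h d (g h)⁻¹ d⁻¹ = g (h d h⁻¹ d⁻¹) g⁻¹ · (g d g⁻¹ d⁻¹)` and
`g⁻¹ d g d⁻¹ = (g⁻¹ (g d g⁻¹ d⁻¹) g)⁻¹`. `δ g d` is the element of `M` corresponding to
`g d g⁻¹ d⁻¹ ∈ V` for `g ∈ G1` and `0` otherwise. -/
theorem exists_TData (S : Core H 𝔻 Q) (hV : ∀ g ∈ S.G, ∀ v ∈ S.V, g * v * g⁻¹ ∈ S.V) :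
    ∃ (M : Type uH) (_ : AddCommGroup M), Nonempty (TData S M) := by
  classical
  obtain ⟨M, inst, ⟨T⟩⟩ := exists_DData S
  have hend : ∀ g : H, ∃ φ : Module.End ℤ M, g ∈ S.G → ∀ v, T.ι (φ v) = g * T.ι v * g⁻¹ := by
    intro g
    by_cases hg : g ∈ S.G
    · obtain ⟨φ, hφ⟩ := Act_end S T.ι T.ι_add T.ι_inj T.ι_V T.V_ι g (hV g hg)
      exact ⟨φ, fun _ => hφ⟩
    · exact ⟨0, fun h => absurd h hg⟩
  choose r hr using hend
  obtain ⟨G1, hG1⟩ : ∃ G1 : Subgroup H,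
      ∀ g, g ∈ G1 ↔ g ∈ S.G ∧ ∀ d, g * S.j d * g⁻¹ * (S.j d)⁻¹ ∈ S.V := by
    refine ⟨{
      carrier := {g | g ∈ S.G ∧ ∀ d, g * S.j d * g⁻¹ * (S.j d)⁻¹ ∈ S.V}
      mul_mem' := ?_
      one_mem' := ?_
      inv_mem' := ?_ }, fun g => Iff.rfl⟩
    · rintro g h ⟨hg, hg'⟩ ⟨hh, hh'⟩
      refine ⟨mul_mem hg hh, fun d => ?_⟩
      have h1 := mul_mem (hV g hg _ (hh' d)) (hg' d)
      have h2 : g * (h * S.j d * h⁻¹ * (S.j d)⁻¹) * g⁻¹ * (g * S.j d * g⁻¹ * (S.j d)⁻¹) =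
          g * h * S.j d * (g * h)⁻¹ * (S.j d)⁻¹ := by group
      rwa [h2] at h1
    · refine ⟨one_mem _, fun d => ?_⟩
      have h2 : (1 : H) * S.j d * 1⁻¹ * (S.j d)⁻¹ = 1 := by group
      rw [h2]
      exact one_mem _
    · rintro g ⟨hg, hg'⟩
      refine ⟨inv_mem hg, fun d => ?_⟩
      have h1 := inv_mem (hV g⁻¹ (inv_mem hg) _ (hg' d))
      have h2 : (g⁻¹ * (g * S.j d * g⁻¹ * (S.j d)⁻¹) * g⁻¹⁻¹)⁻¹ =
          g⁻¹ * S.j d * g⁻¹⁻¹ * (S.j d)⁻¹ := by group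
      rwa [h2] at h1
  have hdel : ∀ (g : H) (d : 𝔻), ∃ m : M, g ∈ G1 → T.ι m = g * S.j d * g⁻¹ * (S.j d)⁻¹ := by
    intro g d
    by_cases hg : g ∈ G1
    · obtain ⟨m, hm⟩ := T.V_ι _ (((hG1 g).1 hg).2 d)
      exact ⟨m, fun _ => hm⟩
    · exact ⟨0, fun h => absurd h hg⟩
  choose δ hδ using hdel
  exact ⟨M, inst, ⟨{ T with
    V_norm := hV
    act := r
    act_spec := fun g hg v => hr g hg v
    G1 := G1
    mem_G1 := hG1
    δ := δ
    δ_spec := fun g hg d => hδ g d hg }⟩⟩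

namespace DData

variable {S : Core H 𝔻 Q} {M : Type*} [AddCommGroup M] (T : DData S M)

theorem ι_zero : T.ι 0 = 1 := by
  have h := T.ι_add 0 0
  simpa using h

theorem ι_neg (x : M) : T.ι (-x) = (T.ι x)⁻¹ := by
  have h := T.ι_add (-x) x
  rw [neg_add_cancel, T.ι_zero] at h
  exact eq_inv_of_mul_eq_one_left h.symm

theorem ι_sub (x y : M) : T.ι (x - y) = T.ι x * (T.ι y)⁻¹ := by
  rw [sub_eq_add_neg, T.ι_add, T.ι_neg]

theorem ι_comm (x y : M) : T.ι x * T.ι y = T.ι y * T.ι x :=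
  S.V_comm _ (T.ι_V x) _ (T.ι_V y)

/-- PROOF. `Core.V_inf_C` and `ι_zero`, `ι_inj`. -/
theorem iC {v : M} (hv : T.ι v ∈ S.C) : v = 0 := by
  have h := S.V_inf_C (T.ι_V v) hv
  exact T.ι_inj (h.trans T.ι_zero.symm)

/-- For `d ≠ 1` at most `|Q|` elements of `M` are fixed by all `σ q d`.
PROOF. `ρ (σ q d) v = v` iff `ι v` commutes with `j (σ q d) = t q d (t q)⁻¹`, so `ι` maps this set
injectively into the set of `Core.fix_small`. -/
theorem fix {d : 𝔻} (hd : d ≠ 1) :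
    {v : M | ∀ q, T.ρ (T.σ q d) v = v}.Finite ∧
    {v : M | ∀ q, T.ρ (T.σ q d) v = v}.ncard ≤ Fintype.card Q := by
  have hF := S.fix_small hd
  have hmaps : ∀ v ∈ {v : M | ∀ q, T.ρ (T.σ q d) v = v},
      T.ι v ∈ {v : H | v ∈ S.V ∧ ∀ q, Commute v (S.t q * S.j d * (S.t q)⁻¹)} := by
    intro v hv
    refine ⟨T.ι_V v, fun q => ?_⟩
    have h1 := T.ρ_spec (T.σ q d) v
    rw [hv q, T.σ_spec] at h1
    have h2 : T.ι v * (S.t q * S.j d * (S.t q)⁻¹) = (S.t q * S.j d * (S.t q)⁻¹) * T.ι v := by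
      conv_lhs => rw [h1]
      group
    exact h2
  refine ⟨Set.Finite.of_finite_image (hF.1.subset ?_) T.ι_inj.injOn, ?_⟩
  · rintro _ ⟨v, hv, rfl⟩
    exact hmaps v hv
  · exact le_trans (Set.ncard_le_ncard_of_injOn T.ι hmaps T.ι_inj.injOn hF.1) hF.2

/-- PROOF. The preimages under `ι` of the generators `δ_u(d)`, `u ∈ U`, of `V` generate `M`:
the set `{ι m | m ∈ N}` is a subgroup of `H` containing the generators of `V`, so it contains `V`;
so for `m : M` there is `n ∈ N` with `ι m = ι n`, `m = n`. -/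
theorem gen (N : AddSubgroup M) (h : ∀ u ∈ S.U, ∀ d, ∃ m ∈ N, T.ι m = S.delta u d) : N = ⊤ := by
  obtain ⟨K, hK⟩ : ∃ K : Subgroup H, ∀ x, x ∈ K ↔ ∃ m ∈ N, T.ι m = x := by
    refine ⟨{
      carrier := {x | ∃ m ∈ N, T.ι m = x}
      mul_mem' := ?_
      one_mem' := ⟨0, zero_mem _, T.ι_zero⟩
      inv_mem' := ?_ }, fun x => Iff.rfl⟩
    · rintro _ _ ⟨m, hm, rfl⟩ ⟨n, hn, rfl⟩
      exact ⟨m + n, add_mem hm hn, T.ι_add m n⟩
    · rintro _ ⟨m, hm, rfl⟩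
      exact ⟨-m, neg_mem hm, T.ι_neg m⟩
  have hVK : S.V ≤ K := by
    unfold Core.V
    rw [Subgroup.closure_le]
    rintro x ⟨u, hu, d, rfl⟩
    exact (hK _).2 (h u hu d)
  rw [eq_top_iff]
  intro m _
  obtain ⟨n, hn, hmn⟩ := (hK _).1 (hVK (T.ι_V m))
  rw [← T.ι_inj hmn]
  exact hn

end DData

end Pool.Agent.AO
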