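import Pool.Agent.AO.Char
import Pool.Agent.AO.GroupRing

/-!
# The prime ideal argument (module AO-Assoc)

Proof by helper59.
-/

set_option autoImplicit false

namespace Pool.Agent.AO

open MonoidAlgebra

/-- Let `𝔻` be a finitely generated abelian group, `N` a `ℤ[𝔻]`-module and `w ≠ 0` in `N` such that
`r_e w` depends only on `κ e ∈ Q`. Then some `y ≠ 0` in `N` is fixed by a subgroup of finite
index of `𝔻`.
PROOF. `R = ℤ[𝔻]` is noetherian (`MonoidAlgebra.finiteType_of_fg`,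
`Algebra.FiniteType.isNoetherianRing ℤ`). By `exists_le_isAssociatedPrime_of_isNoetherianRing` there
is a prime `P` containing the annihilator of `w` (`⊥.colon {w} ≤ P`) and `y` with `P = ⊥.colon {y}`
(use the noetherian characterisation `isAssociatedPrime_iff...` in
`Mathlib/RingTheory/Ideal/AssociatedPrime/Basic.lean`); `y ≠ 0` since `P ≠ ⊤`.
If `κ e = κ f` then `rR σ e - rR σ f` kills `w`, so it is in `P`. Let `K` be the fraction field of
`R / P` and `l q : 𝔻 →* K`, `l q d` = the image of `of (σ q d)`. The image of `rR σ e` in `K` is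
`∏_q (1 - l q e)` and depends only on `κ e`, so the range of this function is finite. By
`exists_ker_finiteIndex` some `(l q).ker` has finite index; let `E` be its image under `σ q`
(`Subgroup.map`, or the comap under `(σ q).symm`), a subgroup of finite index. For `k ∈ E`, the
image of `of k` in `K` is `1`, so (`R / P → K` is injective) `of k - 1 ∈ P`, so `of k • y = y`. -/
theorem exists_fixed {𝔻 Q N : Type*} [CommGroup 𝔻] [Group.FG 𝔻] [Fintype Q] [Nonempty Q]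
    [AddCommGroup N] [Module (MonoidAlgebra ℤ 𝔻) N] (σ : Q → 𝔻 ≃* 𝔻) (κ : 𝔻 → Q) (w : N)
    (hw : w ≠ 0) (hκ : ∀ e f, κ e = κ f → rR σ e • w = rR σ f • w) :
    ∃ y : N, y ≠ 0 ∧ ∃ E : Subgroup 𝔻, E.FiniteIndex ∧
      ∀ k ∈ E, MonoidAlgebra.of ℤ 𝔻 k • y = y := by
  classical
  have hFG : Monoid.FG 𝔻 := Group.fg_iff_monoid_fg.1 inferInstance
  have hFT : Algebra.FiniteType ℤ (MonoidAlgebra ℤ 𝔻) := MonoidAlgebra.finiteType_of_fg
  have hNoeth : IsNoetherianRing (MonoidAlgebra ℤ 𝔻) :=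
    Algebra.FiniteType.isNoetherianRing ℤ (MonoidAlgebra ℤ 𝔻)
  obtain ⟨P, hP, hle⟩ :=
    exists_le_isAssociatedPrime_of_isNoetherianRing (MonoidAlgebra ℤ 𝔻) w hw
  obtain ⟨hPprime, y, hy⟩ := isAssociatedPrime_iff.1 hP
  have hmem : ∀ r : MonoidAlgebra ℤ 𝔻, r ∈ P ↔ r • y = 0 := by
    intro r
    rw [hy, Submodule.mem_colon_singleton, Submodule.mem_bot]
  have hyne : y ≠ 0 := by
    intro h0
    refine hPprime.ne_top ?_
    rw [Ideal.eq_top_iff_one, hmem, h0, smul_zero]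
  have hwP : ∀ r : MonoidAlgebra ℤ 𝔻, r • w = 0 → r ∈ P := by
    intro r hr
    apply hle
    rw [Submodule.mem_colon_singleton, Submodule.mem_bot]
    exact hr
  let K := FractionRing (MonoidAlgebra ℤ 𝔻 ⧸ P)
  let f : MonoidAlgebra ℤ 𝔻 →+* K :=
    (algebraMap (MonoidAlgebra ℤ 𝔻 ⧸ P) K).comp (Ideal.Quotient.mk P)
  have hf : ∀ r, f r = 0 ↔ r ∈ P := by
    intro r
    have h1 : Function.Injective (algebraMap (MonoidAlgebra ℤ 𝔻 ⧸ P) K) :=
      IsFractionRing.injective (MonoidAlgebra ℤ 𝔻 ⧸ P) K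
    change algebraMap (MonoidAlgebra ℤ 𝔻 ⧸ P) K (Ideal.Quotient.mk P r) = 0 ↔ r ∈ P
    rw [map_eq_zero_iff _ h1, Ideal.Quotient.eq_zero_iff_mem]
  let l : Q → 𝔻 →* K := fun q =>
    (f : MonoidAlgebra ℤ 𝔻 →* K).comp ((MonoidAlgebra.of ℤ 𝔻).comp (σ q : 𝔻 →* 𝔻))
  have hl : ∀ q d, l q d = f (MonoidAlgebra.of ℤ 𝔻 (σ q d)) := fun _ _ => rfl
  have hfr : ∀ e, f (rR σ e) = ∏ q, (1 - l q e) := by
    intro e
    unfold rR
    rw [map_prod]
    refine Finset.prod_congr rfl fun q _ => ?_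
    rw [map_sub, map_one, hl]
  have hκ' : ∀ e e', κ e = κ e' → (∏ q, (1 - l q e)) = ∏ q, (1 - l q e') := by
    intro e e' h
    rw [← hfr, ← hfr, ← sub_eq_zero, ← map_sub, hf]
    apply hwP
    rw [sub_smul, hκ e e' h, sub_self]
  have hfin : (Set.range fun d : 𝔻 => ∏ q, (1 - l q d)).Finite := by
    refine (Set.finite_range fun q : Q =>
      if h : ∃ e, κ e = q then ∏ q', (1 - l q' h.choose) else 0).subset ?_
    rintro _ ⟨d, rfl⟩
    have hex : ∃ e, κ e = κ d := ⟨d, rfl⟩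
    refine ⟨κ d, ?_⟩
    change (if h : ∃ e, κ e = κ d then ∏ q', (1 - l q' h.choose) else 0) = _
    rw [dif_pos hex]
    exact hκ' _ _ hex.choose_spec
  obtain ⟨q, hq⟩ := exists_ker_finiteIndex l hfin
  refine ⟨y, hyne, (l q).ker.comap ((σ q).symm : 𝔻 →* 𝔻), ⟨?_⟩, ?_⟩
  · rw [Subgroup.index_comap_of_surjective]
    · exact hq.index_ne_zero
    · exact (σ q).symm.surjective
  · intro k hk
    rw [Subgroup.mem_comap, MonoidHom.mem_ker, hl] at hk
    have h1 : σ q ((((σ q).symm : 𝔻 ≃* 𝔻) : 𝔻 →* 𝔻) k) = k := (σ q).apply_symm_apply k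
    rw [h1] at hk
    have h2 : f (MonoidAlgebra.of ℤ 𝔻 k - 1) = 0 := by
      rw [map_sub, map_one, hk, sub_self]
    rw [hf, hmem, sub_smul, one_smul, sub_eq_zero] at h2
    exact h2

end Pool.Agent.AO
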