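import Pool.Agent.AO.Act

/-!
# The bounded exponent case (module AO-CaseP)

Proofs by helper11.
-/

set_option autoImplicit false

namespace Pool.Agent.AO

variable {H : Type*} [Group H] {𝔻 : Type*} [CommGroup 𝔻] {Q : Type*} [Fintype Q]

/-- `V` is infinite.
PROOF. Suppose `V` is finite. For `a ∈ A ∩ G` choose (`hUB`) `b ∈ B ∩ G` with `u = a b ∈ U`, and let
`q` be the index with `(t q)⁻¹ b ∈ C` (`hT`). Map `a` to the pair of `q` and the function
`𝔻 → V`, `d ↦ δ_u(d) = a (b d b⁻¹) a⁻¹ d⁻¹`. Since `𝔻`, `V`, `Q` are finite the set of such pairs is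
finite, so (as `A ∩ G` is infinite, `infA`) there are `a ≠ a'` in `A ∩ G` with the same image.
As `b d b⁻¹ = t q d (t q)⁻¹ = b' d b'⁻¹` (`b = t q c`, `C` commutative), for all `d`:
`a (t q d (t q)⁻¹) a⁻¹ = a' (t q d (t q)⁻¹) a'⁻¹`. Every `e : 𝔻` has `j e = t q d (t q)⁻¹` for some
`d` (`jB` for `(t q)⁻¹`), so `a'⁻¹ a` commutes with all `j e`, in particular with all
`t q' d (t q')⁻¹` for a fixed `d ≠ 1` (`nt`), so `a'⁻¹ a = 1` by `Pre.one_of_comm`: contradiction. -/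
theorem V_infinite (S : Core H 𝔻 Q) [Finite 𝔻] : (S.V : Set H).Infinite := by
  intro hfin
  haveI : Finite ↥(S.V : Set H) := hfin
  haveI : Infinite ↥((S.A ⊓ S.G : Subgroup H) : Set H) := S.infA.to_subtype
  have hmem : ∀ a : ↥((S.A ⊓ S.G : Subgroup H) : Set H), (a : H) ∈ S.A ∧ (a : H) ∈ S.G :=
    fun a => Subgroup.mem_inf.1 a.2
  choose b hbB hbG hbU using fun a : ↥((S.A ⊓ S.G : Subgroup H) : Set H) =>
    S.hUB (a : H) (hmem a).2
  choose q hq using fun a => (S.hT (b a) (hbB a)).exists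
  obtain ⟨a₁, a₂, hne, heq⟩ := Finite.exists_ne_map_eq_of_infinite
    (fun a : ↥((S.A ⊓ S.G : Subgroup H) : Set H) =>
      ((q a, fun d => (⟨S.delta ((a : H) * b a) d, S.delta_mem_V (hbU a) d⟩ :
        ↥(S.V : Set H))) : Q × (𝔻 → ↥(S.V : Set H))))
  have hq12 : q a₁ = q a₂ := (Prod.ext_iff.1 heq).1
  have hδ : ∀ d, S.delta ((a₁ : H) * b a₁) d = S.delta ((a₂ : H) * b a₂) d := fun d =>
    congrArg Subtype.val (congrFun (Prod.ext_iff.1 heq).2 d)
  -- `b d b⁻¹ = t q d (t q)⁻¹`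
  have hconj : ∀ (a : ↥((S.A ⊓ S.G : Subgroup H) : Set H)) (d : 𝔻),
      b a * S.j d * (b a)⁻¹ = S.t (q a) * S.j d * (S.t (q a))⁻¹ := by
    intro a d
    have h1 : ((S.t (q a))⁻¹ * b a) * S.j d = S.j d * ((S.t (q a))⁻¹ * b a) :=
      S.cC _ (hq a) _ (S.jC d)
    calc b a * S.j d * (b a)⁻¹
        = S.t (q a) * (((S.t (q a))⁻¹ * b a) * S.j d) * ((S.t (q a))⁻¹ * b a)⁻¹ *
            (S.t (q a))⁻¹ := by group
      _ = S.t (q a) * (S.j d * ((S.t (q a))⁻¹ * b a)) * ((S.t (q a))⁻¹ * b a)⁻¹ *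
            (S.t (q a))⁻¹ := by rw [h1]
      _ = S.t (q a) * S.j d * (S.t (q a))⁻¹ := by group
  have hdel : ∀ (a : ↥((S.A ⊓ S.G : Subgroup H) : Set H)) (d : 𝔻),
      S.delta ((a : H) * b a) d =
        (a : H) * (S.t (q a) * S.j d * (S.t (q a))⁻¹) * (a : H)⁻¹ * (S.j d)⁻¹ := by
    intro a d
    unfold Core.delta
    rw [← hconj a d]
    group
  have hcomm : ∀ e : 𝔻, Commute ((a₂ : H)⁻¹ * a₁) (S.j e) := by
    intro e
    obtain ⟨d, hd⟩ := S.jB (S.t (q a₁))⁻¹ (inv_mem (S.tB (q a₁))) e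
    have hd' : S.t (q a₁) * S.j d * (S.t (q a₁))⁻¹ = S.j e := by
      rw [← hd]; group
    have h1 := hδ d
    rw [hdel, hdel, ← hq12, hd'] at h1
    have h2 : (a₁ : H) * S.j e * (a₁ : H)⁻¹ = (a₂ : H) * S.j e * (a₂ : H)⁻¹ :=
      mul_right_cancel h1
    show (a₂ : H)⁻¹ * a₁ * S.j e = S.j e * ((a₂ : H)⁻¹ * a₁)
    calc (a₂ : H)⁻¹ * a₁ * S.j e = (a₂ : H)⁻¹ * ((a₁ : H) * S.j e * (a₁ : H)⁻¹) * a₁ := by
          group
      _ = (a₂ : H)⁻¹ * ((a₂ : H) * S.j e * (a₂ : H)⁻¹) * a₁ := by rw [h2]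
      _ = S.j e * ((a₂ : H)⁻¹ * a₁) := by group
  obtain ⟨d, hd⟩ := S.nt
  have hjd : S.j d ≠ 1 := by
    intro h
    exact hd (S.jinj (by rw [h, map_one]))
  have h5 : (a₂ : H)⁻¹ * a₁ = 1 := by
    refine S.one_of_comm (S.jC d) hjd (mul_mem (inv_mem (hmem a₂).1) (hmem a₁).1) fun q' => ?_
    obtain ⟨d', hd'⟩ := S.jB (S.t q') (S.tB q') d
    rw [hd']
    exact hcomm d'
  exact hne (Subtype.ext (inv_mul_eq_one.1 h5).symm)

/-- PROOF. Take `DData` `T` on `M` (`exists_DData`). Let `𝔻` act on `M` by `d • m = T.ρ d m`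
(a `DistribMulAction`, `letI`). By `T.fix` and `casePAlg` `M` is finite, so `V`, the image of
`ι`, is finite (`V_ι`), contradicting `V_infinite`. -/
theorem caseP (S : Core H 𝔻 Q) [Finite 𝔻] (p : ℕ) (hp : p.Prime) (hexp : ∀ d : 𝔻, d ^ p = 1)
    (hcard : p ^ Fintype.card Q < Nat.card 𝔻) : False := by
  obtain ⟨M, iM, ⟨T⟩⟩ := exists_DData S
  letI act : DistribMulAction 𝔻 M :=
    { smul := fun d m => T.ρ d m
      one_smul := fun m => by
        show T.ρ 1 m = m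
        rw [map_one]; rfl
      mul_smul := fun d e m => by
        show T.ρ (d * e) m = T.ρ d (T.ρ e m)
        rw [map_mul]; rfl
      smul_zero := fun d => map_zero (T.ρ d)
      smul_add := fun d x y => map_add (T.ρ d) x y }
  have hM : Finite M := casePAlg p hp hexp hcard T.σ fun d hd => (T.fix hd).1
  have hsub : (S.V : Set H) ⊆ Set.range T.ι := by
    intro v hv
    obtain ⟨x, hx⟩ := T.V_ι v hv
    exact ⟨x, hx⟩
  exact V_infinite S ((Set.finite_range T.ι).subset hsub)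

end Pool.Agent.AO
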