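import Pool.Agent.AO.Gam

/-!
# Centralisers (module AO-Cent)

Notation: `d` stands for `S.j d`; `A, B, C, G, t, ...` are the fields of `S`.
-/

set_option autoImplicit false

namespace Pool.Agent.AO

namespace Pre

variable {H : Type*} [Group H] {Q : Type*} [Fintype Q] (S : Pre H Q)

/-- Every `B`-conjugate of an element `c ∈ C` is one of the elements `t q c (t q)⁻¹`.
PROOF. By `hT` there is `q` with `(t q)⁻¹ b = c' ∈ C`, `b = t q c'`, and `C` is commutative. -/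
theorem conj_eq {b c : H} (hb : b ∈ S.B) (hc : c ∈ S.C) :
    ∃ q, b * c * b⁻¹ = S.t q * c * (S.t q)⁻¹ := by
  obtain ⟨q, hq, -⟩ := S.hT b hb
  refine ⟨q, ?_⟩
  have h1 : ((S.t q)⁻¹ * b) * c = c * ((S.t q)⁻¹ * b) := S.cC _ hq _ hc
  calc b * c * b⁻¹ = S.t q * (((S.t q)⁻¹ * b) * c) * ((S.t q)⁻¹ * b)⁻¹ * (S.t q)⁻¹ := by group
    _ = S.t q * (c * ((S.t q)⁻¹ * b)) * ((S.t q)⁻¹ * b)⁻¹ * (S.t q)⁻¹ := by rw [h1]
    _ = S.t q * c * (S.t q)⁻¹ := by group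

/-- PROOF. If `a` commutes with all `t q c (t q)⁻¹` then
`a (t q c (t q)⁻¹) a⁻¹ = t q c (t q)⁻¹ ∈ C` (by `nC`), so `h3` applies. -/
theorem one_of_comm {c a : H} (hc : c ∈ S.C) (hc1 : c ≠ 1) (ha : a ∈ S.A)
    (h : ∀ q, Commute a (S.t q * c * (S.t q)⁻¹)) : a = 1 := by
  refine S.h3 c hc hc1 a ha fun q => ?_
  have h1 : a * (S.t q * c * (S.t q)⁻¹) * a⁻¹ = S.t q * c * (S.t q)⁻¹ := by
    rw [(h q).eq]; group
  rw [h1]
  exact S.nC _ (S.tB q) _ hc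

/-- PROOF. Take `c ∈ C`, `c ≠ 1` (field `ntC`). If `a ∈ A ∩ B` then
`a (t q c (t q)⁻¹) a⁻¹ ∈ C` by `nC` for all `q`; so `a = 1` by `h3`. -/
theorem A_inf_B {a : H} (ha : a ∈ S.A) (hb : a ∈ S.B) : a = 1 := by
  obtain ⟨c, hc, -, hc1⟩ := S.ntC
  exact S.h3 c hc hc1 a ha fun q => S.nC a hb _ (S.nC _ (S.tB q) _ hc)

/-- Let `X ≥ C` be a subgroup with `X ∩ A = 1`. Then the left cosets of `C` in `X` are separated
by a map to `Q`.
PROOF. For `x : H` write `x = a b` (`hAB`), `a ∈ A`, `b ∈ B` and let `φ x` be a `q` with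
`(t q)⁻¹ b ∈ C` (`hT`, use choice). If `x, y ∈ X` and `φ x = φ y = q`, then `x = a (t q) c`,
`y = a' (t q) c'` with `c, c' ∈ C ≤ X`. So `a (t q), a' (t q) ∈ X`, so
`a a'⁻¹ = (a (t q)) (a' (t q))⁻¹ ∈ X ∩ A = 1`, `a = a'`, and `x⁻¹ y = c⁻¹ c' ∈ C`. -/
theorem exists_sep : ∃ φ : H → Q, ∀ X : Subgroup H, S.C ≤ X → (∀ a ∈ X, a ∈ S.A → a = 1) →
    ∀ x ∈ X, ∀ y ∈ X, φ x = φ y → x⁻¹ * y ∈ S.C := by
  choose a ha b hb hab using S.hAB
  choose q hq using fun x => (S.hT (b x) (hb x)).exists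
  refine ⟨q, fun X hCX hXA x hx y hy hxy => ?_⟩
  have key : ∀ z ∈ X, a z * S.t (q z) ∈ X := by
    intro z hz
    have h1 : a z * S.t (q z) = z * ((S.t (q z))⁻¹ * b z)⁻¹ := by
      conv_rhs => rw [show z * ((S.t (q z))⁻¹ * b z)⁻¹ = (a z * b z) * ((S.t (q z))⁻¹ * b z)⁻¹ by
        rw [← hab z]]
      group
    rw [h1]
    exact mul_mem hz (inv_mem (hCX (hq z)))
  have h2 : a x * (a y)⁻¹ = (a x * S.t (q x)) * (a y * S.t (q y))⁻¹ := by
    rw [← hxy]; group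
  have h3 : a x * (a y)⁻¹ = 1 := by
    refine hXA _ ?_ (mul_mem (ha x) (inv_mem (ha y)))
    rw [h2]
    exact mul_mem (key x hx) (inv_mem (key y hy))
  have h4 : a x = a y := mul_inv_eq_one.1 h3
  have h5 : x⁻¹ * y = ((S.t (q x))⁻¹ * b x)⁻¹ * ((S.t (q y))⁻¹ * b y) := by
    calc x⁻¹ * y = (a x * b x)⁻¹ * (a y * b y) := by rw [← hab x, ← hab y]
      _ = (b x)⁻¹ * ((a x)⁻¹ * a y) * b y := by group
      _ = (b x)⁻¹ * b y := by rw [h4]; group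
      _ = ((S.t (q x))⁻¹ * b x)⁻¹ * ((S.t (q x))⁻¹ * b y) := by group
      _ = ((S.t (q x))⁻¹ * b x)⁻¹ * ((S.t (q y))⁻¹ * b y) := by rw [hxy]
  rw [h5]
  exact mul_mem (inv_mem (hq x)) (hq y)

/-- The centraliser of the `B`-conjugates of `c`. -/
def CB (c : H) : Subgroup H :=
  Subgroup.centralizer {x | ∃ q, x = S.t q * c * (S.t q)⁻¹}

/-- PROOF. `C` is commutative and normal in `B`. -/
theorem C_le_CB {c : H} (hc : c ∈ S.C) : S.C ≤ S.CB c := by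
  intro x hx
  unfold CB
  rw [Subgroup.mem_centralizer_iff]
  rintro y ⟨q, rfl⟩
  exact S.cC _ (S.nC _ (S.tB q) _ hc) _ hx

/-- PROOF. `one_of_comm`. -/
theorem CB_inf_A {c : H} (hc : c ∈ S.C) (hc1 : c ≠ 1) : ∀ a ∈ S.CB c, a ∈ S.A → a = 1 := by
  intro a h ha
  unfold CB at h
  rw [Subgroup.mem_centralizer_iff] at h
  exact S.one_of_comm hc hc1 ha fun q => (h _ ⟨q, rfl⟩).symm

/-- A subgroup `Y ≤ C_H(c^B)` with `Y ∩ C = 1` has at most `|Q|` elements.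
PROOF. The map `φ` of `exists_sep` (with `X = CB c`) is injective on `Y`:
`φ x = φ y` gives `x⁻¹ y ∈ Y ∩ C = 1`. -/
theorem small_of_CB {c : H} (hc : c ∈ S.C) (hc1 : c ≠ 1) (Y : Subgroup H) (hY : Y ≤ S.CB c)
    (hYC : ∀ y ∈ Y, y ∈ S.C → y = 1) :
    (Y : Set H).Finite ∧ (Y : Set H).ncard ≤ Fintype.card Q := by
  obtain ⟨φ, hφ⟩ := S.exists_sep
  have hinj : Set.InjOn φ (Y : Set H) := by
    intro x hx y hy hxy
    have h1 := hφ (S.CB c) (S.C_le_CB hc) (S.CB_inf_A hc hc1) x (hY hx) y (hY hy) hxy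
    have h2 := hYC _ (mul_mem (inv_mem hx) hy) h1
    exact inv_mul_eq_one.1 h2
  refine ⟨Set.Finite.of_finite_image (Set.toFinite _) hinj, ?_⟩
  rw [← Set.ncard_image_of_injOn hinj, ← Nat.card_eq_fintype_card, ← Set.ncard_univ]
  exact Set.ncard_le_ncard (Set.subset_univ _) (Set.toFinite _)

end Pre

namespace Core

variable {H : Type*} [Group H] {𝔻 : Type*} [CommGroup 𝔻] {Q : Type*} [Fintype Q]
variable (S : Core H 𝔻 Q)

/-- auxiliary: `G` normalises the centraliser of `Gam` -/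
private theorem Cent_norm : ∀ g ∈ S.G, ∀ z : H, (∀ x ∈ S.Gam, Commute z x) →
    ∀ x ∈ S.Gam, Commute (g * z * g⁻¹) x := by
  intro g hg z hz x hx
  have h1 : g⁻¹ * x * g⁻¹⁻¹ ∈ S.Gam := G_norm_Gam S g⁻¹ (inv_mem hg) x hx
  have h2 := (hz _ h1).eq
  show g * z * g⁻¹ * x = x * (g * z * g⁻¹)
  calc g * z * g⁻¹ * x = g * (z * (g⁻¹ * x * g⁻¹⁻¹)) * g⁻¹ := by group
    _ = g * ((g⁻¹ * x * g⁻¹⁻¹) * z) * g⁻¹ := by rw [h2]
    _ = x * (g * z * g⁻¹) := by group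

/-- The centraliser of `Gam` is finite.
PROOF. Let `Z` be the centraliser of `Gam`. Choose `d ≠ 1` (`nt`); `j d ∈ C`, `j d ≠ 1` by `jinj`,
and `t q d (t q)⁻¹ ∈ j(𝔻) ⊆ Gam` (`jB`, `j_mem_Gam`), so `Z ≤ CB (j d)`. So with the map `φ` of
`exists_sep` (`X = CB (j d)`), `φ z = φ z'` implies `z⁻¹ z' ∈ Z ∩ C` for `z, z' ∈ Z`;
so it is enough to prove that `Z ∩ C` is finite. `G` normalises `Z` since `G` normalises `Gam`
(`G_norm_Gam`, also for the inverse). Choose `a ∈ A ∩ G`, `a ≠ 1` (`infA`). Map `z ∈ Z ∩ C` to the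
function `q ↦ φ ((a t_q) z (a t_q)⁻¹) ∈ Q` (`t_q ∈ G` by `tG`). If `z, z'` have the same image then
`y = z⁻¹ z' ∈ Z ∩ C` satisfies `(a t_q) y (a t_q)⁻¹ ∈ C` for all `q`, i.e.
`a (t_q y t_q⁻¹) a⁻¹ ∈ C`, so `y = 1` by `h3` (`a ≠ 1`). So `Z ∩ C` embeds into the finite set
`Q → Q`. -/
theorem cent_finite : {z : H | ∀ x ∈ S.Gam, Commute z x}.Finite := by
  obtain ⟨φ, hφ⟩ := S.exists_sep
  obtain ⟨d, hd⟩ := S.nt
  have hjd : S.j d ≠ 1 := by
    intro h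
    exact hd (S.jinj (by rw [h, map_one]))
  have hle : ∀ z : H, (∀ x ∈ S.Gam, Commute z x) → z ∈ S.CB (S.j d) := by
    intro z hz
    unfold Pre.CB
    rw [Subgroup.mem_centralizer_iff]
    rintro y ⟨q, rfl⟩
    obtain ⟨d', hd'⟩ := S.jB (S.t q) (S.tB q) d
    rw [hd']
    exact (hz _ (j_mem_Gam S d')).symm.eq
  have hsep : ∀ z : H, (∀ x ∈ S.Gam, Commute z x) → ∀ z' : H, (∀ x ∈ S.Gam, Commute z' x) →
      φ z = φ z' → z⁻¹ * z' ∈ S.C := fun z hz z' hz' h =>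
    hφ (S.CB (S.j d)) (S.C_le_CB (S.jC d)) (S.CB_inf_A (S.jC d) hjd) z (hle z hz) z' (hle z' hz') h
  have hmul : ∀ z : H, (∀ x ∈ S.Gam, Commute z x) → ∀ z' : H, (∀ x ∈ S.Gam, Commute z' x) →
      ∀ x ∈ S.Gam, Commute (z⁻¹ * z') x := fun z hz z' hz' x hx =>
    ((hz x hx).inv_left).mul_left (hz' x hx)
  have hnorm := Cent_norm S
  -- `Z ∩ C` is finite
  have hZC : {z : H | (∀ x ∈ S.Gam, Commute z x) ∧ z ∈ S.C}.Finite := by
    obtain ⟨a, ha, ha1⟩ := S.infA.nontrivial.exists_ne 1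
    have haA : a ∈ S.A := (Subgroup.mem_inf.1 ha).1
    have haG : a ∈ S.G := (Subgroup.mem_inf.1 ha).2
    have hinj : Set.InjOn (fun (z : H) (q : Q) => φ ((a * S.t q) * z * (a * S.t q)⁻¹))
        {z : H | (∀ x ∈ S.Gam, Commute z x) ∧ z ∈ S.C} := by
      intro z hz z' hz' h
      by_contra hne
      have hy1 : z⁻¹ * z' ≠ 1 := fun h1 => hne (inv_mul_eq_one.1 h1)
      have hyC : z⁻¹ * z' ∈ S.C := mul_mem (inv_mem hz.2) hz'.2
      refine ha1 (S.h3 _ hyC hy1 a haA fun q => ?_)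
      have hg : a * S.t q ∈ S.G := mul_mem haG (S.tG q)
      have h2 := hsep _ (hnorm _ hg z hz.1) _ (hnorm _ hg z' hz'.1) (congrFun h q)
      have h3 : a * (S.t q * (z⁻¹ * z') * (S.t q)⁻¹) * a⁻¹ =
          (a * S.t q * z * (a * S.t q)⁻¹)⁻¹ * (a * S.t q * z' * (a * S.t q)⁻¹) := by group
      rw [h3]
      exact h2
    exact Set.Finite.of_finite_image (Set.toFinite _) hinj
  have hsub : {z : H | ∀ x ∈ S.Gam, Commute z x} ⊆
      ⋃ q : Q, {z : H | (∀ x ∈ S.Gam, Commute z x) ∧ φ z = q} := by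
    intro z hz
    exact Set.mem_iUnion.2 ⟨φ z, hz, rfl⟩
  refine (Set.finite_iUnion fun q => ?_).subset hsub
  rcases Set.eq_empty_or_nonempty {z : H | (∀ x ∈ S.Gam, Commute z x) ∧ φ z = q} with he | ⟨z₀, hz₀⟩
  · rw [he]; exact Set.finite_empty
  · refine (hZC.image fun w => z₀ * w).subset ?_
    intro z hz
    refine ⟨z₀⁻¹ * z, ⟨hmul _ hz₀.1 _ hz.1, hsep _ hz₀.1 _ hz.1 (by rw [hz₀.2, hz.2])⟩, ?_⟩
    show z₀ * (z₀⁻¹ * z) = z
    group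

/-- PROOF. Let `Z` be the centraliser of `Gam`; it is finite (`cent_finite`) and normalised by `G`.
The group `A ∩ G` is infinite and acts on the finite set `Z` by conjugation, so there are
`a₁ ≠ a₂` in `A ∩ G` acting in the same way (pigeonhole, finitely many functions `Z → Z`), and
`a' = a₂⁻¹ a₁ ≠ 1`, `a' ∈ A`, commutes with all elements of `Z`. Let `z ∈ Z ∩ C`. All
`t q z (t q)⁻¹` are in `Z` (`tG`), so `a'` commutes with them, and `z ≠ 1` would give `a' = 1`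
by `one_of_comm`. -/
theorem cent_inf_C {z : H} (hz : z ∈ S.C) (h : ∀ x ∈ S.Gam, Commute z x) : z = 1 := by
  by_contra hz1
  have hfin := cent_finite S
  have hnorm := Cent_norm S
  haveI : Finite ↥{z : H | ∀ x ∈ S.Gam, Commute z x} := hfin
  haveI : Infinite ↥((S.A ⊓ S.G : Subgroup H) : Set H) := S.infA.to_subtype
  obtain ⟨a₁, a₂, hne, heq⟩ := Finite.exists_ne_map_eq_of_infinite
    (fun (a : ↥((S.A ⊓ S.G : Subgroup H) : Set H)) (z : ↥{z : H | ∀ x ∈ S.Gam, Commute z x}) =>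
      (⟨(a : H) * z * (a : H)⁻¹, hnorm _ (Subgroup.mem_inf.1 a.2).2 _ z.2⟩ :
        ↥{z : H | ∀ x ∈ S.Gam, Commute z x}))
  have h1A : (a₁ : H) ∈ S.A := (Subgroup.mem_inf.1 a₁.2).1
  have h2A : (a₂ : H) ∈ S.A := (Subgroup.mem_inf.1 a₂.2).1
  have hcomm : ∀ y : H, (∀ x ∈ S.Gam, Commute y x) → Commute ((a₂ : H)⁻¹ * a₁) y := by
    intro y hy
    have h3 := congrArg Subtype.val (congrFun heq ⟨y, hy⟩)
    have h4 : (a₁ : H) * y * (a₁ : H)⁻¹ = (a₂ : H) * y * (a₂ : H)⁻¹ := h3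
    show (a₂ : H)⁻¹ * a₁ * y = y * ((a₂ : H)⁻¹ * a₁)
    calc (a₂ : H)⁻¹ * a₁ * y = (a₂ : H)⁻¹ * ((a₁ : H) * y * (a₁ : H)⁻¹) * a₁ := by group
      _ = (a₂ : H)⁻¹ * ((a₂ : H) * y * (a₂ : H)⁻¹) * a₁ := by rw [h4]
      _ = y * ((a₂ : H)⁻¹ * a₁) := by group
  have h5 : (a₂ : H)⁻¹ * a₁ = 1 := by
    refine S.one_of_comm hz hz1 (mul_mem (inv_mem h2A) h1A) fun q => ?_
    exact hcomm _ (hnorm _ (S.tG q) z h)
  exact hne (Subtype.ext (inv_mul_eq_one.1 h5).symm)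

/-- PROOF. `v ∈ V ∩ C` commutes with `V` (`V_comm`) and with all `j d` (`cC`, `jC`), so with `Gam`
(`mem_Gam`); use `cent_inf_C`. -/
theorem V_inf_C {v : H} (hv : v ∈ S.V) (hc : v ∈ S.C) : v = 1 := by
  refine cent_inf_C S hc fun x hx => ?_
  obtain ⟨w, hw, d, rfl⟩ := (mem_Gam S x).1 hx
  have h1 : Commute v w := V_comm S v hv w hw
  have h2 : Commute v (S.j d) := S.cC v hc _ (S.jC d)
  exact h1.mul_right h2

/-- For `d ≠ 1` there are at most `|Q|` elements `v ∈ V` commuting with all `t q d (t q)⁻¹`.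
PROOF. These elements form a subgroup `Y = V ⊓ CB (j d)`, and `Y ∩ C = 1` by `V_inf_C`;
`Pre.small_of_CB` (with `j d ≠ 1` by `jinj`). -/
theorem fix_small {d : 𝔻} (hd : d ≠ 1) :
    {v : H | v ∈ S.V ∧ ∀ q, Commute v (S.t q * S.j d * (S.t q)⁻¹)}.Finite ∧
    {v : H | v ∈ S.V ∧ ∀ q, Commute v (S.t q * S.j d * (S.t q)⁻¹)}.ncard ≤ Fintype.card Q := by
  have hjd : S.j d ≠ 1 := by
    intro h
    exact hd (S.jinj (by rw [h, map_one]))
  have hset : {v : H | v ∈ S.V ∧ ∀ q, Commute v (S.t q * S.j d * (S.t q)⁻¹)} =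
      ((S.V ⊓ S.CB (S.j d) : Subgroup H) : Set H) := by
    ext v
    simp only [Set.mem_setOf_eq, SetLike.mem_coe, Subgroup.mem_inf]
    refine and_congr_right fun _ => ?_
    unfold Pre.CB
    rw [Subgroup.mem_centralizer_iff]
    constructor
    · rintro h y ⟨q, rfl⟩
      exact (h q).symm.eq
    · intro h q
      exact (h _ ⟨q, rfl⟩).symm
  rw [hset]
  refine S.small_of_CB (S.jC d) hjd _ inf_le_right fun y hy hyC => ?_
  exact V_inf_C S (Subgroup.mem_inf.1 hy).1 hyC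

end Core

end Pool.Agent.AO
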