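import Mathlib

/-!
# Products `∏ (1 - χ_q)` of characters with finitely many values (module AO-Char)
-/

set_option autoImplicit false

namespace Pool.Agent.AO

/-- A finite-dimensional space of functions is separated by finitely many points.
PROOF. For a finite set `X` of points let `W_X = {w ∈ W | ∀ x ∈ X, w x = 0}`. Choose `X` with
`finrank W_X` minimal. If `w ∈ W_X`, `w ≠ 0`, then `w x ≠ 0` for some `x`, and
`W_{X ∪ {x}} < W_X` has smaller dimension: contradiction. -/
theorem exists_sep_points {K D : Type*} [Field K] (W : Submodule K (D → K))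
    [FiniteDimensional K W] : ∃ X : Finset D, ∀ w ∈ W, (∀ x ∈ X, w x = 0) → w = 0 := by
  classical
  let N : Finset D → Submodule K W := fun X =>
    { carrier := {w | ∀ x ∈ X, w.1 x = 0}
      add_mem' := by
        intro u v hu hv x hx
        have h1 := hu x hx
        have h2 := hv x hx
        change u.1 x + v.1 x = 0
        rw [h1, h2, add_zero]
      zero_mem' := by
        intro x _
        rfl
      smul_mem' := by
        intro c u hu x hx
        change c • u.1 x = 0
        rw [hu x hx, smul_zero] }
  obtain ⟨M, ⟨X, hX⟩, hmin⟩ := IsArtinian.set_has_minimal (Set.range N) ⟨N ∅, ⟨∅, rfl⟩⟩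
  refine ⟨X, ?_⟩
  intro w hw hwX
  by_contra hne
  obtain ⟨x, hx⟩ : ∃ x, w x ≠ 0 := by
    by_contra h
    push Not at h
    exact hne (funext h)
  refine hmin (N (insert x X)) ⟨insert x X, rfl⟩ ?_
  rw [← hX]
  refine lt_of_le_of_ne ?_ ?_
  · intro u hu y hy
    exact hu y (Finset.mem_insert_of_mem hy)
  · intro heq
    have h1 : (⟨w, hw⟩ : W) ∈ N X := hwX
    rw [← heq] at h1
    exact hx (h1 x (Finset.mem_insert_self x X))

/-- A function in a finite-dimensional translation-invariant space with finitely many values has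
only finitely many translates, so it is invariant under a subgroup of finite index.
PROOF. Let `X` be as in `exists_sep_points`. For `d : D` the translate `f_d = (x ↦ f (x d)) ∈ W` is
determined by its values on `X` (the difference of two translates lies in `W`), which lie in the
finite set `range f`; so there are finitely many translates. `E = {d | f_d = f}` is a subgroup (`D`
commutative) and `f_d = f_{d'}` implies `d⁻¹ d' ∈ E` (`f (x d⁻¹ d') = f ((x d⁻¹) d') =
f ((x d⁻¹) d) = f x`), so `E` has finite index. -/
theorem exists_invariant {K D : Type*} [Field K] [CommGroup D] (W : Submodule K (D → K))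
    [FiniteDimensional K W] (f : D → K) (hf : ∀ d : D, (fun x => f (x * d)) ∈ W)
    (hfin : (Set.range f).Finite) :
    ∃ E : Subgroup D, E.FiniteIndex ∧ ∀ d ∈ E, ∀ x, f (x * d) = f x := by
  classical
  let E : Subgroup D :=
    { carrier := {d | ∀ x, f (x * d) = f x}
      mul_mem' := by
        intro c d hc hd x
        rw [← mul_assoc, hd, hc]
      one_mem' := by
        intro x
        rw [mul_one]
      inv_mem' := by
        intro d hd x
        have h := hd (x * d⁻¹)
        rw [inv_mul_cancel_right] at h
        exact h.symm }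
  have hE : ∀ d, d ∈ E ↔ ∀ x, f (x * d) = f x := fun d => Iff.rfl
  refine ⟨E, ?_, fun d hd => (hE d).mp hd⟩
  obtain ⟨X, hX⟩ := exists_sep_points W
  haveI : Finite (Set.range f) := hfin
  let φ : D → (X → Set.range f) := fun d x => ⟨f (x.1 * d), ⟨_, rfl⟩⟩
  have hφ : ∀ d d', φ d = φ d' → d⁻¹ * d' ∈ E := by
    intro d d' h
    have h1 : (fun x => f (x * d)) - (fun x => f (x * d')) = 0 := by
      apply hX _ (Submodule.sub_mem _ (hf d) (hf d'))
      intro x hx
      have h2 := congrArg Subtype.val (congrFun h ⟨x, hx⟩)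
      change f (x * d) = f (x * d') at h2
      change f (x * d) - f (x * d') = 0
      rw [h2, sub_self]
    rw [hE]
    intro x
    have h3 := congrFun h1 (x * d⁻¹)
    change f (x * d⁻¹ * d) - f (x * d⁻¹ * d') = 0 at h3
    rw [inv_mul_cancel_right, sub_eq_zero] at h3
    rw [← mul_assoc]
    exact h3.symm
  haveI : Finite (D ⧸ E) := by
    apply Finite.of_injective (fun c : D ⧸ E => φ c.out)
    intro c c' h
    have h1 := hφ _ _ h
    rw [← QuotientGroup.eq] at h1
    rwa [QuotientGroup.out_eq', QuotientGroup.out_eq'] at h1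
  exact Subgroup.finiteIndex_of_finite_quotient

/-- PROOF. Let `f d = ∏_q (1 - l_q(d))`. Expanding (`Finset.prod_one_sub...`,
`Finset.prod_sub` or `Finset.prod_add`), `f = ∑_{s ⊆ Q} (-1)^{|s|} χ_s` with `χ_s = ∏_{q ∈ s} l_q`
(a homomorphism `D →* K`), and `f (x d) = ∑_s (-1)^{|s|} χ_s(d) χ_s(x)`. So with
`W = span {χ_s | s : Finset Q}` (finite-dimensional) `exists_invariant` gives a subgroup `E` of
finite index with `f d = f (1 * d) = f 1 = 0` for `d ∈ E` (`Q` is nonempty and `l_q 1 = 1`).
So every `d ∈ E` lies in some `ker l_q` (`K` is a field), and `D`, a finite union of cosets of `E`, is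
a finite union of cosets of the subgroups `ker l_q`; by B.H. Neumann's lemma
(`Subgroup.exists_finiteIndex_of_leftCoset_cover`) one of them has finite index. -/
theorem exists_ker_finiteIndex {K D Q : Type*} [Field K] [CommGroup D] [Fintype Q] [Nonempty Q]
    (l : Q → D →* K) (hfin : (Set.range fun d : D => ∏ q, (1 - l q d)).Finite) :
    ∃ q, (l q).ker.FiniteIndex := by
  classical
  let χ : Finset Q → (D → K) := fun t x => ∏ q ∈ t, l q x
  let W : Submodule K (D → K) := Submodule.span K (Set.range χ)
  haveI : FiniteDimensional K W := FiniteDimensional.span_of_finite K (Set.finite_range χ)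
  have hexp : ∀ d : D, (fun x : D => ∏ q, (1 - l q (x * d))) ∈ W := by
    intro d
    have h1 : (fun x : D => ∏ q, (1 - l q (x * d))) =
        ∑ t ∈ (Finset.univ : Finset Q).powerset, (∏ q ∈ t, (-(l q d))) • χ t := by
      funext x
      rw [Finset.sum_apply]
      have h2 : ∀ q : Q, 1 - l q (x * d) = 1 + (-(l q d)) * l q x := by
        intro q
        rw [map_mul]
        ring
      rw [Finset.prod_congr rfl (fun q _ => h2 q), Finset.prod_one_add]
      apply Finset.sum_congr rfl
      intro t _
      rw [Finset.prod_mul_distrib]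
      rfl
    rw [h1]
    apply Submodule.sum_mem
    intro t _
    exact Submodule.smul_mem _ _ (Submodule.subset_span ⟨t, rfl⟩)
  obtain ⟨E, hEfin, hE⟩ := exists_invariant W (fun d : D => ∏ q, (1 - l q d)) hexp hfin
  have hker : ∀ d ∈ E, ∃ q, d ∈ (l q).ker := by
    intro d hd
    have h1 := hE d hd 1
    have h2 : ∏ q, (1 - l q (1 * d)) = ∏ q : Q, (1 - l q 1) := h1
    have h3 : ∏ q : Q, (1 - l q 1) = (0 : K) := by
      obtain ⟨q0⟩ := ‹Nonempty Q›
      apply Finset.prod_eq_zero (Finset.mem_univ q0)
      rw [map_one, sub_self]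
    rw [h3, Finset.prod_eq_zero_iff] at h2
    obtain ⟨q, _, hq⟩ := h2
    refine ⟨q, ?_⟩
    rw [MonoidHom.mem_ker]
    rw [one_mul, sub_eq_zero] at hq
    exact hq.symm
  haveI : Finite (D ⧸ E) := Subgroup.finite_quotient_of_finiteIndex
  haveI : Fintype (D ⧸ E) := Fintype.ofFinite _
  obtain ⟨k, _, hk⟩ := Subgroup.exists_finiteIndex_of_leftCoset_cover
    (H := fun i : (D ⧸ E) × Q => (l i.2).ker) (g := fun i : (D ⧸ E) × Q => i.1.out)
    (s := Finset.univ) (by
      rw [Set.eq_univ_iff_forall]
      intro d
      have h1 : ((QuotientGroup.mk d : D ⧸ E).out)⁻¹ * d ∈ E := by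
        rw [← QuotientGroup.eq, QuotientGroup.out_eq']
      obtain ⟨q, hq⟩ := hker _ h1
      rw [Set.mem_iUnion₂]
      refine ⟨(QuotientGroup.mk d, q), Finset.mem_univ _, ?_⟩
      rw [Set.mem_smul_set_iff_inv_smul_mem]
      exact hq)
  exact ⟨k.2, hk⟩

end Pool.Agent.AO
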