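import Pool.Agent.AO.Defs

/-!
# Infinite abelian groups of bounded exponent; equivariant homomorphisms (module AO-CorePOne)
-/

set_option autoImplicit false

universe u

namespace Pool.Agent.AO

open Filter

/-- An infinite abelian group of exponent `n` has infinitely many elements of order
dividing `p` for some prime `p`.
PROOF. `n > 0`. Strong induction on `n` (with `C` = a subgroup of `H`, commutative): if `n = 1`, `C` is
trivial. Let `p` be a prime divisor of `n`. If `{c ∈ C | c^p = 1}` is finite then the homomorphism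
`c ↦ c^p` has finite kernel, so its image is infinite, of exponent `n / p`; by induction the image
`C' ≤ C` has infinitely many elements with `c^q = 1`. -/
theorem exists_prime_infinite {H : Type*} [Group H] (C : Subgroup H)
    (hC : ∀ x ∈ C, ∀ y ∈ C, x * y = y * x) (hinf : (C : Set H).Infinite) {n : ℕ} (hn : 0 < n)
    (hexp : ∀ c ∈ C, c ^ n = 1) :
    ∃ p : ℕ, p.Prime ∧ {c | c ∈ C ∧ c ^ p = 1}.Infinite := by
  classical
  induction n using Nat.strong_induction_on generalizing C with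
  | _ n ih =>
  rcases Nat.lt_or_ge 1 n with h1 | h1
  · have hp : n.minFac.Prime := Nat.minFac_prime h1.ne'
    by_cases hf : {c | c ∈ C ∧ c ^ n.minFac = 1}.Infinite
    · exact ⟨_, hp, hf⟩
    rw [Set.not_infinite] at hf
    let _ : CommGroup C :=
      { (inferInstance : Group C) with
        mul_comm := fun x y => Subtype.ext (hC x.1 x.2 y.1 y.2) }
    set C' : Subgroup H := (powMonoidHom n.minFac : C →* C).range.map C.subtype with hC'
    have hle : C' ≤ C := by
      rintro _ ⟨z, -, rfl⟩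
      exact z.2
    have hmem : ∀ c ∈ C, c ^ n.minFac ∈ C' := fun c hc => ⟨_, ⟨⟨c, hc⟩, rfl⟩, rfl⟩
    have hinf' : (C' : Set H).Infinite := by
      intro hfin
      apply hinf
      refine Set.Finite.of_finite_fibers (fun c => c ^ n.minFac)
        (hfin.subset (by rintro _ ⟨c, hc, rfl⟩; exact hmem c hc)) ?_
      rintro _ ⟨c0, hc0, rfl⟩
      refine (hf.image (fun c => c0 * c)).subset ?_
      rintro c ⟨hc, hcc⟩
      have hcc' : c ^ n.minFac = c0 ^ n.minFac := hcc
      refine ⟨c0⁻¹ * c, ⟨C.mul_mem (C.inv_mem hc0) hc, ?_⟩, by simp⟩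
      have hcomm : Commute c0⁻¹ c := hC _ (C.inv_mem hc0) _ hc
      rw [hcomm.mul_pow, hcc', ← hcc', inv_pow, hcc', inv_mul_cancel]
    have hlt : n / n.minFac < n := Nat.div_lt_self hn hp.one_lt
    have hpos : 0 < n / n.minFac := Nat.div_pos (Nat.minFac_le hn) hp.pos
    obtain ⟨q, hq, hqinf⟩ := ih _ hlt C' (fun x hx y hy => hC x (hle hx) y (hle hy)) hinf' hpos (by
      rintro _ ⟨_, ⟨⟨c, hc⟩, rfl⟩, rfl⟩
      have h2 : ((⟨c, hc⟩ : C) ^ n.minFac) ^ (n / n.minFac) = 1 := by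
        rw [← pow_mul, Nat.mul_div_cancel' (Nat.minFac_dvd n)]
        exact Subtype.ext (hexp c hc)
      exact congrArg Subtype.val h2)
    exact ⟨q, hq, hqinf.mono fun c hc => ⟨hle hc.1, hc.2⟩⟩
  · exfalso
    apply hinf
    have hn1 : n = 1 := by omega
    subst hn1
    refine (Set.finite_singleton (1 : H)).subset fun c hc => ?_
    simpa using hexp c hc

/-- The `B`-equivariant homomorphisms `φ_y : (ZMod p)^(k × Q) → C` belonging to `k`-tuples `y` of
elements of `C` with `y^p = 1`: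
`φ_y(ν) = ∏_{i < k} ∏_{r ∈ Q} ((t r) y_i (t r)⁻¹)^{ν i r}`.
PROOF. The subgroup `Cp = {c ∈ C | c^p = 1}` is commutative, normalised by `B`; regard its additive
version as a module over `ZMod p` (`AddCommGroup.zmodModule`) and define `φ_y` by the displayed formula
`ν ↦ ∑_i ∑_r ν i r • ((t r) y_i (t r)⁻¹)`. Property (1) is clear. (2): for `b ∈ B` and
`b (t r) ∈ (t (π r)) C` we have `b (t r) y_i (t r)⁻¹ b⁻¹ = (t (π r)) y_i (t (π r))⁻¹`; reindex the sum
by `π`. (3) bilinearity. (4): take `ν i r = μ i` if `r = q1`, else `0`, where `q1` is the index of `1`,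
`t q1 ∈ C`. -/
theorem exists_phi {H : Type*} [Group H] {Q : Type*} [Fintype Q] (S : Pre H Q) (p k : ℕ)
    (hp : p.Prime) :
    ∃ φ : (Fin k → H) → (Multiplicative (Fin k → Q → ZMod p) →* H),
      (∀ y, (∀ i, y i ∈ S.C ∧ y i ^ p = 1) → ∀ ν, φ y ν ∈ S.C) ∧
      (∀ y, (∀ i, y i ∈ S.C ∧ y i ^ p = 1) → ∀ b ∈ S.B, ∀ π : Q ≃ Q,
        (∀ r, (S.t (π r))⁻¹ * (b * S.t r) ∈ S.C) → ∀ ν : Fin k → Q → ZMod p,
        b * φ y (Multiplicative.ofAdd ν) * b⁻¹
          = φ y (Multiplicative.ofAdd fun i r => ν i (π.symm r))) ∧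
      (∀ y y', (∀ i, y i ∈ S.C ∧ y i ^ p = 1) → (∀ i, y' i ∈ S.C ∧ y' i ^ p = 1) → ∀ ν,
        φ (fun i => y i * y' i) ν = φ y ν * φ y' ν) ∧
      (∀ y, (∀ i, y i ∈ S.C ∧ y i ^ p = 1) → ∀ i : Fin k, ∃ ν, φ y ν = y i) := by
  classical
  have hconj : ∀ b ∈ S.B, ∀ c, c ∈ S.C ∧ c ^ p = 1 → b * c * b⁻¹ ∈ S.C ∧ (b * c * b⁻¹) ^ p = 1 := by
    rintro b hb c ⟨hc, hcp⟩
    refine ⟨S.nC b hb c hc, ?_⟩
    rw [conj_pow, hcp, mul_one, mul_inv_cancel]
  let Cp : Subgroup H :=
    { carrier := {c | c ∈ S.C ∧ c ^ p = 1}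
      one_mem' := ⟨S.C.one_mem, one_pow p⟩
      mul_mem' := by
        rintro x y ⟨hx, hxp⟩ ⟨hy, hyp⟩
        have hxy : Commute x y := S.cC x hx y hy
        exact ⟨S.C.mul_mem hx hy, by rw [hxy.mul_pow, hxp, hyp, one_mul]⟩
      inv_mem' := by
        rintro x ⟨hx, hxp⟩
        exact ⟨S.C.inv_mem hx, by rw [inv_pow, hxp, inv_one]⟩ }
  have hCp : ∀ c, c ∈ Cp ↔ c ∈ S.C ∧ c ^ p = 1 := fun c => Iff.rfl
  let _ : CommGroup Cp :=
    { (inferInstance : Group Cp) with
      mul_comm := fun x y => Subtype.ext (S.cC x.1 x.2.1 y.1 y.2.1) }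
  let _ : Module (ZMod p) (Additive Cp) := AddCommGroup.zmodModule (n := p) (by
    intro x
    have h1 : (Additive.toMul x : Cp) ^ p = 1 := Subtype.ext (Additive.toMul x : Cp).2.2
    exact h1)
  -- conjugation by `b`
  let cj : ∀ b : S.B, Additive Cp →+ Additive Cp := fun b =>
    MonoidHom.toAdditive
      { toFun := fun c => ⟨b * c * (b : H)⁻¹, hconj b b.2 c c.2⟩
        map_one' := Subtype.ext (by simp)
        map_mul' := fun x y => Subtype.ext (by simp) }
  have hcj : ∀ (b : S.B) (x : Additive Cp),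
      ((Additive.toMul (cj b x) : Cp) : H) = b * (Additive.toMul x : Cp) * (b : H)⁻¹ :=
    fun b x => rfl
  let w : ∀ y : Fin k → H, (∀ i, y i ∈ S.C ∧ y i ^ p = 1) → Fin k → Q → Additive Cp :=
    fun y hy i r => Additive.ofMul ⟨S.t r * y i * (S.t r)⁻¹, hconj _ (S.tB r) _ (hy i)⟩
  let L : (Fin k → Q → Additive Cp) → ((Fin k → Q → ZMod p) →+ Additive Cp) := fun w =>
    { toFun := fun ν => ∑ i, ∑ r, ν i r • w i r
      map_zero' := by simp
      map_add' := fun ν μ => by simp [add_smul, Finset.sum_add_distrib] }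
  have hL : ∀ w ν, L w ν = ∑ i, ∑ r, ν i r • w i r := fun w ν => rfl
  let φ : (Fin k → H) → (Multiplicative (Fin k → Q → ZMod p) →* H) := fun y =>
    if hy : ∀ i, y i ∈ S.C ∧ y i ^ p = 1 then
      Cp.subtype.comp (AddMonoidHom.toMultiplicativeLeft (L (w y hy)))
    else 1
  have hφ : ∀ y (hy : ∀ i, y i ∈ S.C ∧ y i ^ p = 1) (ν : Fin k → Q → ZMod p),
      φ y (Multiplicative.ofAdd ν) = ((Additive.toMul (L (w y hy) ν) : Cp) : H) := by
    intro y hy ν
    simp only [φ, dif_pos hy]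
    rfl
  refine ⟨φ, ?_, ?_, ?_, ?_⟩
  · intro y hy ν
    rw [← ofAdd_toAdd ν, hφ y hy]
    exact (Additive.toMul (L (w y hy) (Multiplicative.toAdd ν)) : Cp).2.1
  · intro y hy b hb π hπ ν
    rw [hφ y hy, hφ y hy, ← hcj ⟨b, hb⟩]
    congr 2
    rw [hL, hL, map_sum]
    refine Finset.sum_congr rfl fun i _ => ?_
    rw [map_sum, ← Equiv.sum_comp π (fun r => ν i (π.symm r) • w y hy i r)]
    refine Finset.sum_congr rfl fun r _ => ?_
    rw [ZMod.map_smul, Equiv.symm_apply_apply]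
    congr 1
    have h1 : b * (S.t r * y i * (S.t r)⁻¹) * b⁻¹ = S.t (π r) * y i * (S.t (π r))⁻¹ := by
      have h3 := S.cC _ (hπ r) _ (hy i).1
      calc b * (S.t r * y i * (S.t r)⁻¹) * b⁻¹ = (b * S.t r) * y i * (b * S.t r)⁻¹ := by group
        _ = S.t (π r) * (((S.t (π r))⁻¹ * (b * S.t r)) * y i) * ((S.t (π r))⁻¹ * (b * S.t r))⁻¹
            * (S.t (π r))⁻¹ := by group
        _ = S.t (π r) * y i * (S.t (π r))⁻¹ := by rw [h3]; group
    exact congrArg Additive.ofMul (Subtype.ext h1)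
  · intro y y' hy hy' ν
    have hyy : ∀ i, y i * y' i ∈ S.C ∧ (y i * y' i) ^ p = 1 := by
      intro i
      have hxy : Commute (y i) (y' i) := S.cC _ (hy i).1 _ (hy' i).1
      exact ⟨S.C.mul_mem (hy i).1 (hy' i).1, by rw [hxy.mul_pow, (hy i).2, (hy' i).2, one_mul]⟩
    rw [← ofAdd_toAdd ν, hφ _ hyy, hφ y hy, hφ y' hy']
    have h1 : w _ hyy = w y hy + w y' hy' := by
      funext i r
      refine congrArg Additive.ofMul (Subtype.ext ?_)
      change S.t r * (y i * y' i) * (S.t r)⁻¹ = (S.t r * y i * (S.t r)⁻¹) * (S.t r * y' i * (S.t r)⁻¹)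
      group
    have h2 : L (w _ hyy) (Multiplicative.toAdd ν) =
        L (w y hy) (Multiplicative.toAdd ν) + L (w y' hy') (Multiplicative.toAdd ν) := by
      rw [h1]
      simp only [hL, Pi.add_apply, smul_add, Finset.sum_add_distrib]
    rw [h2]
    rfl
  · intro y hy i
    obtain ⟨q1, hq1, -⟩ := S.hT 1 S.B.one_mem
    have hc : S.t q1 ∈ S.C := by
      have := S.C.inv_mem hq1
      simpa using this
    refine ⟨Multiplicative.ofAdd (Pi.single i (Pi.single q1 1)), ?_⟩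
    rw [hφ y hy, hL]
    have h1 : ∑ i', ∑ r, (Pi.single i (Pi.single q1 (1 : ZMod p)) : Fin k → Q → ZMod p) i' r • w y hy i' r
        = w y hy i q1 := by
      rw [Finset.sum_eq_single i, Finset.sum_eq_single q1]
      · simp
      · intro r _ hr
        simp [Pi.single_eq_of_ne hr]
      · simp
      · intro i' _ hi'
        simp [Pi.single_eq_of_ne hi']
      · simp
    rw [h1]
    change S.t q1 * y i * (S.t q1)⁻¹ = y i
    rw [S.cC _ hc _ (hy i).1]
    group

end Pool.Agent.AO
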