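import Pool.Agent.AO.UltraTwo
import Pool.Agent.AO.CorePOne
import Pool.Agent.AO.CorePTwo
import Pool.Agent.AO.CaseP

/-!
# The case of bounded exponent (module AO-CoreP)
-/

set_option autoImplicit false

universe u

namespace Pool.Agent.AO

open Filter

/-- conjugation (left multiplication) by `b ∈ B` permutes the cosets `(t q) C` -/
theorem coreP_perm {H : Type*} [Group H] {Q : Type*} [Fintype Q] (S : Pre H Q) {b : H}
    (hb : b ∈ S.B) : ∃ π : Q ≃ Q, ∀ r, (S.t (π r))⁻¹ * (b * S.t r) ∈ S.C := by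
  have h : ∀ r, ∃ q, (S.t q)⁻¹ * (b * S.t r) ∈ S.C := fun r =>
    (S.hT (b * S.t r) (mul_mem hb (S.tB r))).exists
  choose f hf using h
  have hinj : Function.Injective f := by
    intro r r' hrr
    have h1 := hf r
    have h2 := hf r'
    rw [← hrr] at h2
    have h3 : (S.t r')⁻¹ * S.t r ∈ S.C := by
      have h4 := mul_mem (inv_mem h2) h1
      have h5 : ((S.t (f r))⁻¹ * (b * S.t r'))⁻¹ * ((S.t (f r))⁻¹ * (b * S.t r))
          = (S.t r')⁻¹ * S.t r := by group
      rwa [h5] at h4
    have h4 : (S.t r)⁻¹ * S.t r ∈ S.C := by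
      rw [inv_mul_cancel]; exact one_mem _
    exact (S.hT (S.t r) (S.tB r)).unique h4 h3
  exact ⟨Equiv.ofBijective f (Finite.injective_iff_bijective.1 hinj), hf⟩

/-- the homomorphism `ψ` of the proof: the germ of `F ↦ f F ν` -/
def corePHom {I : Type*} (𝒰 : Ultrafilter I) {H α : Type*} [Group H] [Group α]
    (f : I → (α →* H)) : α →* UP 𝒰 H where
  toFun ν := ((fun i => f i ν : I → H) : (𝒰 : Filter I).Germ H)
  map_one' := by
    have h : (fun i => f i 1 : I → H) = fun _ => 1 := funext fun i => map_one (f i)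
    rw [h]; rfl
  map_mul' ν μ := by
    have h : (fun i => f i (ν * μ) : I → H) = (fun i => f i ν) * (fun i => f i μ) :=
      funext fun i => map_mul (f i) ν μ
    rw [h]; rfl

/-- PROOF. `C` is infinite by hypothesis. Let `p` be as in `exists_prime_infinite`, `k = |Q| + 1`,
`φ` as in `exists_phi`. Let `I = Finset H`, `𝒰 = Ultrafilter.of atTop`. For `F ∈ I` let `d F`, `c0 F` be as in
`hjP`. Let `S' = S.ultra 𝒰`, `c0` = the germ of `c0 F`, and
`ψ : Multiplicative (Fin k → Q → ZMod p) →* UP 𝒰 H`, `ψ ν` = the germ of `F ↦ φ (d F) ν`.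
Let `𝔻 = Multiplicative (Fin k → Q → ZMod p) ⧸ ψ.ker`, a finite commutative group of exponent `p`,
`j = QuotientGroup.kerLift ψ` (injective). `𝔻` has at least `p^k > p^|Q|` elements: for
`μ : Fin k → Fin p` the germ of `F ↦ ∏ (d F i)^{μ i}` is in the range of `ψ` (for each `i` the germ of
`d F i` is in the range of `ψ`: by (4) of `exists_phi` for each `F` there is `ν`, finitely many
possible `ν`, so `ν` is constant for almost all `F` by `exists_of_eventually_exists`), and these germs are
pairwise different. For `b ∈ S'.B`: almost all `b F` are in the same coset `(t q) C`; conjugation by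
`b F` on `C` is conjugation by `t q`; `exists_phi` (2) for `b = t q` and the
permutation `π` with `(t (π r))⁻¹ (t q) (t r) ∈ C` shows that the range of `ψ` is normalised by `b`.
`hK` of `exists_core`: for `g ∈ S.G` the index `q` of `hjP` is constant for almost all `F ∋ g`.
So `exists_core` gives `Core (UP 𝒰 H) 𝔻 Q`, contradiction by `caseP`. -/
theorem no_bounded_exponent {H : Type u} [Group H] {Q : Type*} [Fintype Q] (S : Pre H Q)
    (hinf : (S.C : Set H).Infinite) {n : ℕ} (hn : 0 < n) (hexp : ∀ c ∈ S.C, c ^ n = 1) :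
    False := by
  classical
  obtain ⟨p, hp, hpinf⟩ := exists_prime_infinite S.C S.cC hinf hn hexp
  have : Fact p.Prime := ⟨hp⟩
  obtain ⟨φ, h1, h2, h3, h4⟩ := exists_phi S p (Fintype.card Q + 1) hp
  have hj := hjP S (Fintype.card Q + 1) hp hpinf φ h1 h3
  choose d hd hind c0 hc0 hcol using hj
  let 𝒰 : Ultrafilter (Finset H) := Ultrafilter.of Filter.atTop
  have hU : (𝒰 : Filter (Finset H)) ≤ Filter.atTop := Ultrafilter.of_le _
  let ψ : Multiplicative (Fin (Fintype.card Q + 1) → Q → ZMod p) →* UP 𝒰 H :=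
    corePHom 𝒰 fun F => φ (d F)
  have hψ : ∀ ν, ψ ν = ((fun F => φ (d F) ν : Finset H → H) : (𝒰 : Filter (Finset H)).Germ H) :=
    fun ν => rfl
  have hfin : Finite (Multiplicative (Fin (Fintype.card Q + 1) → Q → ZMod p)) :=
    inferInstanceAs (Finite (Fin (Fintype.card Q + 1) → Q → ZMod p))
  have hfinD : Finite (Multiplicative (Fin (Fintype.card Q + 1) → Q → ZMod p) ⧸ ψ.ker) :=
    inferInstance
  -- the generators
  have hgen : ∀ i : Fin (Fintype.card Q + 1),
      ∃ ν, ∀ᶠ F in (𝒰 : Filter (Finset H)), φ (d F) ν = d F i := fun i =>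
    exists_of_eventually_exists 𝒰 (Eventually.of_forall fun F => h4 (d F) (hd F) i)
  choose ν hν using hgen
  have hν' : ∀ᶠ F in (𝒰 : Filter (Finset H)), ∀ i, φ (d F) (ν i) = d F i :=
    eventually_all.2 hν
  -- the elements `e μ`
  let e : (Fin (Fintype.card Q + 1) → Fin p) →
      Multiplicative (Fin (Fintype.card Q + 1) → Q → ZMod p) :=
    fun μ => (List.ofFn fun i => ν i ^ (μ i : ℕ)).prod
  have he : ∀ μ F, (∀ i, φ (d F) (ν i) = d F i) →
      φ (d F) (e μ) = (List.ofFn fun i => d F i ^ (μ i : ℕ)).prod := by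
    intro μ F hF
    change φ (d F) (List.ofFn fun i => ν i ^ (μ i : ℕ)).prod = _
    rw [map_list_prod, List.map_ofFn]
    congr 2
    funext i
    change φ (d F) (ν i ^ (μ i : ℕ)) = _
    rw [map_pow, hF i]
  have hinj : Function.Injective fun μ =>
      (QuotientGroup.mk (e μ) : Multiplicative (Fin (Fintype.card Q + 1) → Q → ZMod p) ⧸ ψ.ker) := by
    intro μ μ' hμ
    have h5 : ψ (e μ) = ψ (e μ') := by
      have := congrArg (QuotientGroup.kerLift ψ) hμ
      simpa using this
    rw [hψ, hψ] at h5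
    have h6 := Germ.coe_eq.1 h5
    obtain ⟨F, hF1, hF2⟩ := (h6.and hν').exists
    apply hind F
    rw [← he μ F hF2, ← he μ' F hF2]
    exact hF1
  have hcard : p ^ Fintype.card Q
      < Nat.card (Multiplicative (Fin (Fintype.card Q + 1) → Q → ZMod p) ⧸ ψ.ker) := by
    have h5 := Nat.card_le_card_of_injective _ hinj
    rw [Nat.card_fun, Nat.card_eq_fintype_card, Nat.card_eq_fintype_card, Fintype.card_fin,
      Fintype.card_fin] at h5
    exact lt_of_lt_of_le (Nat.pow_lt_pow_right hp.one_lt (Nat.lt_succ_self _)) h5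
  have hexpD : ∀ x : Multiplicative (Fin (Fintype.card Q + 1) → Q → ZMod p) ⧸ ψ.ker,
      x ^ p = 1 := by
    intro x
    obtain ⟨y, rfl⟩ := QuotientGroup.mk_surjective x
    have h5 : y ^ p = 1 := by
      apply Multiplicative.toAdd.injective
      rw [toAdd_pow, toAdd_one]
      funext i r
      simp
    rw [← QuotientGroup.mk_pow, h5]
    rfl
  have hnt : ∃ x : Multiplicative (Fin (Fintype.card Q + 1) → Q → ZMod p) ⧸ ψ.ker, x ≠ 1 := by
    have h5 : 1 < Nat.card (Multiplicative (Fin (Fintype.card Q + 1) → Q → ZMod p) ⧸ ψ.ker) :=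
      lt_of_le_of_lt (Nat.one_le_pow _ _ hp.pos) hcard
    have := Finite.one_lt_card_iff_nontrivial.1 h5
    exact exists_ne 1
  have hcore := exists_core (S.ultra 𝒰) (QuotientGroup.kerLift ψ)
    (QuotientGroup.kerLift_injective ψ)
    (by
      intro x
      obtain ⟨y, rfl⟩ := QuotientGroup.mk_surjective x
      rw [QuotientGroup.kerLift_mk, hψ]
      exact Eventually.of_forall fun F => h1 (d F) (hd F) y)
    (by
      intro b hb x
      obtain ⟨y, rfl⟩ := QuotientGroup.mk_surjective x
      induction b using Germ.inductionOn with | _ f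
      have hb' : ∀ᶠ F in (𝒰 : Filter (Finset H)), f F ∈ S.B := hb
      obtain ⟨π, hπ⟩ := exists_of_eventually_exists 𝒰
        (P := fun F (π : Q ≃ Q) => ∀ r, (S.t (π r))⁻¹ * (f F * S.t r) ∈ S.C)
        (hb'.mono fun F hF => coreP_perm S hF)
      refine ⟨QuotientGroup.mk (Multiplicative.ofAdd fun i r =>
        Multiplicative.toAdd y i (π.symm r)), ?_⟩
      rw [QuotientGroup.kerLift_mk, QuotientGroup.kerLift_mk, hψ, hψ]
      refine Germ.coe_eq.2 ?_
      filter_upwards [hb', hπ] with F hF1 hF2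
      exact h2 (d F) (hd F) (f F) hF1 π hF2 (Multiplicative.toAdd y))
    hnt ((c0 : Finset H → H) : (𝒰 : Filter (Finset H)).Germ H)
    (Eventually.of_forall fun F => hc0 F)
    (by
      intro g hg
      obtain ⟨g0, hg0, rfl⟩ := hg
      have h5 : ∀ᶠ F in (𝒰 : Filter (Finset H)), g0 ∈ F := by
        apply hU
        filter_upwards [Filter.eventually_ge_atTop ({g0} : Finset H)] with F hF
        exact hF (Finset.mem_singleton_self g0)
      obtain ⟨q, hq⟩ := exists_of_eventually_exists 𝒰
        (P := fun F q => ∀ ν, ∃ a ∈ S.A, ∃ c ∈ S.C, c0 F * φ (d F) ν * g0 = a * S.t q * c)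
        (h5.mono fun F hF => hcol F g0 hF)
      refine ⟨q, fun x => ?_⟩
      obtain ⟨y, rfl⟩ := QuotientGroup.mk_surjective x
      have h6 : ∀ᶠ F in (𝒰 : Filter (Finset H)), ∃ ac : H × H, ac.1 ∈ S.A ∧ ac.2 ∈ S.C ∧
          c0 F * φ (d F) y * g0 = ac.1 * S.t q * ac.2 := by
        filter_upwards [hq] with F hF
        obtain ⟨a, ha, c, hc, h7⟩ := hF y
        exact ⟨(a, c), ha, hc, h7⟩
      obtain ⟨w, hw⟩ := h6.choice
      refine ⟨((fun F => (w F).1 : Finset H → H) : (𝒰 : Filter (Finset H)).Germ H),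
        hw.mono fun F hF => hF.1,
        ((fun F => (w F).2 : Finset H → H) : (𝒰 : Filter (Finset H)).Germ H),
        hw.mono fun F hF => hF.2.1, ?_⟩
      rw [QuotientGroup.kerLift_mk, hψ]
      exact Germ.coe_eq.2 (hw.mono fun F hF => hF.2.2))
  obtain ⟨K⟩ := hcore
  exact caseP K p hp hexpD hcard

end Pool.Agent.AO
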