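import Pool.Agent.AO.Defs

/-!
# Van der Waerden step and torsion-free subgroups (module AO-CoreTOne)
-/

set_option autoImplicit false

universe u

namespace Pool.Agent.AO

open Filter

/-- PROOF. Let `M` be the additive version of the commutative group `S.C` (`CommGroup` structure from
`cC`). Colour `x ∈ S.C` by the function `F → Q`, `g ↦` a `q` with `x g ∈ A (t q) C` (write `x g = a b`
by `hAB`, `b = (t q) c` by `hT`). `Combinatorics.exists_mono_homothetic_copy` for the finite set `E` gives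
`m > 0`, `c0 ∈ C` such that the colours of `c0 s^m`, `s ∈ E`, agree. -/
theorem hjT {H : Type*} [Group H] {Q : Type*} [Fintype Q] (S : Pre H Q) (E F : Finset H)
    (hE : ∀ s ∈ E, s ∈ S.C) :
    ∃ m : ℕ, 0 < m ∧ ∃ c0 ∈ S.C, ∀ g ∈ F, ∃ q, ∀ s ∈ E, ∃ a ∈ S.A, ∃ c ∈ S.C,
      c0 * s ^ m * g = a * S.t q * c := by
  classical
  let _ : CommGroup S.C :=
    { (inferInstance : Group S.C) with
      mul_comm := fun x y => Subtype.ext (S.cC x.1 x.2 y.1 y.2) }
  have key : ∀ (x : S.C) (g : H), ∃ q, ∃ a ∈ S.A, ∃ c ∈ S.C, (x : H) * g = a * S.t q * c := by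
    intro x g
    obtain ⟨a, ha, b, hb, hab⟩ := S.hAB ((x : H) * g)
    obtain ⟨q, hq, -⟩ := S.hT b hb
    exact ⟨q, a, ha, (S.t q)⁻¹ * b, hq, by rw [hab]; group⟩
  choose col hcol using key
  obtain ⟨m, hm, c0, c, hc⟩ := Combinatorics.exists_mono_homothetic_copy
    (M := Additive S.C) (κ := F → Q)
    (E.attach.image (fun s => Additive.ofMul (⟨s.1, hE s.1 s.2⟩ : S.C)))
    (fun x g => col (Additive.toMul x) g.1)
  refine ⟨m, hm, (Additive.toMul c0 : S.C), (Additive.toMul c0 : S.C).2, fun g hg => ?_⟩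
  refine ⟨c ⟨g, hg⟩, fun s hs => ?_⟩
  have h1 := hc (Additive.ofMul (⟨s, hE s hs⟩ : S.C))
    (Finset.mem_image.2 ⟨⟨s, hs⟩, Finset.mem_attach _ _, rfl⟩)
  have h2 := congrFun h1 ⟨g, hg⟩
  obtain ⟨a, ha, c', hc', h3⟩ := hcol (Additive.toMul (m • Additive.ofMul (⟨s, hE s hs⟩ : S.C) + c0)) g
  simp only at h2
  rw [h2] at h3
  refine ⟨a, ha, c', hc', ?_⟩
  rw [← h3]
  congr 1
  have h4 : (Additive.toMul (m • Additive.ofMul (⟨s, hE s hs⟩ : S.C) + c0) : S.C)
      = (⟨s, hE s hs⟩ : S.C) ^ m * Additive.toMul c0 := rfl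
  rw [h4, mul_comm]
  rfl

/-- In a finitely generated commutative group the torsion elements have bounded exponent. -/
theorem coreTOne_torsion_bound {Y : Type*} [CommGroup Y] [Group.FG Y] :
    ∃ m : ℕ, 0 < m ∧ ∀ z : Y, ∀ n : ℕ, n ≠ 0 → z ^ n = 1 → z ^ m = 1 := by
  classical
  have hfin : Module.Finite ℤ (Additive Y) :=
    Module.Finite.iff_addGroup_fg.mpr (GroupFG.iff_add_fg.mp inferInstance)
  have hN : IsNoetherian ℤ (Additive Y) := inferInstance
  obtain ⟨s, hs⟩ := hN.noetherian (Submodule.torsion ℤ (Additive Y))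
  have h1 : ∀ x ∈ s, ∃ k : ℕ, 0 < k ∧ k • x = 0 := by
    intro x hx
    have hx' : x ∈ Submodule.torsion ℤ (Additive Y) := hs ▸ Submodule.subset_span hx
    rw [Submodule.mem_torsion_iff] at hx'
    obtain ⟨a, ha⟩ := hx'
    have ha0 : (a : ℤ) ≠ 0 := nonZeroDivisors.coe_ne_zero a
    refine ⟨(a : ℤ).natAbs, Int.natAbs_pos.2 ha0, ?_⟩
    have ha' : (a : ℤ) • x = 0 := ha
    rcases Int.natAbs_eq (a : ℤ) with h | h
    · rw [h] at ha'
      simpa using ha'
    · rw [h] at ha'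
      simpa using ha'
  choose! k hk0 hk using h1
  refine ⟨∏ x ∈ s, k x, Finset.prod_pos hk0, fun z n hn hz => ?_⟩
  have hz' : Additive.ofMul z ∈ Submodule.span ℤ (s : Set (Additive Y)) := by
    rw [hs, Submodule.mem_torsion_iff]
    refine ⟨⟨(n : ℤ), mem_nonZeroDivisors_of_ne_zero (by exact_mod_cast hn)⟩, ?_⟩
    change (n : ℤ) • Additive.ofMul z = 0
    rw [natCast_zsmul, ← ofMul_pow, hz, ofMul_one]
  have h2 : (∏ x ∈ s, k x) • Additive.ofMul z = 0 := by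
    generalize Additive.ofMul z = w at hz' ⊢
    induction hz' using Submodule.span_induction with
    | mem x hx =>
      obtain ⟨l, hl⟩ := Finset.dvd_prod_of_mem k (Finset.mem_coe.1 hx)
      rw [hl, mul_comm, mul_nsmul', hk x hx, nsmul_zero]
    | zero => simp
    | add x y _ _ hx hy => rw [nsmul_add, hx, hy, add_zero]
    | smul a x _ hx => rw [smul_comm, hx, smul_zero]
  rw [← ofMul_pow] at h2
  exact ofMul_eq_zero.1 h2

/-- PROOF. `Y0 = closure {t q y (t q)⁻¹}` is finitely generated, contained in `C` (so commutative) and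
normalised by `B` (for `b ∈ B`, `b (t q) = (t q') c`). Its torsion elements form a finitely generated
group (a subgroup of a finitely generated abelian group), so there is `m > 0` with `z ^ m = 1`
for all torsion elements `z` of `Y0`. Let `Y = {z ^ m | z ∈ Y0}` (a subgroup, the image of `Y0` under
the homomorphism `z ↦ z ^ m`; finitely generated, normalised by `B`). If `(z ^ m) ^ n = 1`, `n ≠ 0`,
then `z` is torsion so `z ^ m = 1`. `y ^ m ≠ 1` is in `Y` (`y = (t q1) y (t q1)⁻¹` for the index `q1` of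
`1`, `t q1 ∈ C`). -/
theorem exists_torsionFree {H : Type*} [Group H] {Q : Type*} [Fintype Q] (S : Pre H Q) {y : H}
    (hy : y ∈ S.C) (hy1 : ∀ m : ℕ, 0 < m → y ^ m ≠ 1) :
    ∃ Y : Subgroup H, Y ≤ S.C ∧ (∀ b ∈ S.B, ∀ z ∈ Y, b * z * b⁻¹ ∈ Y) ∧ Y.FG ∧
      (∀ z ∈ Y, ∀ n : ℕ, n ≠ 0 → z ^ n = 1 → z = 1) ∧ ∃ z ∈ Y, z ≠ 1 := by
  classical
  set Y0 : Subgroup H := Subgroup.closure (Set.range fun q => S.t q * y * (S.t q)⁻¹) with hY0
  have hY0C : Y0 ≤ S.C := by
    rw [hY0, Subgroup.closure_le]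
    rintro _ ⟨q, rfl⟩
    exact S.nC _ (S.tB q) _ hy
  let _ : CommGroup Y0 :=
    { (inferInstance : Group Y0) with
      mul_comm := fun x y => Subtype.ext (S.cC x.1 (hY0C x.2) y.1 (hY0C y.2)) }
  have hY0fg : Y0.FG := ⟨(Set.finite_range fun q => S.t q * y * (S.t q)⁻¹).toFinset, by simp [hY0]⟩
  have hfg : Group.FG Y0 := (Group.fg_iff_subgroup_fg Y0).2 hY0fg
  have hnorm : ∀ b ∈ S.B, ∀ z ∈ Y0, b * z * b⁻¹ ∈ Y0 := by
    intro b hb z hz
    rw [hY0] at hz ⊢
    induction hz using Subgroup.closure_induction with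
    | mem x hx =>
      obtain ⟨q, rfl⟩ := hx
      obtain ⟨q', hq', -⟩ := S.hT (b * S.t q) (S.B.mul_mem hb (S.tB q))
      have h1 : b * (S.t q * y * (S.t q)⁻¹) * b⁻¹ = S.t q' * y * (S.t q')⁻¹ := by
        have h2 : b * S.t q = S.t q' * ((S.t q')⁻¹ * (b * S.t q)) := by group
        have h3 := S.cC _ hq' _ hy
        calc b * (S.t q * y * (S.t q)⁻¹) * b⁻¹ = (b * S.t q) * y * (b * S.t q)⁻¹ := by group
          _ = S.t q' * (((S.t q')⁻¹ * (b * S.t q)) * y) * ((S.t q')⁻¹ * (b * S.t q))⁻¹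
              * (S.t q')⁻¹ := by group
          _ = S.t q' * y * (S.t q')⁻¹ := by rw [h3]; group
      rw [h1]
      exact Subgroup.subset_closure ⟨q', rfl⟩
    | one => simp
    | mul x y _ _ hx hy =>
      have : b * (x * y) * b⁻¹ = (b * x * b⁻¹) * (b * y * b⁻¹) := by group
      rw [this]
      exact Subgroup.mul_mem _ hx hy
    | inv x _ hx =>
      have : b * x⁻¹ * b⁻¹ = (b * x * b⁻¹)⁻¹ := by group
      rw [this]
      exact Subgroup.inv_mem _ hx
  obtain ⟨m, hm, htor⟩ := coreTOne_torsion_bound (Y := Y0)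
  refine ⟨(powMonoidHom m : Y0 →* Y0).range.map Y0.subtype, ?_, ?_, ?_, ?_, ?_⟩
  · rintro _ ⟨z, -, rfl⟩
    exact hY0C z.2
  · rintro b hb _ ⟨z, ⟨w, rfl⟩, rfl⟩
    refine ⟨_, ⟨⟨b * w * b⁻¹, hnorm b hb w w.2⟩, rfl⟩, ?_⟩
    simp [conj_pow]
  · obtain ⟨s, hs⟩ := (Group.fg_iff_subgroup_fg _).1
      (Group.fg_range (powMonoidHom m : Y0 →* Y0))
    refine ⟨s.image Y0.subtype, ?_⟩
    rw [Finset.coe_image, ← MonoidHom.map_closure, hs]
  · rintro _ ⟨z, ⟨w, rfl⟩, rfl⟩ n hn hz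
    have h1 : w ^ (m * n) = 1 := by
      apply Subtype.ext
      simpa [pow_mul] using hz
    have h2 := htor w (m * n) (Nat.mul_ne_zero hm.ne' hn) h1
    simp [h2]
  · obtain ⟨q1, hq1, -⟩ := S.hT 1 S.B.one_mem
    have hc : S.t q1 ∈ S.C := by
      have := S.C.inv_mem hq1
      simpa using this
    have hyY : y ∈ Y0 := by
      have h1 : S.t q1 * y * (S.t q1)⁻¹ = y := by
        rw [S.cC _ hc _ hy]; group
      rw [← h1]
      exact Subgroup.subset_closure ⟨q1, rfl⟩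
    refine ⟨y ^ m, ⟨_, ⟨⟨y, hyY⟩, rfl⟩, rfl⟩, hy1 m hm⟩

end Pool.Agent.AO
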