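import Pool.Agent.AO.TFour

/-!
# The final contradiction in the torsion-free case (module AO-TFive)
-/

set_option autoImplicit false

namespace Pool.Agent.AO

open MonoidAlgebra

variable {H : Type*} [Group H] {𝔻 : Type*} [CommGroup 𝔻] {Q : Type*} [Fintype Q]

namespace TData

variable {S : Core H 𝔻 Q} {M : Type*} [AddCommGroup M] (T : TData S M)

/-- If `g ∈ G` centralises `Gam` then `g = 1`.
PROOF. The subgroup `N = {g ∈ G | ∀ x ∈ Gam, Commute g x}` is finite (`Core.cent_finite`) and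
normalised by `G` (`G_norm_Gam`), so trivial by `finN`. -/
theorem cent_G {g : H} (hg : g ∈ S.G) (h : ∀ x ∈ S.Gam, Commute g x) : g = 1 := by
  let N : Subgroup H :=
    { carrier := {g | g ∈ S.G ∧ ∀ x ∈ S.Gam, Commute g x}
      mul_mem' := fun ha hb =>
        ⟨S.G.mul_mem ha.1 hb.1, fun x hx => (ha.2 x hx).mul_left (hb.2 x hx)⟩
      one_mem' := ⟨S.G.one_mem, fun x _ => Commute.one_left x⟩
      inv_mem' := fun ha => ⟨S.G.inv_mem ha.1, fun x hx => (ha.2 x hx).inv_left⟩ }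
  have hN : N = ⊥ := by
    apply S.finN N (fun g hg => hg.1)
    · intro g hg x hx
      refine ⟨S.G.mul_mem (S.G.mul_mem hg hx.1) (S.G.inv_mem hg), ?_⟩
      intro y hy
      have h1 := hx.2 _ (S.G_norm_Gam g⁻¹ (S.G.inv_mem hg) y hy)
      have h2 := (Commute.conj_iff g).2 h1
      have h3 : g * (g⁻¹ * y * g⁻¹⁻¹) * g⁻¹ = y := by group
      rwa [h3] at h2
    · exact S.cent_finite.subset (fun g hg => hg.2)
  have h4 : g ∈ N := ⟨hg, h⟩
  rw [hN] at h4
  exact Subgroup.mem_bot.1 h4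

private theorem TFive_act_inv {g : H} (hg : g ∈ S.G) (v : M) : T.act g (T.act g⁻¹ v) = v := by
  rw [← Module.End.mul_apply, ← T.act_mul hg (S.G.inv_mem hg), mul_inv_cancel, T.act_one,
    Module.End.one_apply]

private theorem TFive_inv_act {g : H} (hg : g ∈ S.G) (v : M) : T.act g⁻¹ (T.act g v) = v := by
  rw [← Module.End.mul_apply, ← T.act_mul (S.G.inv_mem hg) hg, inv_mul_cancel, T.act_one,
    Module.End.one_apply]

private theorem TFive_act_mul {g h : H} (hg : g ∈ S.G) (hh : h ∈ S.G) (v : M) :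
    T.act (g * h) v = T.act g (T.act h v) := by
  rw [T.act_mul hg hh, Module.End.mul_apply]

private theorem TFive_comm {g : H} (hg : g ∈ S.G) (hg1 : ∀ v, T.act g v = v) {v : H}
    (hv : v ∈ S.V) : Commute g v := by
  obtain ⟨m, rfl⟩ := T.V_ι v hv
  have h1 := T.act_spec g hg m
  rw [hg1] at h1
  exact mul_inv_eq_iff_eq_mul.1 h1.symm

/-- If `g, h ∈ G1` act trivially on `M` then they commute.
PROOF. By `δ_comp` (`act g = 1`, `act h = 1` on `M`): `δ_{gh}(d) = δ_h(d) + δ_g(d) = δ_{hg}(d)`.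
So `g h` and `h g` conjugate `d` in the same way (`δ_spec`), so `(h g)⁻¹ (g h)` commutes with all
`j d`, and it acts trivially on `M`, i.e. commutes with `V`. So it commutes with `Gam`
(`mem_Gam`) and is `1` by `cent_G`. -/
theorem comm_of_trivial {g h : H} (hg : g ∈ T.G1) (hh : h ∈ T.G1) (hg1 : ∀ v, T.act g v = v)
    (hh1 : ∀ v, T.act h v = v) : g * h = h * g := by
  have hgG := T.G1_le hg
  have hhG := T.G1_le hh
  have hz : (h * g)⁻¹ * (g * h) = 1 := by
    apply cent_G (S := S) (S.G.mul_mem (S.G.inv_mem (S.G.mul_mem hhG hgG)) (S.G.mul_mem hgG hhG))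
    intro x hx
    obtain ⟨v, hv, d, rfl⟩ := (S.mem_Gam x).1 hx
    have cg := TFive_comm T hgG hg1 hv
    have ch := TFive_comm T hhG hh1 hv
    have c1 : Commute ((h * g)⁻¹ * (g * h)) v :=
      (ch.mul_left cg).inv_left.mul_left (cg.mul_left ch)
    have c2 : Commute ((h * g)⁻¹ * (g * h)) (S.j d) := by
      have e1 := T.δ_comp hg hh d
      have e2 := T.δ_comp hh hg d
      rw [hg1] at e1
      rw [hh1, add_comm, ← e1] at e2
      have e3 := T.δ_spec (g * h) (T.G1.mul_mem hg hh) d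
      have e4 := T.δ_spec (h * g) (T.G1.mul_mem hh hg) d
      rw [e2, e3] at e4
      have e5 : g * h * S.j d * (g * h)⁻¹ = h * g * S.j d * (h * g)⁻¹ := mul_right_cancel e4
      have e6 : (h * g)⁻¹ * (g * h) * S.j d = S.j d * ((h * g)⁻¹ * (g * h)) := by
        calc (h * g)⁻¹ * (g * h) * S.j d
            = (h * g)⁻¹ * (g * h * S.j d * (g * h)⁻¹) * (g * h) := by group
          _ = (h * g)⁻¹ * (h * g * S.j d * (h * g)⁻¹) * (g * h) := by rw [e5]
          _ = S.j d * ((h * g)⁻¹ * (g * h)) := by group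
      exact e6
    exact c1.mul_right c2
  have := inv_mul_eq_one.1 hz
  exact this.symm

/-- If `g ∈ G1` acts trivially on `M` then `g = 1`.
PROOF. The subgroup `N` of all these elements is abelian (`comm_of_trivial`) and normalised by `G`
(`G1_normal`; `x g x⁻¹` acts on `M` as `act x ∘ act g ∘ act x⁻¹ = 1`), so it is trivial by `abN`. -/
theorem one_of_trivial {g : H} (hg : g ∈ T.G1) (hg1 : ∀ v, T.act g v = v) : g = 1 := by
  let N : Subgroup H :=
    { carrier := {g | g ∈ T.G1 ∧ ∀ v, T.act g v = v}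
      mul_mem' := by
        rintro a b ⟨ha, ha'⟩ ⟨hb, hb'⟩
        refine ⟨T.G1.mul_mem ha hb, fun v => ?_⟩
        rw [TFive_act_mul T (T.G1_le ha) (T.G1_le hb), hb', ha']
      one_mem' := ⟨T.G1.one_mem, fun v => by rw [T.act_one, Module.End.one_apply]⟩
      inv_mem' := by
        rintro a ⟨ha, ha'⟩
        refine ⟨T.G1.inv_mem ha, fun v => ?_⟩
        conv_lhs => rw [← ha' v]
        exact TFive_inv_act T (T.G1_le ha) v }
  have hN : N = ⊥ := by
    apply S.abN N (fun g hg => T.G1_le hg.1)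
    · rintro x hx a ⟨ha, ha'⟩
      refine ⟨T.G1_normal x hx a ha, fun v => ?_⟩
      rw [TFive_act_mul T (S.G.mul_mem hx (T.G1_le ha)) (S.G.inv_mem hx),
        TFive_act_mul T hx (T.G1_le ha), ha', TFive_act_inv T hx]
    · rintro a ⟨ha, ha'⟩ b ⟨hb, hb'⟩
      exact T.comm_of_trivial ha hb ha' hb'
  have h4 : g ∈ N := ⟨hg, hg1⟩
  rw [hN] at h4
  exact Subgroup.mem_bot.1 h4

/-- If `g ∈ G1` acts trivially on `M / V1` then `g = 1` (`𝔻` torsion-free).
PROOF. Let `N1` be the group of these `g`, and `N2` the subgroup of `N1` of the elements acting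
trivially on `V1`; both are normalised by `G` (`V1_act`, `G1_normal`). Let `g, h ∈ N2`. Then
`g (h v) = g (v + (h v - v)) = g v + (h v - v) = v + (g v - v) + (h v - v)`, as `h v - v ∈ V1` is fixed
by `g`. So `act (g h) = act (h g)`, `(h g)⁻¹ (g h) ∈ G1` acts trivially on `M`, so `g h = h g`
by `one_of_trivial`. By `abN` `N2 = 1`. The group `N1` acts on the finite set `V1`
(`V1_finite`, `V1_act`) with kernel `N2 = 1`, so `N1` is finite, and `N1 = 1` by `finN`. -/
theorem one_of_trivial_mod (htf : ∀ (d : 𝔻) (n : ℕ), n ≠ 0 → d ^ n = 1 → d = 1)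
    {g : H} (hg : g ∈ T.G1) (hg1 : ∀ v, T.act g v - v ∈ T.V1) : g = 1 := by
  let N1 : Subgroup H :=
    { carrier := {g | g ∈ T.G1 ∧ ∀ v, T.act g v - v ∈ T.V1}
      mul_mem' := by
        rintro a b ⟨ha, ha'⟩ ⟨hb, hb'⟩
        refine ⟨T.G1.mul_mem ha hb, fun v => ?_⟩
        rw [TFive_act_mul T (T.G1_le ha) (T.G1_le hb)]
        have h1 := T.V1_act (T.G1_le ha) (hb' v)
        have h2 := T.V1.add_mem h1 (ha' v)
        rw [map_sub] at h2
        have h3 : T.act a (T.act b v) - v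
            = T.act a (T.act b v) - T.act a v + (T.act a v - v) := by abel
        rw [h3]
        exact h2
      one_mem' := ⟨T.G1.one_mem, fun v => by
        rw [T.act_one, Module.End.one_apply, sub_self]
        exact T.V1.zero_mem⟩
      inv_mem' := by
        rintro a ⟨ha, ha'⟩
        refine ⟨T.G1.inv_mem ha, fun v => ?_⟩
        have h1 := T.V1_act (S.G.inv_mem (T.G1_le ha)) (ha' v)
        rw [map_sub, TFive_inv_act T (T.G1_le ha)] at h1
        have h2 := T.V1.neg_mem h1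
        rwa [neg_sub] at h2 }
  have hN1norm : ∀ g ∈ S.G, ∀ x ∈ N1, g * x * g⁻¹ ∈ N1 := by
    rintro x hx a ⟨ha, ha'⟩
    refine ⟨T.G1_normal x hx a ha, fun v => ?_⟩
    have h1 := T.V1_act hx (ha' (T.act x⁻¹ v))
    rw [map_sub, TFive_act_inv T hx] at h1
    rw [TFive_act_mul T (S.G.mul_mem hx (T.G1_le ha)) (S.G.inv_mem hx),
      TFive_act_mul T hx (T.G1_le ha)]
    exact h1
  let N2 : Subgroup H :=
    { carrier := {g | g ∈ N1 ∧ ∀ v ∈ T.V1, T.act g v = v}
      mul_mem' := by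
        rintro a b ⟨ha, ha'⟩ ⟨hb, hb'⟩
        refine ⟨N1.mul_mem ha hb, fun v hv => ?_⟩
        rw [TFive_act_mul T (T.G1_le ha.1) (T.G1_le hb.1), hb' v hv, ha' v hv]
      one_mem' := ⟨N1.one_mem, fun v _ => by rw [T.act_one, Module.End.one_apply]⟩
      inv_mem' := by
        rintro a ⟨ha, ha'⟩
        refine ⟨N1.inv_mem ha, fun v hv => ?_⟩
        conv_lhs => rw [← ha' v hv]
        exact TFive_inv_act T (T.G1_le ha.1) v }
  have hN2 : N2 = ⊥ := by
    apply S.abN N2 (fun g hg => T.G1_le hg.1.1)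
    · rintro x hx a ⟨ha, ha'⟩
      refine ⟨hN1norm x hx a ha, fun v hv => ?_⟩
      rw [TFive_act_mul T (S.G.mul_mem hx (T.G1_le ha.1)) (S.G.inv_mem hx),
        TFive_act_mul T hx (T.G1_le ha.1), ha' _ (T.V1_act (S.G.inv_mem hx) hv),
        TFive_act_inv T hx]
    · rintro a ⟨ha, ha'⟩ b ⟨hb, hb'⟩
      have haG := T.G1_le ha.1
      have hbG := T.G1_le hb.1
      have h1 : ∀ v, T.act (a * b) v = T.act (b * a) v := by
        intro v
        have e1 := ha' _ (hb.2 v)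
        have e2 := hb' _ (ha.2 v)
        rw [map_sub] at e1 e2
        rw [TFive_act_mul T haG hbG, TFive_act_mul T hbG haG]
        have e3 : T.act a (T.act b v) = T.act b v - v + T.act a v := by
          rw [← e1]; abel
        have e4 : T.act b (T.act a v) = T.act a v - v + T.act b v := by
          rw [← e2]; abel
        rw [e3, e4]
        abel
      have habG := S.G.mul_mem haG hbG
      have hbaG := S.G.mul_mem hbG haG
      have hz : (b * a)⁻¹ * (a * b) = 1 := by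
        apply T.one_of_trivial
          (T.G1.mul_mem (T.G1.inv_mem (T.G1.mul_mem hb.1 ha.1)) (T.G1.mul_mem ha.1 hb.1))
        intro v
        rw [TFive_act_mul T (S.G.inv_mem hbaG) habG, h1, TFive_inv_act T hbaG]
      exact (inv_mul_eq_one.1 hz).symm
  have hfin : (N1 : Set H).Finite := by
    haveI : Finite T.V1 := T.V1_finite htf
    have hinj : Function.Injective
        (fun (x : N1) (v : T.V1) => (⟨T.act x.1 v.1, T.V1_act (T.G1_le x.2.1) v.2⟩ : T.V1)) := by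
      intro x y hxy
      have h1 : ∀ v ∈ T.V1, T.act x.1 v = T.act y.1 v := by
        intro v hv
        exact congrArg Subtype.val (congrFun hxy ⟨v, hv⟩)
      have h2 : y.1⁻¹ * x.1 ∈ N2 := by
        refine ⟨N1.mul_mem (N1.inv_mem y.2) x.2, fun v hv => ?_⟩
        rw [TFive_act_mul T (S.G.inv_mem (T.G1_le y.2.1)) (T.G1_le x.2.1), h1 v hv,
          TFive_inv_act T (T.G1_le y.2.1)]
      rw [hN2, Subgroup.mem_bot, inv_mul_eq_one] at h2
      exact Subtype.ext h2.symm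
    haveI : Finite N1 := Finite.of_injective _ hinj
    exact Set.toFinite (N1 : Set H)
  have hN1 : N1 = ⊥ := S.finN N1 (fun g hg => T.G1_le hg.1) hN1norm hfin
  have h4 : g ∈ N1 := ⟨hg, hg1⟩
  rw [hN1] at h4
  exact Subgroup.mem_bot.1 h4

/-- `A ∩ G1` contains an element `a0 ≠ 1`.
PROOF. For `a ∈ A ∩ G` there is `b ∈ B ∩ G` with `a b ∈ G1` (`G_G1`) and `q` with
`(t q)⁻¹ b ∈ C` (`hT`). As `A ∩ G` is infinite (`infA`) there are `a ≠ a'` with the same `q`
(`Set.Infinite.exists_ne_map_eq_of_mapsTo`). `b = t q c`, `b' = t q c'`, `c, c' ∈ C ∩ G ⊆ G1`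
(`C_G1`; `c = (t q)⁻¹ b ∈ G`), so `a t q, a' t q ∈ G1` and `a a'⁻¹ = (a t q) (a' t q)⁻¹ ∈ G1`. -/
theorem exists_a0 : ∃ a0 ∈ S.A, a0 ∈ T.G1 ∧ a0 ≠ 1 := by
  classical
  have h1 : ∀ a : H, ∃ q : Q, a ∈ S.A ⊓ S.G → a * S.t q ∈ T.G1 := by
    intro a
    by_cases ha : a ∈ S.A ⊓ S.G
    · obtain ⟨b, hb, hbG, hab⟩ := T.G_G1 a ha.2
      obtain ⟨q, hq, _⟩ := S.hT b hb
      refine ⟨q, fun _ => ?_⟩
      have hc : (S.t q)⁻¹ * b ∈ S.G := S.G.mul_mem (S.G.inv_mem (S.tG q)) hbG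
      have hc1 := T.C_G1 _ hq hc
      have h2 := T.G1.mul_mem hab (T.G1.inv_mem hc1)
      have h3 : a * b * ((S.t q)⁻¹ * b)⁻¹ = a * S.t q := by group
      rwa [h3] at h2
    · obtain ⟨q, _⟩ := S.hT 1 S.B.one_mem
      exact ⟨q, fun h => absurd h ha⟩
  choose φ hφ using h1
  obtain ⟨a, ha, a', ha', hne, heq⟩ := S.infA.exists_ne_map_eq_of_mapsTo
    (f := φ) (t := Set.univ) (fun _ _ => Set.mem_univ _) Set.finite_univ
  refine ⟨a * a'⁻¹, S.A.mul_mem ha.1 (S.A.inv_mem ha'.1), ?_, ?_⟩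
  · have e1 := hφ a ha
    have e2 := hφ a' ha'
    rw [← heq] at e2
    have e3 := T.G1.mul_mem e1 (T.G1.inv_mem e2)
    have e4 : a * S.t (φ a) * (a' * S.t (φ a))⁻¹ = a * a'⁻¹ := by group
    rwa [e4] at e3
  · intro h
    exact hne (mul_inv_eq_one.1 h)

end TData

/-- The torsion-free case.
PROOF. Let `T : TData S M` (`exists_TData` with `Core.V_norm`), and `a0` as in `exists_a0`. For
`c ∈ C ∩ G` consider `g = a0⁻¹ c⁻¹ a0 c ∈ G1` (`C_G1`). By `comm_mem_V1`, for all `v`: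
`a0 (c v) - c (a0 v) ∈ V1`; apply `act (a0⁻¹ c⁻¹)` (`V1_act`, `act_mul`, note
`a0⁻¹ c⁻¹ c a0 = 1`): `g v - v ∈ V1`. So `g = 1` by `one_of_trivial_mod`, and `a0` commutes with `c`.
Take `c ∈ C ∩ G`, `c ≠ 1` (`ntC`); all `t q c (t q)⁻¹` are in `C ∩ G` (`nC`, `tB`, `tG`), so `a0`
commutes with them, so `a0 = 1` by `Pre.one_of_comm`: contradiction. -/
theorem caseT (S : Core H 𝔻 Q) [Group.FG 𝔻]
    (htf : ∀ (d : 𝔻) (n : ℕ), n ≠ 0 → d ^ n = 1 → d = 1) : False := by
  obtain ⟨M, _, ⟨T⟩⟩ := exists_TData S (S.V_norm htf)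
  obtain ⟨a0, ha0A, ha0, ha01⟩ := T.exists_a0
  have ha0G := T.G1_le ha0
  have key : ∀ c ∈ S.C, c ∈ S.G → Commute a0 c := by
    intro c hc hcG
    have hc1 := T.C_G1 c hc hcG
    have hm : a0⁻¹ * c⁻¹ ∈ S.G := S.G.mul_mem (S.G.inv_mem ha0G) (S.G.inv_mem hcG)
    have hg : a0⁻¹ * c⁻¹ * (a0 * c) ∈ T.G1 :=
      T.G1.mul_mem (T.G1.mul_mem (T.G1.inv_mem ha0) (T.G1.inv_mem hc1)) (T.G1.mul_mem ha0 hc1)
    have h1 : a0⁻¹ * c⁻¹ * (a0 * c) = 1 := by
      apply T.one_of_trivial_mod htf hg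
      intro v
      have h2 := T.V1_act hm (T.comm_mem_V1 htf ha0A ha0 hc hcG v)
      rw [map_sub, ← Module.End.mul_apply (T.act a0), ← T.act_mul ha0G hcG,
        ← Module.End.mul_apply (T.act c), ← T.act_mul hcG ha0G,
        ← Module.End.mul_apply (T.act (a0⁻¹ * c⁻¹)), ← T.act_mul hm (S.G.mul_mem ha0G hcG),
        ← Module.End.mul_apply (T.act (a0⁻¹ * c⁻¹)), ← T.act_mul hm (S.G.mul_mem hcG ha0G)] at h2
      have h3 : a0⁻¹ * c⁻¹ * (c * a0) = 1 := by group
      rw [h3, T.act_one, Module.End.one_apply] at h2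
      exact h2
    have h4 : a0 * c = c * a0 := by
      have h5 : a0⁻¹ * c⁻¹ = (c * a0)⁻¹ := by group
      rw [h5] at h1
      exact (inv_mul_eq_one.1 h1).symm
    exact h4
  obtain ⟨c, hc, hcG, hc1⟩ := S.ntC
  apply ha01
  apply S.toPre.one_of_comm hc hc1 ha0A
  intro q
  exact key _ (S.nC _ (S.tB q) c hc) (S.G.mul_mem (S.G.mul_mem (S.tG q) hcG) (S.G.inv_mem (S.tG q)))

end Pool.Agent.AO
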