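import Pool.Agent.AO.UltraTwo
import Pool.Agent.AO.CoreTOne
import Pool.Agent.AO.TFive

/-!
# The case of an element of infinite order in `C` (module AO-CoreT)

Proof by helper59.
-/

set_option autoImplicit false

universe u

namespace Pool.Agent.AO

open Filter

/-- PROOF. Let `Y` be as in `exists_torsionFree` (a commutative group; give `↥Y` the `CommGroup`
structure from `cC`). Let `I = Finset H × Finset H` (directed by inclusion, componentwise `≤`) and let
`𝒰` be an ultrafilter with `𝒰 ≤ atTop` (`Ultrafilter.of atTop`). For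
`i = (E, F)` let `m i`, `c0 i` be as in `hjT` for the sets `E.filter (· ∈ S.C)` and `F`. Let
`S' = S.ultra 𝒰 : Pre (UP 𝒰 H) Q`, `c0` = the germ of `c0 i`, and `φ : Y →* UP 𝒰 H`,
`φ z` = the germ of `i ↦ z ^ (m i)` (a homomorphism since `Y` is commutative, injective since `m i > 0`
and `Y` is torsion-free: if `φ z = 1` then `z ^ (m i) = 1` for some `i`). `φ z ∈ S'.C`. For
`b ∈ S'.B`, the germ of `b i`, `b i ∈ S.B`: there is `q` with `b i ∈ (t q) C` for almost all `i`
(`exists_of_eventually_exists`), so `b φ(z) b⁻¹ = φ ((t q) z (t q)⁻¹)` (as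
`b i z^(m i) (b i)⁻¹ = ((t q) z (t q)⁻¹)^(m i)`).
`hK` of `exists_core`: for `g ∈ S.G` (its diagonal image) there is for all `i = (E, F) ≥ (∅, {g})` a
`q i` with: for all `s ∈ E ∩ C`: `c0 i s^(m i) g ∈ A (t (q i)) C`; by `exists_of_eventually_exists`
there is `q` with this property for almost all `i`. For `z ∈ Y` and almost all `i`: `z ∈ E` for
`i ≥ ({z}, ∅)`, so `c0 i z^(m i) g ∈ A (t q) C`; choose functions `a i`, `c i`.
So `exists_core` gives a `Core (UP 𝒰 H) Y Q`, and `caseT` gives the contradiction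
(`Group.FG Y` from `Y.FG`: `Group.fg_iff_subgroup_fg`). -/
theorem no_infinite_order {H : Type u} [Group H] {Q : Type*} [Fintype Q] (S : Pre H Q) {y : H}
    (hy : y ∈ S.C) (hy1 : ∀ m : ℕ, 0 < m → y ^ m ≠ 1) : False := by
  classical
  obtain ⟨Y, hYC, hYB, hYFG, hYtf, z0, hz0Y, hz0⟩ := exists_torsionFree S hy hy1
  have hYcomm : ∀ x y : Y, x * y = y * x := fun x y =>
    Subtype.ext (S.cC x.1 (hYC x.2) y.1 (hYC y.2))
  let _ : CommGroup Y := { (inferInstance : Group Y) with mul_comm := hYcomm }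
  have hgrp : Group.FG Y := (Group.fg_iff_subgroup_fg Y).2 hYFG
  let 𝒰 : Ultrafilter (Finset H × Finset H) := Ultrafilter.of atTop
  have h𝒰 : (𝒰 : Filter (Finset H × Finset H)) ≤ atTop := Ultrafilter.of_le atTop
  choose m hm c0 hc0 hg using fun i : Finset H × Finset H =>
    hjT S (i.1.filter (· ∈ S.C)) i.2 (fun s hs => (Finset.mem_filter.1 hs).2)
  -- the embedding
  let φ : Y →* UP 𝒰 H :=
    { toFun := fun z => ((fun i => (z : H) ^ m i : Finset H × Finset H → H) :
        (𝒰 : Filter (Finset H × Finset H)).Germ H)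
      map_one' := by
        refine Germ.coe_eq.2 (Eventually.of_forall fun i => ?_)
        change ((1 : Y) : H) ^ m i = 1
        rw [Subgroup.coe_one, one_pow]
      map_mul' := by
        intro z w
        refine Germ.coe_eq.2 (Eventually.of_forall fun i => ?_)
        change ((z * w : Y) : H) ^ m i = (z : H) ^ m i * (w : H) ^ m i
        rw [Subgroup.coe_mul]
        exact Commute.mul_pow (S.cC z.1 (hYC z.2) w.1 (hYC w.2)) _ }
  have hφ : ∀ z : Y, φ z = ((fun i => (z : H) ^ m i : Finset H × Finset H → H) :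
      (𝒰 : Filter (Finset H × Finset H)).Germ H) := fun _ => rfl
  have hinj : Function.Injective φ := by
    rw [injective_iff_map_eq_one]
    intro z hz
    have h1 : ∀ᶠ i in (𝒰 : Filter (Finset H × Finset H)), (z : H) ^ m i = 1 := Germ.coe_eq.1 hz
    obtain ⟨i, hi⟩ := h1.exists
    exact Subtype.ext (hYtf z.1 z.2 (m i) (hm i).ne' hi)
  have hφC : ∀ z, φ z ∈ (S.ultra 𝒰).C := fun z =>
    Eventually.of_forall fun i => S.C.pow_mem (hYC z.2) (m i)
  have hφB : ∀ b ∈ (S.ultra 𝒰).B, ∀ z, ∃ z', b * φ z * b⁻¹ = φ z' := by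
    intro b hb z
    induction b using Germ.inductionOn with | _ f
    have hf : ∀ᶠ i in (𝒰 : Filter (Finset H × Finset H)), f i ∈ S.B := hb
    obtain ⟨q, hq⟩ := exists_of_eventually_exists 𝒰 (P := fun i q => (S.t q)⁻¹ * f i ∈ S.C)
      (hf.mono fun i hi => (S.hT (f i) hi).exists)
    refine ⟨⟨S.t q * z * (S.t q)⁻¹, hYB _ (S.tB q) z z.2⟩, ?_⟩
    refine Germ.coe_eq.2 ?_
    filter_upwards [hq] with i hi
    change f i * (z : H) ^ m i * (f i)⁻¹ = (S.t q * z * (S.t q)⁻¹) ^ m i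
    rw [conj_pow]
    have h1 := S.cC _ hi _ (S.C.pow_mem (hYC z.2) (m i))
    calc f i * (z : H) ^ m i * (f i)⁻¹
        = S.t q * (((S.t q)⁻¹ * f i) * (z : H) ^ m i) * (f i)⁻¹ := by group
      _ = S.t q * ((z : H) ^ m i * ((S.t q)⁻¹ * f i)) * (f i)⁻¹ := by rw [h1]
      _ = S.t q * (z : H) ^ m i * (S.t q)⁻¹ := by group
  have hK : ∀ g ∈ (S.ultra 𝒰).G, ∃ q, ∀ x, ∃ a ∈ (S.ultra 𝒰).A, ∃ c ∈ (S.ultra 𝒰).C,
      ((c0 : Finset H × Finset H → H) : (𝒰 : Filter (Finset H × Finset H)).Germ H) * φ x * g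
        = a * (S.ultra 𝒰).t q * c := by
    rintro _ ⟨g, hgG, rfl⟩
    have h1 : ∀ᶠ i in (𝒰 : Filter (Finset H × Finset H)), g ∈ i.2 := by
      refine h𝒰 ((eventually_ge_atTop ((∅, {g}) : Finset H × Finset H)).mono ?_)
      intro i hi
      exact hi.2 (Finset.mem_singleton_self g)
    obtain ⟨q, hq⟩ := exists_of_eventually_exists 𝒰
      (P := fun i q => ∀ s ∈ i.1.filter (· ∈ S.C), ∃ a ∈ S.A, ∃ c ∈ S.C,
        c0 i * s ^ m i * g = a * S.t q * c)
      (h1.mono fun i hi => hg i g hi)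
    refine ⟨q, fun x => ?_⟩
    have h2 : ∀ᶠ i in (𝒰 : Filter (Finset H × Finset H)), (x : H) ∈ i.1 := by
      refine h𝒰 ((eventually_ge_atTop (({(x : H)}, ∅) : Finset H × Finset H)).mono ?_)
      intro i hi
      exact hi.1 (Finset.mem_singleton_self (x : H))
    have h3 : ∀ᶠ i in (𝒰 : Filter (Finset H × Finset H)), ∃ a ∈ S.A, ∃ c ∈ S.C,
        c0 i * (x : H) ^ m i * g = a * S.t q * c := by
      filter_upwards [hq, h2] with i hi1 hi2
      exact hi1 x (Finset.mem_filter.2 ⟨hi2, hYC x.2⟩)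
    have h4 : ∀ i : Finset H × Finset H, ∃ a c : H, (∃ a ∈ S.A, ∃ c ∈ S.C,
        c0 i * (x : H) ^ m i * g = a * S.t q * c) →
        a ∈ S.A ∧ c ∈ S.C ∧ c0 i * (x : H) ^ m i * g = a * S.t q * c := by
      intro i
      by_cases hi : ∃ a ∈ S.A, ∃ c ∈ S.C, c0 i * (x : H) ^ m i * g = a * S.t q * c
      · obtain ⟨a, ha, c, hc, h5⟩ := hi
        exact ⟨a, c, fun _ => ⟨ha, hc, h5⟩⟩
      · exact ⟨1, 1, fun h => absurd h hi⟩
    choose a c hac using h4
    refine ⟨((a : Finset H × Finset H → H) : (𝒰 : Filter (Finset H × Finset H)).Germ H), ?_,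
      ((c : Finset H × Finset H → H) : (𝒰 : Filter (Finset H × Finset H)).Germ H), ?_, ?_⟩
    · change ∀ᶠ i in (𝒰 : Filter (Finset H × Finset H)), a i ∈ S.A
      exact h3.mono fun i hi => (hac i hi).1
    · change ∀ᶠ i in (𝒰 : Filter (Finset H × Finset H)), c i ∈ S.C
      exact h3.mono fun i hi => (hac i hi).2.1
    · refine Germ.coe_eq.2 ?_
      exact h3.mono fun i hi => (hac i hi).2.2
  obtain ⟨T⟩ := exists_core (S.ultra 𝒰) φ hinj hφC hφB
    ⟨⟨z0, hz0Y⟩, fun h => hz0 (congrArg Subtype.val h)⟩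
    ((c0 : Finset H × Finset H → H) : (𝒰 : Filter (Finset H × Finset H)).Germ H)
    (Eventually.of_forall hc0) hK
  refine caseT T ?_
  intro d n hn hd
  have h1 : (d : H) ^ n = 1 := by
    have h2 := congrArg Subtype.val hd
    exact h2
  exact Subtype.ext (hYtf d.1 d.2 n hn h1)

end Pool.Agent.AO
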