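import Mathlib

/-!
# Products of an abelian and an almost abelian group (project AO, MP_00fcbb_al)

`PrimeGrp` is the notion of prime group. `Pre` is a factorised group `H = A B` together with a
subgroup `G` (the small group), `Core` is `Pre` together with the outcome of the
Hales-Jewett argument, from which a contradiction is derived.
-/

set_option autoImplicit false

namespace Pool.Agent.AO

/-- A group is prime if the normal closures of two nontrivial elements never commute. -/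
def PrimeGrp (G : Type*) [Group G] : Prop :=
  ∀ x y : G, x ≠ 1 → y ≠ 1 → ∃ g : G, ¬ Commute x (g * y * g⁻¹)

/-- `H = A B`, `A` abelian, `C` abelian and normal in `B`, `t : Q → H` a transversal of `C` in `B`
consisting of elements of the small subgroup `G`; `h3` is the fact F3 of the paper proof. -/
structure Pre (H : Type*) [Group H] (Q : Type*) [Fintype Q] where
  A : Subgroup H
  B : Subgroup H
  C : Subgroup H
  G : Subgroup H
  cA : ∀ x ∈ A, ∀ y ∈ A, x * y = y * x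
  cC : ∀ x ∈ C, ∀ y ∈ C, x * y = y * x
  hCB : C ≤ B
  nC : ∀ b ∈ B, ∀ c ∈ C, b * c * b⁻¹ ∈ C
  hAB : ∀ h : H, ∃ a ∈ A, ∃ b ∈ B, h = a * b
  hG : ∀ g ∈ G, ∃ a ∈ A, ∃ b ∈ B, a ∈ G ∧ b ∈ G ∧ g = a * b
  t : Q → H
  tB : ∀ q, t q ∈ B
  tG : ∀ q, t q ∈ G
  hT : ∀ b ∈ B, ∃! q, (t q)⁻¹ * b ∈ C
  h3 : ∀ c ∈ C, c ≠ 1 → ∀ a ∈ A, (∀ q, a * (t q * c * (t q)⁻¹) * a⁻¹ ∈ C) → a = 1
  infA : ((A ⊓ G : Subgroup H) : Set H).Infinite
  ntC : ∃ c ∈ C, c ∈ G ∧ c ≠ 1
  abN : ∀ N : Subgroup H, N ≤ G → (∀ g ∈ G, ∀ x ∈ N, g * x * g⁻¹ ∈ N) →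
    (∀ x ∈ N, ∀ y ∈ N, x * y = y * x) → N = ⊥
  finN : ∀ N : Subgroup H, N ≤ G → (∀ g ∈ G, ∀ x ∈ N, g * x * g⁻¹ ∈ N) →
    (N : Set H).Finite → N = ⊥

/-- The configuration after the Hales-Jewett argument: `j : 𝔻 →* H` is an embedding of a
nontrivial abelian group into `C` with `B`-invariant image, `c0 ∈ C`, and `U` is a set of elements
`u` of `G` with `c0 (j 𝔻) u ⊆ A C` such that every element of `G` can be corrected by an element
of `B ∩ G` to an element of `U`. -/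
structure Core (H : Type*) [Group H] (𝔻 : Type*) [CommGroup 𝔻] (Q : Type*) [Fintype Q]
    extends Pre H Q where
  j : 𝔻 →* H
  jinj : Function.Injective j
  jC : ∀ d, j d ∈ C
  jB : ∀ b ∈ B, ∀ d, ∃ d', b * j d * b⁻¹ = j d'
  nt : ∃ d : 𝔻, d ≠ 1
  U : Set H
  hUG : U ⊆ G
  oneU : 1 ∈ U
  hUB : ∀ g ∈ G, ∃ b ∈ B, b ∈ G ∧ g * b ∈ U
  c0 : H
  hc0 : c0 ∈ C
  hK : ∀ u ∈ U, ∀ d, ∃ a ∈ A, ∃ c ∈ C, c0 * j d * u = a * c

namespace Core

variable {H : Type*} [Group H] {𝔻 : Type*} [CommGroup 𝔻] {Q : Type*} [Fintype Q]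
variable (S : Core H 𝔻 Q)

/-- `delta u d = u d u⁻¹ d⁻¹` -/
def delta (u : H) (d : 𝔻) : H := u * S.j d * u⁻¹ * (S.j d)⁻¹

/-- The abelian group generated by all `delta u d`, `u ∈ U`. -/
def V : Subgroup H := Subgroup.closure {x | ∃ u ∈ S.U, ∃ d : 𝔻, x = S.delta u d}

/-- The group generated by all conjugates `u d u⁻¹`, `u ∈ U`. -/
def Gam : Subgroup H := Subgroup.closure {x | ∃ u ∈ S.U, ∃ d : 𝔻, x = u * S.j d * u⁻¹}

end Core

end Pool.Agent.AO
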