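import Pool.Agent.AO.PrimeSol

/-!
# First facts about factorised infinite prime groups (module AO-FactOne)
-/

set_option autoImplicit false

namespace Pool.Agent.AO

/-- An infinite prime group `G = A B` with `A` abelian, `C` abelian, normal and of finite index
in `B`. -/
structure PF {G : Type*} [Group G] (A B C : Subgroup G) : Prop where
  prime : PrimeGrp G
  inf : Infinite G
  cA : ∀ x ∈ A, ∀ y ∈ A, x * y = y * x
  cC : ∀ x ∈ C, ∀ y ∈ C, x * y = y * x
  hCB : C ≤ B
  nC : ∀ b ∈ B, ∀ c ∈ C, b * c * b⁻¹ ∈ C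
  fin : C.relIndex B ≠ 0
  hAB : ∀ g : G, ∃ a ∈ A, ∃ b ∈ B, g = a * b

namespace PF

variable {G : Type*} [Group G] {A B C : Subgroup G}

/-- `G = B A` as well (apply `hAB` to `g⁻¹`). -/
theorem hBA (P : PF A B C) (g : G) : ∃ b ∈ B, ∃ a ∈ A, g = b * a := by
  obtain ⟨a, ha, b, hb, h⟩ := P.hAB g⁻¹
  exact ⟨b⁻¹, inv_mem hb, a⁻¹, inv_mem ha, by rw [← mul_inv_rev, ← h, inv_inv]⟩

/-- F2. PROOF. Suppose `a ≠ 1`. By `prime` (with `x = c`, `y = a`) there is `g` such that `c` does not
commute with `g a g⁻¹`. Write `g = b a'` (`hBA`); `g a g⁻¹ = b a b⁻¹` and `a` commutes with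
`b⁻¹ c b`, so `b a b⁻¹` commutes with `c`: contradiction. -/
theorem F2 (P : PF A B C) {c a : G} (hc1 : c ≠ 1) (ha : a ∈ A)
    (h : ∀ b ∈ B, Commute a (b * c * b⁻¹)) : a = 1 := by
  by_contra ha1
  obtain ⟨g, hg⟩ := P.prime c a hc1 ha1
  obtain ⟨b, hb, a', ha', rfl⟩ := P.hBA g
  apply hg
  have h1 : b * a' * a * (b * a')⁻¹ = b * a * b⁻¹ := by
    have h2 : a' * a = a * a' := P.cA _ ha' _ ha
    calc b * a' * a * (b * a')⁻¹ = b * (a' * a) * a'⁻¹ * b⁻¹ := by group
      _ = b * a * b⁻¹ := by rw [h2]; group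
  rw [h1]
  have h3 : a * (b⁻¹ * c * b⁻¹⁻¹) = (b⁻¹ * c * b⁻¹⁻¹) * a := h b⁻¹ (B.inv_mem hb)
  show c * (b * a * b⁻¹) = (b * a * b⁻¹) * c
  calc c * (b * a * b⁻¹) = b * ((b⁻¹ * c * b⁻¹⁻¹) * a) * b⁻¹ := by group
    _ = b * (a * (b⁻¹ * c * b⁻¹⁻¹)) * b⁻¹ := by rw [h3]
    _ = (b * a * b⁻¹) * c := by group

/-- If `K ≤ G` is abelian of finite index then the prime infinite group `G` does not exist. -/
private theorem factOne_absurd (P : PF A B C) (K : Subgroup G)
    (hK : ∀ x ∈ K, ∀ y ∈ K, x * y = y * x) (hfin : K.FiniteIndex) : False := by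
  have hinf : Infinite G := P.inf
  have hsol : Group.IsSolvable K := by
    refine Group.isSolvable_of_comm ?_
    intro a b
    exact Subtype.ext (hK _ a.2 _ b.2)
  have h1 : VirtSol G := ⟨K, hfin, hsol⟩
  have h2 : (⊤ : Subgroup G) = ⊥ := P.prime.virtSol ⊤ (h1.subgroup ⊤)
  exact top_ne_bot h2

/-- PROOF. If `A` is finite, `G = A B` is a finite union of cosets `a B`, so `B` has finite index and
so has `C`; `G` is virtually soluble, so `⊤ = ⊥` by `PrimeGrp.virtSol` (for `N = ⊤`),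
contradicting `inf`. -/
theorem infinite_A (P : PF A B C) : (A : Set G).Infinite := by
  intro hA
  have hAf : Finite A := hA.to_subtype
  have h1 : Finite (G ⧸ B) := by
    refine Finite.of_surjective (fun a : A => (QuotientGroup.mk (a : G) : G ⧸ B)) ?_
    intro q
    obtain ⟨g, rfl⟩ := QuotientGroup.mk_surjective q
    obtain ⟨a, ha, b, hb, rfl⟩ := P.hAB g
    refine ⟨⟨a, ha⟩, ?_⟩
    show (QuotientGroup.mk a : G ⧸ B) = QuotientGroup.mk (a * b)
    rw [QuotientGroup.eq]
    simpa using hb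
  have h2 : B.index ≠ 0 := Subgroup.index_ne_zero_of_finite
  have h3 : C.index ≠ 0 := by
    rw [← Subgroup.relIndex_mul_index P.hCB]
    exact mul_ne_zero P.fin h2
  exact factOne_absurd P C P.cC ⟨h3⟩

/-- PROOF. If `C` is finite then `B` is finite (`fin`), and `G = B A` is a finite union of cosets
`b A`, so `A` has finite index, and `G` is virtually soluble; as for `infinite_A`. -/
theorem infinite_C (P : PF A B C) : (C : Set G).Infinite := by
  intro hC
  have hCf : Finite C := hC.to_subtype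
  have hBf : Finite B := by
    have h1 : Finite (C.subgroupOf B) := by
      refine Finite.of_injective (fun x : C.subgroupOf B => (⟨((x : B) : G), x.2⟩ : C)) ?_
      intro x y hxy
      have h2 : ((x : B) : G) = ((y : B) : G) := congrArg (fun z : C => (z : G)) hxy
      exact Subtype.ext (Subtype.ext h2)
    have h2 : Nat.card B ≠ 0 := by
      rw [← Subgroup.card_mul_index (C.subgroupOf B)]
      exact mul_ne_zero Nat.card_pos.ne' P.fin
    exact Nat.finite_of_card_ne_zero h2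
  have h1 : Finite (G ⧸ A) := by
    refine Finite.of_surjective (fun b : B => (QuotientGroup.mk (b : G) : G ⧸ A)) ?_
    intro q
    obtain ⟨g, rfl⟩ := QuotientGroup.mk_surjective q
    obtain ⟨b, hb, a, ha, rfl⟩ := P.hBA g
    refine ⟨⟨b, hb⟩, ?_⟩
    show (QuotientGroup.mk b : G ⧸ A) = QuotientGroup.mk (b * a)
    rw [QuotientGroup.eq]
    simpa using ha
  have h2 : A.index ≠ 0 := Subgroup.index_ne_zero_of_finite
  exact factOne_absurd P A P.cA ⟨h2⟩

/-- If `X ≥ C` is a subgroup with `X ∩ A = 1` then `C` has finite index in `X`.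
PROOF. For `x ∈ X` write `x = a b` (`hAB`) and associate to `x` the left coset `b C` of `C` in `B`
(a finite set). If `x = a b`, `x' = a' b'` have the same coset then `b' = b c`, `c ∈ C ≤ X`, so
`x' c⁻¹ = a' b ∈ X`, `a a'⁻¹ = (a b) (a' b)⁻¹ ∈ X ∩ A = 1`, so `x' = a b c = x c`. So the number of
left cosets of `C` in `X` is at most the number of left cosets of `C` in `B`. -/
theorem relIndex_ne_zero (P : PF A B C) (X : Subgroup G) (hCX : C ≤ X)
    (hXA : ∀ a ∈ X, a ∈ A → a = 1) : C.relIndex X ≠ 0 := by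
  classical
  have hfB : (C.subgroupOf B).FiniteIndex := ⟨P.fin⟩
  have hfin : Finite (B ⧸ C.subgroupOf B) := inferInstance
  choose a ha b hb hab using P.hAB
  let f : X → B ⧸ C.subgroupOf B := fun x => QuotientGroup.mk (⟨b (x : G), hb _⟩ : B)
  have hf : ∀ x x' : X, f x = f x' → ((x : G)⁻¹ * (x' : G)) ∈ C := by
    intro x x' h
    have h1 : (⟨b (x : G), hb _⟩ : B)⁻¹ * (⟨b (x' : G), hb _⟩ : B) ∈ C.subgroupOf B :=
      QuotientGroup.eq.1 h
    have h2 : (b (x : G))⁻¹ * b (x' : G) ∈ C := h1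
    -- `a' b ∈ X`
    have h3 : a (x' : G) * b (x : G) ∈ X := by
      have h4 : (x' : G) * ((b (x : G))⁻¹ * b (x' : G))⁻¹ ∈ X :=
        X.mul_mem x'.2 (X.inv_mem (hCX h2))
      have h5 : (x' : G) * ((b (x : G))⁻¹ * b (x' : G))⁻¹ = a (x' : G) * b (x : G) := by
        nth_rw 1 [hab (x' : G)]
        group
      rwa [h5] at h4
    have h6 : a (x : G) * (a (x' : G))⁻¹ ∈ X := by
      have h7 : (x : G) * (a (x' : G) * b (x : G))⁻¹ ∈ X := X.mul_mem x.2 (X.inv_mem h3)
      have h8 : (x : G) * (a (x' : G) * b (x : G))⁻¹ = a (x : G) * (a (x' : G))⁻¹ := by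
        nth_rw 1 [hab (x : G)]
        group
      rwa [h8] at h7
    have h9 : a (x : G) * (a (x' : G))⁻¹ = 1 :=
      hXA _ h6 (A.mul_mem (ha _) (A.inv_mem (ha _)))
    have h10 : a (x : G) = a (x' : G) := mul_inv_eq_one.1 h9
    have h11 : (x : G)⁻¹ * (x' : G) = (b (x : G))⁻¹ * b (x' : G) := by
      nth_rw 1 [hab (x : G), hab (x' : G)]
      rw [h10]
      group
    rw [h11]
    exact h2
  have hX : Finite (X ⧸ C.subgroupOf X) := by
    refine Finite.of_injective (fun q : X ⧸ C.subgroupOf X => f q.out) ?_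
    intro q q' h
    have h1 := hf _ _ h
    have h2 : (QuotientGroup.mk q.out : X ⧸ C.subgroupOf X) = QuotientGroup.mk q'.out := by
      rw [QuotientGroup.eq]
      exact h1
    rwa [QuotientGroup.out_eq', QuotientGroup.out_eq'] at h2
  have : (C.subgroupOf X).index ≠ 0 := Subgroup.index_ne_zero_of_finite
  exact this

end PF

end Pool.Agent.AO
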