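import Pool.Agent.AO.Ito

/-!
# The groups `V` and `Gam` (module AO-Gam)

Notation: `d` stands for `S.j d`, `δ_u(d) = S.delta u d = u d u⁻¹ d⁻¹`, `A, B, C, G, U, c0` are
the fields of the structure `S : Core H 𝔻 Q`.
-/

set_option autoImplicit false

namespace Pool.Agent.AO

namespace Core

variable {H : Type*} [Group H] {𝔻 : Type*} [CommGroup 𝔻] {Q : Type*} [Fintype Q]
variable (S : Core H 𝔻 Q)

/-- auxiliary: `c0 u ∈ A C` -/
private theorem Gam_decomp {u : H} (hu : u ∈ S.U) : ∃ a ∈ S.A, ∃ c ∈ S.C, S.c0 * u = a * c := by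
  obtain ⟨a, ha, c, hc, h⟩ := S.hK u hu 1
  refine ⟨a, ha, c, hc, ?_⟩
  rw [map_one, mul_one] at h
  exact h

/-- auxiliary: `d⁻¹ α ∈ A C` -/
private theorem Gam_inv_mul {u α γ : H} (hu : u ∈ S.U) (hγ : γ ∈ S.C) (h : S.c0 * u = α * γ)
    (d : 𝔻) : ∃ a ∈ S.A, ∃ c ∈ S.C, (S.j d)⁻¹ * α = a * c := by
  obtain ⟨a, ha, c, hc, h'⟩ := S.hK u hu d⁻¹
  refine ⟨a, ha, c * γ⁻¹, mul_mem hc (inv_mem hγ), ?_⟩
  have h1 : S.c0 * S.j d⁻¹ = S.j d⁻¹ * S.c0 := S.cC _ S.hc0 _ (S.jC _)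
  have h2 : α = S.c0 * u * γ⁻¹ := by rw [h]; group
  calc (S.j d)⁻¹ * α = S.j d⁻¹ * (S.c0 * u * γ⁻¹) := by rw [← h2, map_inv]
    _ = (S.j d⁻¹ * S.c0) * u * γ⁻¹ := by group
    _ = (a * c) * γ⁻¹ := by rw [← h1, h']
    _ = a * (c * γ⁻¹) := by group

/-- auxiliary: `δ_u(d) = c0⁻¹ [α, d] c0` -/
private theorem Gam_delta_eq {u α γ : H} (hγ : γ ∈ S.C) (h : S.c0 * u = α * γ) (d : 𝔻) :
    S.delta u d = (S.c0)⁻¹ * (α * S.j d * α⁻¹ * (S.j d)⁻¹) * S.c0 := by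
  have h1 : S.c0 * (S.j d)⁻¹ = (S.j d)⁻¹ * S.c0 := S.cC _ S.hc0 _ (inv_mem (S.jC _))
  have h2 : γ * S.j d = S.j d * γ := S.cC _ hγ _ (S.jC _)
  have h3 : u = (S.c0)⁻¹ * (α * γ) := by rw [← h]; group
  unfold delta
  calc u * S.j d * u⁻¹ * (S.j d)⁻¹
      = (S.c0)⁻¹ * (α * γ) * S.j d * ((S.c0)⁻¹ * (α * γ))⁻¹ * (S.j d)⁻¹ := by rw [← h3]
    _ = (S.c0)⁻¹ * α * (γ * S.j d) * γ⁻¹ * α⁻¹ * (S.c0 * (S.j d)⁻¹) := by group
    _ = (S.c0)⁻¹ * (α * S.j d * α⁻¹ * (S.j d)⁻¹) * S.c0 := by rw [h1, h2]; group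

/-- PROOF. By `hK` with `d = 1`: `c0 u = α γ`, `c0 v = β γ'` with `α, β ∈ A`, `γ, γ' ∈ C`.
For every `d : 𝔻`: `c0 d u = d c0 u = d α γ` (`C` is commutative) lies in `A C` by `hK`, so
`d α ∈ A C` for all `d : 𝔻`, hence also `d⁻¹ α ∈ A C` (use `j d⁻¹ = (j d)⁻¹`);
the same for `β`. By `ito` the elements `[α, d]` and `[β, e]` commute. Finally
`u d u⁻¹ = c0⁻¹ α γ d γ⁻¹ α⁻¹ c0 = c0⁻¹ α d α⁻¹ c0`, so
`δ_u(d) = c0⁻¹ [α, d] c0` (`c0` commutes with `d`) and `δ_v(e) = c0⁻¹ [β, e] c0`. -/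
theorem delta_comm {u v : H} (hu : u ∈ S.U) (hv : v ∈ S.U) (d e : 𝔻) :
    Commute (S.delta u d) (S.delta v e) := by
  obtain ⟨α, hα, γ, hγ, h1⟩ := Gam_decomp S hu
  obtain ⟨β, hβ, γ', hγ', h2⟩ := Gam_decomp S hv
  have hd1 := Gam_inv_mul S hv hγ' h2 d
  have he1 := Gam_inv_mul S hu hγ h1 e
  have key := ito S.cA S.cC (S.jC d) (S.jC e) hα hβ hd1 he1
  rw [Gam_delta_eq S hγ h1 d, Gam_delta_eq S hγ' h2 e]
  have := (Commute.conj_iff (S.c0)⁻¹).2 key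
  simpa only [inv_inv] using this

/-- PROOF. The generators commute by `delta_comm`; closure induction twice (e.g.
`Subgroup.closure_induction`, or: `closure k ≤ centralizer k`, then
`closure k ≤ centralizer (closure k)`). -/
theorem V_comm : ∀ x ∈ S.V, ∀ y ∈ S.V, x * y = y * x := by
  have h1 : S.V ≤ Subgroup.centralizer {x | ∃ u ∈ S.U, ∃ d : 𝔻, x = S.delta u d} := by
    unfold V
    rw [Subgroup.closure_le]
    rintro x ⟨u, hu, d, rfl⟩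
    rw [SetLike.mem_coe, Subgroup.mem_centralizer_iff]
    rintro y ⟨v, hv, e, rfl⟩
    exact delta_comm S hv hu e d
  have h2 : S.V ≤ Subgroup.centralizer (S.V : Set H) := by
    conv_lhs => unfold V
    rw [Subgroup.closure_le]
    intro x hx
    rw [SetLike.mem_coe, Subgroup.mem_centralizer_iff]
    intro y hy
    exact ((Subgroup.mem_centralizer_iff.1 (h1 hy)) x hx).symm
  intro x hx y hy
  exact ((Subgroup.mem_centralizer_iff.1 (h2 hx)) y hy).symm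

theorem delta_mem_V {u : H} (hu : u ∈ S.U) (d : 𝔻) : S.delta u d ∈ S.V :=
  Subgroup.subset_closure ⟨u, hu, d, rfl⟩

/-- PROOF. `d δ_u(e) d⁻¹ = δ_u(d)⁻¹ δ_u(d e)`, so conjugation by `d` maps the generators of `V`
into `V`; closure induction. -/
theorem D_norm_V (d : 𝔻) : ∀ x ∈ S.V, S.j d * x * (S.j d)⁻¹ ∈ S.V := by
  have h : S.V ≤ S.V.comap (MulAut.conj (S.j d)).toMonoidHom := by
    conv_lhs => unfold V
    rw [Subgroup.closure_le]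
    rintro x ⟨u, hu, e, rfl⟩
    change S.j d * S.delta u e * (S.j d)⁻¹ ∈ S.V
    have h1 : S.j d * S.delta u e * (S.j d)⁻¹ = (S.delta u d)⁻¹ * S.delta u (d * e) := by
      unfold delta
      rw [map_mul]
      group
    rw [h1]
    exact mul_mem (inv_mem (delta_mem_V S hu d)) (delta_mem_V S hu (d * e))
  intro x hx
  exact h hx

/-- PROOF. Take `u = 1` in the generators of `Gam`. -/
theorem j_mem_Gam (d : 𝔻) : S.j d ∈ S.Gam := by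
  apply Subgroup.subset_closure
  exact ⟨1, S.oneU, d, by group⟩

/-- PROOF. `δ_u(d) = (u d u⁻¹) (1 d 1⁻¹)⁻¹`, `1 ∈ U`. -/
theorem V_le_Gam : S.V ≤ S.Gam := by
  unfold V
  rw [Subgroup.closure_le]
  rintro x ⟨u, hu, d, rfl⟩
  unfold delta
  exact mul_mem (Subgroup.subset_closure ⟨u, hu, d, rfl⟩) (inv_mem (j_mem_Gam S d))

/-- PROOF. `V * j(𝔻)` is a subgroup since `D_norm_V` (and `j` is a homomorphism); it contains the
generators `u d u⁻¹ = δ_u(d) d`. Conversely use `V_le_Gam`, `j_mem_Gam`. -/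
theorem mem_Gam (x : H) : x ∈ S.Gam ↔ ∃ v ∈ S.V, ∃ d : 𝔻, x = v * S.j d := by
  constructor
  · intro hx
    unfold Gam at hx
    induction hx using Subgroup.closure_induction with
    | mem x hx =>
      obtain ⟨u, hu, d, rfl⟩ := hx
      refine ⟨S.delta u d, delta_mem_V S hu d, d, ?_⟩
      unfold delta
      group
    | one => exact ⟨1, one_mem _, 1, by rw [map_one, mul_one]⟩
    | mul x y _ _ hx hy =>
      obtain ⟨v, hv, d, rfl⟩ := hx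
      obtain ⟨w, hw, e, rfl⟩ := hy
      refine ⟨v * (S.j d * w * (S.j d)⁻¹), mul_mem hv (D_norm_V S d w hw), d * e, ?_⟩
      rw [map_mul]
      group
    | inv x _ hx =>
      obtain ⟨v, hv, d, rfl⟩ := hx
      refine ⟨S.j d⁻¹ * v⁻¹ * (S.j d⁻¹)⁻¹, D_norm_V S d⁻¹ _ (inv_mem hv), d⁻¹, ?_⟩
      rw [map_inv]
      group
  · rintro ⟨v, hv, d, rfl⟩
    exact mul_mem (V_le_Gam S hv) (j_mem_Gam S d)

/-- PROOF. For a generator `u d u⁻¹` of `Gam` and `g ∈ G` choose (by `hUB` applied to `g u ∈ G`,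
`u ∈ G` by `hUG`) `b ∈ B ∩ G` with `u' = g u b ∈ U`. Then
`g (u d u⁻¹) g⁻¹ = u' (b⁻¹ d b) u'⁻¹` and `b⁻¹ d b = j d'` by `jB` (for `b⁻¹`). Closure induction. -/
theorem G_norm_Gam : ∀ g ∈ S.G, ∀ x ∈ S.Gam, g * x * g⁻¹ ∈ S.Gam := by
  intro g hg
  have h : S.Gam ≤ S.Gam.comap (MulAut.conj g).toMonoidHom := by
    conv_lhs => unfold Gam
    rw [Subgroup.closure_le]
    rintro x ⟨u, hu, d, rfl⟩
    change g * (u * S.j d * u⁻¹) * g⁻¹ ∈ S.Gam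
    obtain ⟨b, hbB, hbG, hb⟩ := S.hUB (g * u) (mul_mem hg (S.hUG hu))
    obtain ⟨d', hd'⟩ := S.jB b⁻¹ (inv_mem hbB) d
    have h1 : g * (u * S.j d * u⁻¹) * g⁻¹
        = (g * u * b) * (b⁻¹ * S.j d * b⁻¹⁻¹) * (g * u * b)⁻¹ := by group
    rw [h1, hd']
    exact Subgroup.subset_closure ⟨g * u * b, hb, d', rfl⟩
  intro x hx
  exact h hx

end Core

end Pool.Agent.AO
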