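import Pool.Agent.AO.Act

/-!
# Identities for the action of `G` on `V` (module AO-Ident)

All statements are proved by applying the injective map `ι` and computing in the group `H`;
recall that `ι x` and `ι y` commute (`T.ι_comm`).
-/

set_option autoImplicit false

namespace Pool.Agent.AO

namespace TData

variable {H : Type*} [Group H] {𝔻 : Type*} [CommGroup 𝔻] {Q : Type*} [Fintype Q]
variable {S : Core H 𝔻 Q} {M : Type*} [AddCommGroup M] (T : TData S M)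

theorem G1_le : T.G1 ≤ S.G := fun g hg => ((T.mem_G1 g).1 hg).1

/-- PROOF. `hUG` and `Core.delta_mem_V`. -/
theorem U_G1 : ∀ u ∈ S.U, u ∈ T.G1 := by
  intro u hu
  rw [T.mem_G1]
  exact ⟨S.hUG hu, fun d => S.delta_mem_V hu d⟩

/-- PROOF. `c d c⁻¹ d⁻¹ = 1 ∈ V` for `c ∈ C` (`cC`, `jC`). -/
theorem C_G1 : ∀ c ∈ S.C, c ∈ S.G → c ∈ T.G1 := by
  intro c hc hcG
  rw [T.mem_G1]
  refine ⟨hcG, fun d => ?_⟩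
  have h1 : c * S.j d * c⁻¹ * (S.j d)⁻¹ = 1 := by
    rw [S.cC c hc _ (S.jC d)]
    group
  rw [h1]
  exact one_mem _

/-- For `h ∈ G1` and `x ∈ Gam`: `h x h⁻¹ x⁻¹ ∈ V`.
PROOF. `x = v e` (`mem_Gam`); `h v e h⁻¹ e⁻¹ v⁻¹ = (h v h⁻¹) (h e h⁻¹ e⁻¹) v⁻¹ ∈ V`. -/
theorem G1_Gam {h : H} (hh : h ∈ T.G1) : ∀ x ∈ S.Gam, h * x * h⁻¹ * x⁻¹ ∈ S.V := by
  intro x hx
  obtain ⟨v, hv, d, rfl⟩ := (S.mem_Gam x).1 hx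
  obtain ⟨hG, hd⟩ := (T.mem_G1 h).1 hh
  have h1 : h * (v * S.j d) * h⁻¹ * (v * S.j d)⁻¹ =
      (h * v * h⁻¹) * (h * S.j d * h⁻¹ * (S.j d)⁻¹) * v⁻¹ := by group
  rw [h1]
  exact mul_mem (mul_mem (T.V_norm h hG v hv) (hd d)) (inv_mem hv)

/-- PROOF. For `g ∈ G`, `h ∈ G1`, `d : 𝔻`: `x = g⁻¹ d g ∈ Gam` (`G_norm_Gam`), and
`(g h g⁻¹) d (g h g⁻¹)⁻¹ d⁻¹ = g (h x h⁻¹ x⁻¹) g⁻¹ ∈ V` by `G1_Gam`, `V_norm`. -/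
theorem G1_normal : ∀ g ∈ S.G, ∀ h ∈ T.G1, g * h * g⁻¹ ∈ T.G1 := by
  intro g hg h hh
  have hG : h ∈ S.G := T.G1_le hh
  rw [T.mem_G1]
  refine ⟨mul_mem (mul_mem hg hG) (inv_mem hg), fun d => ?_⟩
  have hx : g⁻¹ * S.j d * (g⁻¹)⁻¹ ∈ S.Gam := S.G_norm_Gam g⁻¹ (inv_mem hg) _ (S.j_mem_Gam d)
  have h1 := T.V_norm g hg _ (T.G1_Gam hh _ hx)
  have h2 : g * h * g⁻¹ * S.j d * (g * h * g⁻¹)⁻¹ * (S.j d)⁻¹ =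
      g * (h * (g⁻¹ * S.j d * (g⁻¹)⁻¹) * h⁻¹ * (g⁻¹ * S.j d * (g⁻¹)⁻¹)⁻¹) * g⁻¹ := by group
  rw [h2]
  exact h1

/-- PROOF. `hUB` and `U_G1`. -/
theorem G_G1 : ∀ g ∈ S.G, ∃ b ∈ S.B, b ∈ S.G ∧ g * b ∈ T.G1 := by
  intro g hg
  obtain ⟨b, hb, hbG, hgb⟩ := S.hUB g hg
  exact ⟨b, hb, hbG, T.U_G1 _ hgb⟩

/-- PROOF. `DData.gen` with `U_G1` (`δ_spec`: `ι (δ u d) = S.delta u d`). -/
theorem gen' (N : AddSubgroup M) (h : ∀ g ∈ T.G1, ∀ d, T.δ g d ∈ N) : N = ⊤ := by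
  refine T.toDData.gen N fun u hu d => ⟨T.δ u d, h u (T.U_G1 u hu) d, ?_⟩
  rw [T.δ_spec u (T.U_G1 u hu) d]
  rfl

theorem act_mul {g h : H} (hg : g ∈ S.G) (hh : h ∈ S.G) : T.act (g * h) = T.act g * T.act h := by
  refine LinearMap.ext fun v => T.ι_inj ?_
  rw [T.act_spec _ (mul_mem hg hh), Module.End.mul_apply, T.act_spec g hg, T.act_spec h hh]
  group

theorem act_one : T.act 1 = 1 := by
  refine LinearMap.ext fun v => T.ι_inj ?_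
  rw [T.act_spec 1 (one_mem _), Module.End.one_apply]
  group

/-- I1. `g d e g⁻¹ e⁻¹ d⁻¹ = (g d g⁻¹ d⁻¹) · d (g e g⁻¹ e⁻¹) d⁻¹`. -/
theorem δ_mul {g : H} (hg : g ∈ T.G1) (d e : 𝔻) :
    T.δ g (d * e) = T.δ g d + T.ρ d (T.δ g e) := by
  apply T.ι_inj
  rw [T.ι_add, T.ρ_spec, T.δ_spec g hg, T.δ_spec g hg, T.δ_spec g hg, map_mul]
  group

/-- I2. From `δ_mul` and `d e = e d`. -/
theorem δ_swap {g : H} (hg : g ∈ T.G1) (d e : 𝔻) :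
    T.δ g e - T.ρ d (T.δ g e) = T.δ g d - T.ρ e (T.δ g d) := by
  have h1 := T.δ_mul hg d e
  have h2 := T.δ_mul hg e d
  rw [mul_comm e d, h1] at h2
  rw [sub_eq_sub_iff_add_eq_add]
  exact h2.symm

/-- I3. `g h d h⁻¹ g⁻¹ d⁻¹ = g (h d h⁻¹ d⁻¹) g⁻¹ · (g d g⁻¹ d⁻¹)`. -/
theorem δ_comp {g h : H} (hg : g ∈ T.G1) (hh : h ∈ T.G1) (d : 𝔻) :
    T.δ (g * h) d = T.act g (T.δ h d) + T.δ g d := by
  apply T.ι_inj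
  rw [T.ι_add, T.act_spec g (T.G1_le hg), T.δ_spec g hg, T.δ_spec h hh,
    T.δ_spec _ (mul_mem hg hh)]
  group

/-- I5. `g ∈ G1` acts on `V` commuting with `𝔻`:
`g (d v d⁻¹) g⁻¹ = (g d g⁻¹) (g v g⁻¹) (g d g⁻¹)⁻¹` and `g d g⁻¹ = ι (δ g d) d`, `V` commutative. -/
theorem act_ρ_G1 {g : H} (hg : g ∈ T.G1) (d : 𝔻) (v : M) :
    T.act g (T.ρ d v) = T.ρ d (T.act g v) := by
  apply T.ι_inj
  have hc := T.ι_comm (T.δ g d) (T.ρ d (T.act g v))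
  have h1 : T.ι (T.act g (T.ρ d v)) =
      T.ι (T.δ g d) * T.ι (T.ρ d (T.act g v)) * (T.ι (T.δ g d))⁻¹ := by
    rw [T.act_spec g (T.G1_le hg), T.ρ_spec, T.δ_spec g hg, T.ρ_spec,
      T.act_spec g (T.G1_le hg)]
    group
  rw [h1, hc, mul_inv_cancel_right]

/-- I6. For `b ∈ B ∩ G`, `j d' = b d b⁻¹`: `b (d v d⁻¹) b⁻¹ = d' (b v b⁻¹) d'⁻¹`. -/
theorem act_ρ_B {b : H} (hbG : b ∈ S.G) {d d' : 𝔻} (hd : S.j d' = b * S.j d * b⁻¹)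
    (v : M) : T.act b (T.ρ d v) = T.ρ d' (T.act b v) := by
  apply T.ι_inj
  rw [T.act_spec b hbG, T.ρ_spec, T.ρ_spec, T.act_spec b hbG, hd]
  group

/-- I7. For `a ∈ A ∩ G`, `b ∈ B ∩ G`, `a b ∈ G1` and `j d = b d' b⁻¹`:
`a (d v) = d' (a v)`. PROOF. `a = (a b) b⁻¹`; use `act_mul`, `act_ρ_B` for `b⁻¹`
(`j d' = b⁻¹ d b`), `act_ρ_G1` for `a b`. -/
theorem act_ρ_A {a b : H} (haG : a ∈ S.G) (hbG : b ∈ S.G) (hab : a * b ∈ T.G1) {d d' : 𝔻}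
    (hd : S.j d = b * S.j d' * b⁻¹) (v : M) : T.act a (T.ρ d v) = T.ρ d' (T.act a v) := by
  have hA : T.act a = T.act (a * b) * T.act b⁻¹ := by
    rw [← T.act_mul (mul_mem haG hbG) (inv_mem hbG), mul_inv_cancel_right]
  have hd' : S.j d' = b⁻¹ * S.j d * (b⁻¹)⁻¹ := by
    rw [hd]
    group
  rw [hA, Module.End.mul_apply, Module.End.mul_apply, T.act_ρ_B (inv_mem hbG) hd',
    T.act_ρ_G1 hab]

/-- (*) For `a0 ∈ A ∩ G1`, `a ∈ A ∩ G`, `b ∈ B ∩ G` with `a b ∈ G1` and `j d' = b d b⁻¹`: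
`a δ_{a0}(d') = a0 δ_{ab}(d) - δ_{ab}(d) + δ_{a0}(d)`.
PROOF. Let `g = a b`. `a0 g = g (b⁻¹ a0 b)` (as `a0 a = a a0`), `b⁻¹ a0 b ∈ G1` (`G1_normal`).
By `δ_comp`: `δ_{a0 g}(d) = a0 δ_g(d) + δ_{a0}(d)` and
`δ_{g (b⁻¹ a0 b)}(d) = g δ_{b⁻¹ a0 b}(d) + δ_g(d)`. Finally
`δ_{b⁻¹ a0 b}(d) = b⁻¹ (a0 d' a0⁻¹ d'⁻¹) b = act b⁻¹ (δ_{a0}(d'))`, and `act g ∘ act b⁻¹ = act a`. -/
theorem star {a0 a b : H} (ha0A : a0 ∈ S.A) (ha0 : a0 ∈ T.G1) (haA : a ∈ S.A) (haG : a ∈ S.G)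
    (hbB : b ∈ S.B) (hbG : b ∈ S.G) (hab : a * b ∈ T.G1) {d d' : 𝔻}
    (hd : S.j d' = b * S.j d * b⁻¹) :
    T.act a (T.δ a0 d') = T.act a0 (T.δ (a * b) d) - T.δ (a * b) d + T.δ a0 d := by
  have hk : b⁻¹ * a0 * (b⁻¹)⁻¹ ∈ T.G1 := T.G1_normal b⁻¹ (inv_mem hbG) a0 ha0
  have hA : T.act a = T.act (a * b) * T.act b⁻¹ := by
    rw [← T.act_mul (mul_mem haG hbG) (inv_mem hbG), mul_inv_cancel_right]
  have hmul : a0 * (a * b) = a * b * (b⁻¹ * a0 * (b⁻¹)⁻¹) := by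
    rw [← mul_assoc, S.cA a0 ha0A a haA]
    group
  have h1 := T.δ_comp ha0 hab d
  have h2 := T.δ_comp hab hk d
  rw [hmul, h2] at h1
  have h3 : T.δ (b⁻¹ * a0 * (b⁻¹)⁻¹) d = T.act b⁻¹ (T.δ a0 d') := by
    apply T.ι_inj
    rw [T.act_spec b⁻¹ (inv_mem hbG), T.δ_spec a0 ha0, T.δ_spec _ hk, hd]
    group
  rw [h3, ← Module.End.mul_apply, ← hA] at h1
  rw [eq_sub_of_add_eq h1]
  abel

end TData

end Pool.Agent.AO
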