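import Pool.Agent.AO.Defs

/-!
# Ito's calculation (complete)
-/

set_option autoImplicit false

namespace Pool.Agent.AO

variable {H : Type*} [Group H] {A C : Subgroup H}

/-- Ito's calculation: if `d⁻¹ β` and `e⁻¹ α` lie in `A C` then `[α, d]` and `[β, e]` commute. -/
theorem ito (hA : ∀ x ∈ A, ∀ y ∈ A, x * y = y * x) (hC : ∀ x ∈ C, ∀ y ∈ C, x * y = y * x)
    {d e α β : H} (hd : d ∈ C) (he : e ∈ C) (hα : α ∈ A) (hβ : β ∈ A)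
    (h1 : ∃ a ∈ A, ∃ c ∈ C, d⁻¹ * β = a * c) (h2 : ∃ a ∈ A, ∃ c ∈ C, e⁻¹ * α = a * c) :
    Commute (α * d * α⁻¹ * d⁻¹) (β * e * β⁻¹ * e⁻¹) := by
  obtain ⟨x, hx, y, hy, h1⟩ := h1
  obtain ⟨z, hz, w, hw, h2⟩ := h2
  -- Y X Y⁻¹ = X with X = [α,d], Y = [β,e] = β * (e β⁻¹ e⁻¹)
  have e1 : β⁻¹ * e⁻¹ * (α * d * α⁻¹ * d⁻¹) * e * β = z * y⁻¹ * z⁻¹ * y := by
    have c1 : d⁻¹ * e = e * d⁻¹ := hC _ (inv_mem hd) _ he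
    have c3 : β⁻¹ * z = z * β⁻¹ := hA _ (inv_mem hβ) _ hz
    have c2 : w * d = d * w := hC _ hw _ hd
    calc β⁻¹ * e⁻¹ * (α * d * α⁻¹ * d⁻¹) * e * β
        = β⁻¹ * (e⁻¹ * α) * d * α⁻¹ * (d⁻¹ * e) * β := by group
      _ = β⁻¹ * (e⁻¹ * α) * d * (e⁻¹ * α)⁻¹ * (d⁻¹ * β) := by rw [c1]; group
      _ = β⁻¹ * (z * w) * d * (z * w)⁻¹ * (x * y) := by rw [h1, h2]
      _ = β⁻¹ * z * (w * d) * w⁻¹ * z⁻¹ * (x * y) := by group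
      _ = z * β⁻¹ * d * z⁻¹ * (x * y) := by rw [c2, c3]; group
      _ = z * (d⁻¹ * β)⁻¹ * (z⁻¹ * x) * y := by group
      _ = z * (x * y)⁻¹ * (x * z⁻¹) * y := by rw [h1, hA _ (inv_mem hz) _ hx]
      _ = z * y⁻¹ * z⁻¹ * y := by group
  have e2 : e⁻¹ * β⁻¹ * (α * d * α⁻¹ * d⁻¹) * β * e = z * y⁻¹ * z⁻¹ * y := by
    have c1 : β⁻¹ * α = α * β⁻¹ := hA _ (inv_mem hβ) _ hα
    have c4 : α⁻¹ * x = x * α⁻¹ := hA _ (inv_mem hα) _ hx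
    have c5 : y * e = e * y := hC _ hy _ he
    have c6 : w * y⁻¹ = y⁻¹ * w := hC _ hw _ (inv_mem hy)
    calc e⁻¹ * β⁻¹ * (α * d * α⁻¹ * d⁻¹) * β * e
        = e⁻¹ * (β⁻¹ * α) * d * α⁻¹ * (d⁻¹ * β) * e := by group
      _ = e⁻¹ * (α * β⁻¹) * d * α⁻¹ * (x * y) * e := by rw [c1, h1]
      _ = e⁻¹ * α * (d⁻¹ * β)⁻¹ * (α⁻¹ * x) * y * e := by group
      _ = e⁻¹ * α * (x * y)⁻¹ * (x * α⁻¹) * y * e := by rw [h1, c4]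
      _ = (e⁻¹ * α) * y⁻¹ * α⁻¹ * (y * e) := by group
      _ = (e⁻¹ * α) * y⁻¹ * (e⁻¹ * α)⁻¹ * y := by rw [c5]; group
      _ = (z * w) * y⁻¹ * (z * w)⁻¹ * y := by rw [h2]
      _ = z * (w * y⁻¹) * w⁻¹ * z⁻¹ * y := by group
      _ = z * y⁻¹ * z⁻¹ * y := by rw [c6]; group
  have e3 : β⁻¹ * e⁻¹ * (α * d * α⁻¹ * d⁻¹) * e * β
      = e⁻¹ * β⁻¹ * (α * d * α⁻¹ * d⁻¹) * β * e := e1.trans e2.symm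
  -- so X commutes with (e β e⁻¹ β⁻¹) and conjugates
  have e4 : (α * d * α⁻¹ * d⁻¹) * (e * β * e⁻¹ * β⁻¹)
      = (e * β * e⁻¹ * β⁻¹) * (α * d * α⁻¹ * d⁻¹) := by
    have := congrArg (fun t => e * β * t * e⁻¹ * β⁻¹) e3
    calc (α * d * α⁻¹ * d⁻¹) * (e * β * e⁻¹ * β⁻¹)
        = e * β * (β⁻¹ * e⁻¹ * (α * d * α⁻¹ * d⁻¹) * e * β) * e⁻¹ * β⁻¹ := by group
      _ = e * β * (e⁻¹ * β⁻¹ * (α * d * α⁻¹ * d⁻¹) * β * e) * e⁻¹ * β⁻¹ := this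
      _ = (e * β * e⁻¹ * β⁻¹) * (α * d * α⁻¹ * d⁻¹) := by group
  have e5 : Commute (α * d * α⁻¹ * d⁻¹) (e * β * e⁻¹ * β⁻¹) := e4
  have e6 : β * e * β⁻¹ * e⁻¹ = (e * β * e⁻¹ * β⁻¹)⁻¹ := by group
  rw [e6]
  exact e5.inv_right

end Pool.Agent.AO
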