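import Pool.Agent.AO.VSol
import Pool.Agent.helper45.AB2.Red

/-!
# Reduction to prime groups (module AO-Reduction)

The reduction works for every class of groups `G` with two abelian subgroups `A`, `C` such that `G`
is a finite union of double cosets `A t C`, if the class is closed under quotients.
-/

set_option autoImplicit false

universe u

namespace Pool.Agent.AO

open scoped commutatorElement

/-- The second derived group of a subgroup, computed in the big group. -/
private theorem Reduction_derived_iff {G : Type*} [Group G] (N : Subgroup G) :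
    derivedSeries N 2 = ⊥ ↔ ⁅⁅N, N⁆, ⁅N, N⁆⁆ = ⊥ := by
  have h6 : (derivedSeries N 2).map N.subtype = ⁅⁅N, N⁆, ⁅N, N⁆⁆ := by
    rw [derivedSeries_succ, derivedSeries_succ, derivedSeries_zero, Subgroup.map_commutator,
      Subgroup.map_commutator, ← MonoidHom.range_eq_map, Subgroup.range_subtype]
  rw [← h6, Subgroup.map_eq_bot_iff_of_injective _ N.subtype_injective]

/-- If `x` commutes with all conjugates of `y` then the normal closures commute. -/
private theorem Reduction_commute {G : Type*} [Group G] (x y : G)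
    (h : ∀ g : G, Commute x (g * y * g⁻¹)) :
    ∀ u ∈ Subgroup.normalClosure {x}, ∀ v ∈ Subgroup.normalClosure {y}, u * v = v * u := by
  have h1 : Subgroup.normalClosure {y} ≤ Subgroup.centralizer {x} := by
    rw [Subgroup.normalClosure, Subgroup.closure_le]
    intro z hz
    rw [Group.mem_conjugatesOfSet_iff] at hz
    obtain ⟨w, hw, hwz⟩ := hz
    rw [Set.mem_singleton_iff] at hw
    subst hw
    obtain ⟨g, rfl⟩ := isConj_iff.1 hwz
    rw [SetLike.mem_coe, Subgroup.mem_centralizer_iff]
    rintro _ rfl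
    exact h g
  have h2 : Subgroup.normalClosure {x} ≤
      Subgroup.centralizer (Subgroup.normalClosure {y} : Set G) := by
    have hn : (Subgroup.centralizer (Subgroup.normalClosure {y} : Set G)).Normal := inferInstance
    refine Subgroup.normalClosure_le_normal ?_
    rintro _ rfl
    rw [SetLike.mem_coe, Subgroup.mem_centralizer_iff]
    intro v hv
    have h3 := h1 hv
    rw [Subgroup.mem_centralizer_iff] at h3
    exact (h3 _ rfl).symm
  intro u hu v hv
  have h4 := h2 hu
  rw [Subgroup.mem_centralizer_iff] at h4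
  exact (h4 v hv).symm

/-- A normal subgroup contained in the set `A C` (`A`, `C` abelian) is soluble.
PROOF. Let `HH = Pool.Agent.helper45.AB2.HH A C` be the right stabiliser of the set `A C`. If `n ∈ N`
then `n ∈ HH`: for `x = a c`, `x n = a (c n c⁻¹) c` and `c n c⁻¹ ∈ N ⊆ A C`, `c n c⁻¹ = a' c'`, so
`x n = (a a') (c' c) ∈ A C`; the converse with `n⁻¹`. So `N ≤ HH`, and `HH` is soluble by
`helper45.AB2.ito_local`, `HH_sub`, `C_le_HH`. -/
theorem isSolvable_of_le {G : Type*} [Group G] (A C N : Subgroup G) [N.Normal]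
    (hA : ∀ x ∈ A, ∀ y ∈ A, x * y = y * x) (hC : ∀ x ∈ C, ∀ y ∈ C, x * y = y * x)
    (hN : ∀ n ∈ N, ∃ a ∈ A, ∃ c ∈ C, n = a * c) : derivedSeries N 2 = ⊥ := by
  rw [Reduction_derived_iff, eq_bot_iff]
  have h1 : N ≤ Pool.Agent.helper45.AB2.HH A C := by
    have h2 : ∀ n ∈ N, ∀ x, Pool.Agent.helper45.AB2.InP A C x →
        Pool.Agent.helper45.AB2.InP A C (x * n) := by
      rintro n hn _ ⟨a, ha, c, hc, rfl⟩
      obtain ⟨a', ha', c', hc', h⟩ := hN (c * n * c⁻¹) (Subgroup.Normal.conj_mem ‹_› n hn c)
      refine ⟨a * a', A.mul_mem ha ha', c' * c, C.mul_mem hc' hc, ?_⟩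
      have e : a * a' * (c' * c) = a * (a' * c') * c := by group
      rw [e, ← h]; group
    intro n hn
    rw [Pool.Agent.helper45.AB2.mem_HH]
    intro x
    refine ⟨h2 n hn x, fun h => ?_⟩
    have := h2 n⁻¹ (N.inv_mem hn) _ h
    rwa [mul_inv_cancel_right] at this
  have h5 : derivedSeries (Pool.Agent.helper45.AB2.HH A C) 2 = ⊥ :=
    Pool.Agent.helper45.AB2.ito_local (fun g hg => Pool.Agent.helper45.AB2.HH_sub hg)
      Pool.Agent.helper45.AB2.C_le_HH hA hC
  rw [Reduction_derived_iff] at h5
  rw [← h5]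
  exact Subgroup.commutator_mono (Subgroup.commutator_mono h1 h1) (Subgroup.commutator_mono h1 h1)

/-- PROOF. If `ν ∈ N`, `ν ∉ A C`. Let `ν ∈ A t C`, `1 ∈ A t' C` with `t, t' ∈ T`; `t ≠ t'` since
otherwise `A t C = A C ∋ ν`. In `G / N`: `1 = ν`, so the double cosets of `t` and `t'` agree, and the
image of `T \ {t}` covers `G / N`. -/
theorem cover_quotient {G : Type*} [Group G] (A C N : Subgroup G) [N.Normal] (T : Finset G)
    (hT : ∀ g : G, ∃ a ∈ A, ∃ t ∈ T, ∃ c ∈ C, g = a * t * c) (ν : G) (hν : ν ∈ N)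
    (hν' : ¬ ∃ a ∈ A, ∃ c ∈ C, ν = a * c) :
    ∃ T' : Finset (G ⧸ N), T'.card < T.card ∧
      ∀ g : G ⧸ N, ∃ a ∈ A.map (QuotientGroup.mk' N), ∃ t ∈ T',
        ∃ c ∈ C.map (QuotientGroup.mk' N), g = a * t * c := by
  classical
  obtain ⟨a0, ha0, t, ht, c0, hc0, h0⟩ := hT ν
  obtain ⟨a1, ha1, t', ht', c1, hc1, h1⟩ := hT 1
  have htt : t' ≠ t := by
    rintro rfl
    apply hν'
    have e : t' = a1⁻¹ * c1⁻¹ := by
      have : a1⁻¹ * 1 * c1⁻¹ = t' := by rw [h1]; group
      rw [← this]; group
    refine ⟨a0 * a1⁻¹, mul_mem ha0 (inv_mem ha1), c1⁻¹ * c0, mul_mem (inv_mem hc1) hc0, ?_⟩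
    rw [h0, e]; group
  refine ⟨(T.erase t).image (QuotientGroup.mk' N), ?_, ?_⟩
  · exact lt_of_le_of_lt Finset.card_image_le (Finset.card_erase_lt_of_mem ht)
  · intro g
    obtain ⟨g, rfl⟩ := QuotientGroup.mk'_surjective N g
    obtain ⟨a, ha, s, hs, c, hc, hg⟩ := hT g
    by_cases hst : s = t
    · subst hst
      refine ⟨_, Subgroup.mem_map_of_mem _ (mul_mem (mul_mem ha (inv_mem ha0)) ha1), _,
        Finset.mem_image_of_mem _ (Finset.mem_erase.2 ⟨htt, ht'⟩), _,
        Subgroup.mem_map_of_mem _ (mul_mem (mul_mem hc1 (inv_mem hc0)) hc), ?_⟩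
      rw [← map_mul, ← map_mul, QuotientGroup.mk'_apply, QuotientGroup.mk'_apply,
        QuotientGroup.eq]
      -- (a s c)⁻¹ (a a0⁻¹ a1 t' c1 c0⁻¹ c)
      have e : g⁻¹ * (a * a0⁻¹ * a1 * t' * (c1 * c0⁻¹ * c)) = c⁻¹ * c0 * ν⁻¹ * (c⁻¹ * c0)⁻¹ := by
        have e1 : a1 * t' * c1 = 1 := h1.symm
        calc g⁻¹ * (a * a0⁻¹ * a1 * t' * (c1 * c0⁻¹ * c))
            = c⁻¹ * s⁻¹ * a0⁻¹ * (a1 * t' * c1) * c0⁻¹ * c := by rw [hg]; group
          _ = c⁻¹ * c0 * (a0 * s * c0)⁻¹ * (c⁻¹ * c0)⁻¹ := by rw [e1]; group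
          _ = _ := by rw [← h0]
      rw [e]
      exact Subgroup.Normal.conj_mem ‹_› _ (inv_mem hν) _
    · refine ⟨_, Subgroup.mem_map_of_mem _ ha, _,
        Finset.mem_image_of_mem _ (Finset.mem_erase.2 ⟨hst, hs⟩), _,
        Subgroup.mem_map_of_mem _ hc, ?_⟩
      rw [← map_mul, ← map_mul, hg]

/-- If all soluble normal subgroups of `G` have trivial second derived group then there is a largest one.
PROOF. Let `R` be the set of `x ∈ G` contained in some soluble normal subgroup. It is a normal subgroup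
(`isSolvable_sup`), and `derivedSeries R 2 = ⊥`: the derived group of `R` is
generated by commutators `[x, y]`, and for `x, y, z, w ∈ R` there is one soluble normal subgroup
containing all four, so `[x, y]` commutes with `[z, w]`. -/
theorem exists_largest {G : Type*} [Group G]
    (h : ∀ N : Subgroup G, N.Normal → IsSolvable N → derivedSeries N 2 = ⊥) :
    ∃ R : Subgroup G, R.Normal ∧ IsSolvable R ∧ ∀ N : Subgroup G, N.Normal → IsSolvable N → N ≤ R := by
  have hsup : ∀ N M : Subgroup G, N.Normal → M.Normal → IsSolvable N → IsSolvable M →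
      (N ⊔ M).Normal ∧ IsSolvable (N ⊔ M : Subgroup G) := by
    intro N M hN hM hN' hM'
    exact ⟨Subgroup.sup_normal N M, isSolvable_sup N M hN' hM'⟩
  let R : Subgroup G :=
    { carrier := {x | ∃ N : Subgroup G, N.Normal ∧ IsSolvable N ∧ x ∈ N}
      one_mem' := ⟨⊥, inferInstance,
        (inferInstance : Group.IsSolvable (⊥ : Subgroup G)), Subgroup.one_mem _⟩
      mul_mem' := by
        rintro x y ⟨N, hN, hN', hx⟩ ⟨M, hM, hM', hy⟩
        obtain ⟨h1, h2⟩ := hsup N M hN hM hN' hM'
        exact ⟨N ⊔ M, h1, h2, mul_mem (Subgroup.mem_sup_left hx) (Subgroup.mem_sup_right hy)⟩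
      inv_mem' := by
        rintro x ⟨N, hN, hN', hx⟩
        exact ⟨N, hN, hN', inv_mem hx⟩ }
  have memR : ∀ x, x ∈ R ↔ ∃ N : Subgroup G, N.Normal ∧ IsSolvable N ∧ x ∈ N := fun x => Iff.rfl
  have hRn : R.Normal := by
    constructor
    intro x hx g
    obtain ⟨N, hN, hN', hx⟩ := (memR x).1 hx
    exact (memR _).2 ⟨N, hN, hN', hN.conj_mem x hx g⟩
  refine ⟨R, hRn, ?_, ?_⟩
  · have h2 : derivedSeries R 2 = ⊥ := by
      rw [Reduction_derived_iff, Subgroup.commutator_eq_bot_iff_le_centralizer,
        Subgroup.commutator_le]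
      intro x hx y hy
      rw [Subgroup.mem_centralizer_iff]
      have h3 : ⁅R, R⁆ ≤ Subgroup.centralizer {⁅x, y⁆} := by
        rw [Subgroup.commutator_le]
        intro z hz w hw
        obtain ⟨N1, n1, s1, m1⟩ := (memR _).1 hx
        obtain ⟨N2, n2, s2, m2⟩ := (memR _).1 hy
        obtain ⟨N3, n3, s3, m3⟩ := (memR _).1 hz
        obtain ⟨N4, n4, s4, m4⟩ := (memR _).1 hw
        obtain ⟨n5, s5⟩ := hsup N1 N2 n1 n2 s1 s2
        obtain ⟨n6, s6⟩ := hsup N3 N4 n3 n4 s3 s4
        obtain ⟨n7, s7⟩ := hsup _ _ n5 n6 s5 s6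
        have h7 := h _ n7 s7
        rw [Reduction_derived_iff, Subgroup.commutator_eq_bot_iff_le_centralizer] at h7
        have hx' : x ∈ (N1 ⊔ N2) ⊔ (N3 ⊔ N4) := Subgroup.mem_sup_left (Subgroup.mem_sup_left m1)
        have hy' : y ∈ (N1 ⊔ N2) ⊔ (N3 ⊔ N4) := Subgroup.mem_sup_left (Subgroup.mem_sup_right m2)
        have hz' : z ∈ (N1 ⊔ N2) ⊔ (N3 ⊔ N4) := Subgroup.mem_sup_right (Subgroup.mem_sup_left m3)
        have hw' : w ∈ (N1 ⊔ N2) ⊔ (N3 ⊔ N4) := Subgroup.mem_sup_right (Subgroup.mem_sup_right m4)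
        have h8 := h7 (Subgroup.commutator_mem_commutator hz' hw')
        rw [Subgroup.mem_centralizer_iff] at h8 ⊢
        rintro _ rfl
        exact h8 _ (Subgroup.commutator_mem_commutator hx' hy')
      intro k hk
      have h9 := h3 hk
      rw [Subgroup.mem_centralizer_iff] at h9
      exact (h9 _ rfl).symm
    exact ⟨2, h2⟩
  · intro N hN hN' x hx
    exact (memR x).2 ⟨N, hN, hN', hx⟩

/-- If `G / M'` and `G / N'` are virtually soluble then so is `G / (M' ⊓ N')` (here for `M' ⊓ N' = R`).
PROOF. `G / R` embeds into `G / M' × G / N'`; the preimage of `S₁ × S₂` is soluble (a subgroup of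
a product of soluble groups) and has finite index. Directly: let `K₁ ≥ M'`, `K₂ ≥ N'` be the preimages in
`G` of soluble subgroups of finite index; `K = K₁ ⊓ K₂` has finite index; some term of the derived series
of `K` lies in `M' ⊓ N' = R`. -/
theorem virtSol_inf {G : Type*} [Group G] (M N R : Subgroup G) [M.Normal] [N.Normal] [R.Normal]
    (hR : M ⊓ N = R) (hM : VirtSol (G ⧸ M)) (hN : VirtSol (G ⧸ N)) : VirtSol (G ⧸ R) := by
  obtain ⟨S1, f1, s1⟩ := hM
  obtain ⟨S2, f2, s2⟩ := hN
  have hRM : R ≤ M.comap (MonoidHom.id G) := by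
    rw [← hR]
    exact inf_le_left
  have hRN : R ≤ N.comap (MonoidHom.id G) := by
    rw [← hR]
    exact inf_le_right
  set p1 : G ⧸ R →* G ⧸ M := QuotientGroup.map R M (MonoidHom.id G) hRM with hp1
  set p2 : G ⧸ R →* G ⧸ N := QuotientGroup.map R N (MonoidHom.id G) hRN with hp2
  set K : Subgroup (G ⧸ R) := S1.comap p1 ⊓ S2.comap p2 with hK
  have hK1 : (S1.comap p1).FiniteIndex := by
    constructor
    rw [Subgroup.index_comap]
    exact fun h0 => f1.index_ne_zero (Subgroup.index_eq_zero_of_relIndex_eq_zero h0)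
  have hK2 : (S2.comap p2).FiniteIndex := by
    constructor
    rw [Subgroup.index_comap]
    exact fun h0 => f2.index_ne_zero (Subgroup.index_eq_zero_of_relIndex_eq_zero h0)
  refine ⟨K, inferInstance, ?_⟩
  let g1 : K →* S1 := (p1.comp K.subtype).codRestrict S1 (fun x => (Subgroup.mem_inf.1 x.2).1)
  let g2 : K →* S2 := (p2.comp K.subtype).codRestrict S2 (fun x => (Subgroup.mem_inf.1 x.2).2)
  have hinj : Function.Injective (g1.prod g2) := by
    rw [injective_iff_map_eq_one]
    rintro ⟨x, hx⟩ h
    obtain ⟨g, rfl⟩ := QuotientGroup.mk_surjective x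
    have e1 : g1 ⟨(g : G ⧸ R), hx⟩ = 1 := congrArg Prod.fst h
    have e2 : g2 ⟨(g : G ⧸ R), hx⟩ = 1 := congrArg Prod.snd h
    have e3 : ((g : G) : G ⧸ M) = 1 := congrArg Subtype.val e1
    have e4 : ((g : G) : G ⧸ N) = 1 := congrArg Subtype.val e2
    rw [QuotientGroup.eq_one_iff] at e3 e4
    apply Subtype.ext
    change ((g : G) : G ⧸ R) = 1
    rw [QuotientGroup.eq_one_iff, ← hR]
    exact ⟨e3, e4⟩
  have s1' : Group.IsSolvable S1 := s1
  have s2' : Group.IsSolvable S2 := s2
  exact Group.isSolvable_of_isSolvable_injective hinj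

/-- Reduction to prime groups.
PROOF. By strong induction on `m` we prove: for all `G, A, C` with `K G A C` and a covering set `T` with
`|T| = m`, `G` is virtually soluble. Suppose `G` is not. By `cover_quotient`, `hquot` and induction:
(a) for every normal `N`, either `N ⊆ A C` and then `derivedSeries N 2 = ⊥` (`isSolvable_of_le`), or
`G / N` is virtually soluble.
If `N` is a soluble normal subgroup then `G / N` is not virtually soluble (`VirtSol.extension`), so
`derivedSeries N 2 = ⊥`. Let `R` be as in `exists_largest`; `G / R` is not virtually soluble.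
We show that `G / R` is prime: let `x, y ≠ 1` in `G / R` such that `x` commutes with all conjugates of `y`.
Let `M`, `N` be the preimages in `G` of the normal closures of `x`, `y`; these normal closures commute
elementwise, so `(M ⊓ N) / R` is abelian, `M ⊓ N` is soluble and normal, so `M ⊓ N = R`. If
`G / M` is not virtually soluble then `M` is soluble by (a), so `M ≤ R`, `x = 1`: contradiction. So `G / M`,
and in the same way `G / N`, are virtually soluble, and `G / R` is virtually soluble by `virtSol_inf`: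
contradiction. So `G / R` is prime, and it is infinite (a finite group is virtually soluble: take `S = ⊥`).
`hprime` for `K (G ⧸ R) ...` gives the contradiction. -/
theorem reduction (K : ∀ (G : Type u) [Group G], Subgroup G → Subgroup G → Prop)
    (hquot : ∀ (G : Type u) [Group G] (A C : Subgroup G), K G A C → ∀ (N : Subgroup G) [N.Normal],
      K (G ⧸ N) (A.map (QuotientGroup.mk' N)) (C.map (QuotientGroup.mk' N)))
    (hA : ∀ (G : Type u) [Group G] (A C : Subgroup G), K G A C → ∀ x ∈ A, ∀ y ∈ A, x * y = y * x)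
    (hC : ∀ (G : Type u) [Group G] (A C : Subgroup G), K G A C → ∀ x ∈ C, ∀ y ∈ C, x * y = y * x)
    (hfin : ∀ (G : Type u) [Group G] (A C : Subgroup G), K G A C →
      ∃ T : Finset G, ∀ g : G, ∃ a ∈ A, ∃ t ∈ T, ∃ c ∈ C, g = a * t * c)
    (hprime : ∀ (G : Type u) [Group G] (A C : Subgroup G), K G A C → PrimeGrp G → Infinite G →
      False) :
    ∀ (G : Type u) [Group G] (A C : Subgroup G), K G A C → VirtSol G := by
  have claim : ∀ m : ℕ, ∀ (G : Type u) [Group G] (A C : Subgroup G) (T : Finset G), K G A C →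
      (∀ g : G, ∃ a ∈ A, ∃ t ∈ T, ∃ c ∈ C, g = a * t * c) → T.card = m → VirtSol G := by
    intro m
    induction m using Nat.strong_induction_on with
    | _ m ih =>
      intro G _ A C T hK hT hcard
      by_contra hG
      have ha : ∀ (N : Subgroup G) [N.Normal], derivedSeries N 2 = ⊥ ∨ VirtSol (G ⧸ N) := by
        intro N hN
        by_cases hNAC : ∀ n ∈ N, ∃ a ∈ A, ∃ c ∈ C, n = a * c
        · exact Or.inl (isSolvable_of_le A C N (hA G A C hK) (hC G A C hK) hNAC)
        · right
          push Not at hNAC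
          obtain ⟨ν, hν, hν'⟩ := hNAC
          obtain ⟨T', hT'c, hT'⟩ := cover_quotient A C N T hT ν hν
            (by rintro ⟨a, ha, c, hc, h⟩; exact hν' a ha c hc h)
          exact ih T'.card (hcard ▸ hT'c) (G ⧸ N) _ _ T' (hquot G A C hK N) hT' rfl
      have hvs : ∀ N : Subgroup G, IsSolvable N → VirtSol N := by
        intro N hN
        refine ⟨⊤, inferInstance, ?_⟩
        have hN' : Group.IsSolvable N := hN
        exact (inferInstance : Group.IsSolvable (⊤ : Subgroup N))
      have hb : ∀ (N : Subgroup G) [N.Normal], IsSolvable N → ¬ VirtSol (G ⧸ N) := by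
        intro N hN hN' h
        exact hG (VirtSol.extension N (hvs N hN') h)
      have hb2 : ∀ N : Subgroup G, N.Normal → IsSolvable N → derivedSeries N 2 = ⊥ := by
        intro N hN hN'
        exact (ha N).resolve_right (hb N hN')
      obtain ⟨R, hRn, hRs, hRl⟩ := exists_largest hb2
      have hQ := hb R hRs
      have hprimeQ : PrimeGrp (G ⧸ R) := by
        intro x y hx hy
        by_contra hcon
        push Not at hcon
        have hXY : ∀ u ∈ Subgroup.normalClosure {x}, ∀ v ∈ Subgroup.normalClosure {y},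
            u * v = v * u := Reduction_commute x y hcon
        set M : Subgroup G := (Subgroup.normalClosure {x}).comap (QuotientGroup.mk' R) with hM
        set N : Subgroup G := (Subgroup.normalClosure {y}).comap (QuotientGroup.mk' R) with hN
        have hMn : M.Normal := inferInstance
        have hNn : N.Normal := inferInstance
        have hRM : R ≤ M := by
          intro r hr
          rw [hM, Subgroup.mem_comap, QuotientGroup.mk'_apply, (QuotientGroup.eq_one_iff r).2 hr]
          exact Subgroup.one_mem _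
        have hRN : R ≤ N := by
          intro r hr
          rw [hN, Subgroup.mem_comap, QuotientGroup.mk'_apply, (QuotientGroup.eq_one_iff r).2 hr]
          exact Subgroup.one_mem _
        have hsol : IsSolvable (M ⊓ N : Subgroup G) := by
          let W : Subgroup (G ⧸ R) := Subgroup.normalClosure {x} ⊓ Subgroup.normalClosure {y}
          have hW : IsSolvable W := by
            apply Group.isSolvable_of_comm
            intro u v
            exact Subtype.ext (hXY _ u.2.1 _ v.2.2)
          let g : (M ⊓ N : Subgroup G) →* W :=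
            ((QuotientGroup.mk' R).comp (M ⊓ N).subtype).codRestrict W
              (fun z => ⟨z.2.1, z.2.2⟩)
          let f : R →* (M ⊓ N : Subgroup G) := Subgroup.inclusion (le_inf hRM hRN)
          have hRs' : Group.IsSolvable R := hRs
          have hW' : Group.IsSolvable W := hW
          refine Group.isSolvable_of_ker_le_range f g ?_
          intro z hz
          have hz1 : ((z : G) : G ⧸ R) = 1 := congrArg Subtype.val (MonoidHom.mem_ker.1 hz)
          rw [QuotientGroup.eq_one_iff] at hz1
          exact ⟨⟨z, hz1⟩, rfl⟩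
        have hMN : M ⊓ N = R :=
          le_antisymm (hRl _ inferInstance hsol) (le_inf hRM hRN)
        have hnot : ∀ (z : G ⧸ R), z ≠ 1 →
            VirtSol (G ⧸ (Subgroup.normalClosure {z}).comap (QuotientGroup.mk' R)) := by
          intro z hz
          refine (ha _).resolve_left ?_
          intro h2
          have h3 := hRl ((Subgroup.normalClosure {z}).comap (QuotientGroup.mk' R)) inferInstance
            ⟨2, h2⟩
          apply hz
          obtain ⟨g, rfl⟩ := QuotientGroup.mk'_surjective R z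
          have h4 : g ∈ R := h3 (Subgroup.mem_comap.2 (Subgroup.subset_normalClosure rfl))
          rw [QuotientGroup.mk'_apply]
          exact (QuotientGroup.eq_one_iff g).2 h4
        exact hQ (virtSol_inf M N R hMN (hnot x hx) (hnot y hy))
      have hinfQ : Infinite (G ⧸ R) := by
        by_contra hfi
        rw [not_infinite_iff_finite] at hfi
        apply hQ
        exact ⟨⊥, inferInstance, (inferInstance : Group.IsSolvable (⊥ : Subgroup (G ⧸ R)))⟩
      exact hprime (G ⧸ R) _ _ (hquot G A C hK R) hprimeQ hinfQ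
  intro G _ A C hK
  obtain ⟨T, hT⟩ := hfin G A C hK
  exact claim T.card G A C T hK hT rfl

end Pool.Agent.AO
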