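import Pool.Agent.AO.NoPrime
import Pool.Agent.AO.Reduction

/-!
# The theorem (module AO-Main)
-/

set_option autoImplicit false

universe u

namespace Pool.Agent.AO

/-- The class of groups used in `main`: `A`, `C` commutative, `C` of finite index in some `B` with
`G = A B`. -/
private def MainClass (G : Type u) [Group G] (A C : Subgroup G) : Prop :=
  (∀ x ∈ A, ∀ y ∈ A, x * y = y * x) ∧ (∀ x ∈ C, ∀ y ∈ C, x * y = y * x) ∧
    ∃ B : Subgroup G, C ≤ B ∧ C.relIndex B ≠ 0 ∧ ∀ g : G, ∃ a ∈ A, ∃ b ∈ B, g = a * b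

private theorem mainClass_quot (G : Type u) [Group G] (A C : Subgroup G) (h : MainClass G A C)
    (N : Subgroup G) [N.Normal] :
    MainClass (G ⧸ N) (A.map (QuotientGroup.mk' N)) (C.map (QuotientGroup.mk' N)) := by
  obtain ⟨hA, hC, B, hCB, hfin, hAB⟩ := h
  refine ⟨?_, ?_, B.map (QuotientGroup.mk' N), Subgroup.map_mono hCB, ?_, ?_⟩
  · rintro _ ⟨x, hx, rfl⟩ _ ⟨y, hy, rfl⟩
    rw [← map_mul, ← map_mul, hA x hx y hy]
  · rintro _ ⟨x, hx, rfl⟩ _ ⟨y, hy, rfl⟩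
    rw [← map_mul, ← map_mul, hC x hx y hy]
  · have h1 : (C.map (QuotientGroup.mk' N)).relIndex (B.map (QuotientGroup.mk' N)) ∣
        C.relIndex B := by
      refine dvd_trans (Subgroup.index_dvd_of_le (H := (C.subgroupOf B).map
        ((QuotientGroup.mk' N).subgroupMap B)) ?_)
        ((C.subgroupOf B).index_map_dvd ((QuotientGroup.mk' N).subgroupMap_surjective B))
      rintro _ ⟨x, hx, rfl⟩
      exact Subgroup.mem_subgroupOf.mpr ⟨x, Subgroup.mem_subgroupOf.mp hx, rfl⟩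
    exact fun h0 => hfin (by simpa [h0] using h1)
  · intro g
    obtain ⟨g, rfl⟩ := QuotientGroup.mk'_surjective N g
    obtain ⟨a, ha, b, hb, rfl⟩ := hAB g
    exact ⟨_, ⟨a, ha, rfl⟩, _, ⟨b, hb, rfl⟩, map_mul _ _ _⟩

private theorem mainClass_fin (G : Type u) [Group G] (A C : Subgroup G) (h : MainClass G A C) :
    ∃ T : Finset G, ∀ g : G, ∃ a ∈ A, ∃ t ∈ T, ∃ c ∈ C, g = a * t * c := by
  classical
  obtain ⟨hA, hC, B, hCB, hfin, hAB⟩ := h
  have : (C.subgroupOf B).FiniteIndex := ⟨hfin⟩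
  have : Finite (B ⧸ C.subgroupOf B) := Subgroup.finite_quotient_of_finiteIndex
  have : Fintype (B ⧸ C.subgroupOf B) := Fintype.ofFinite _
  refine ⟨Finset.univ.image (fun q : B ⧸ C.subgroupOf B => (q.out : G)), fun g => ?_⟩
  obtain ⟨a, ha, b, hb, rfl⟩ := hAB g
  have h1 : ((QuotientGroup.mk (s := C.subgroupOf B) (⟨b, hb⟩ : B)).out)⁻¹ * (⟨b, hb⟩ : B) ∈
      C.subgroupOf B := by
    rw [← QuotientGroup.eq, QuotientGroup.out_eq']
  refine ⟨a, ha, _, Finset.mem_image_of_mem _ (Finset.mem_univ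
    (QuotientGroup.mk (s := C.subgroupOf B) (⟨b, hb⟩ : B))), _, Subgroup.mem_subgroupOf.mp h1, ?_⟩
  simp [mul_assoc]

/-- PROOF. Apply `reduction` to
`K G A C := A, C commutative ∧ ∃ B, C ≤ B ∧ C.relIndex B ≠ 0 ∧ ∀ g, ∃ a ∈ A, ∃ b ∈ B, g = a * b`.
`hquot`: images (`C.map f` has finite index in `B.map f`). `hfin`: take representatives of the left
cosets of `C` in `B`. `hprime`: `no_prime`. -/
theorem main (G : Type u) [Group G] (A B : Subgroup G)
    (hAB : ∀ g : G, ∃ a ∈ A, ∃ b ∈ B, g = a * b)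
    (hA : ∀ x ∈ A, ∀ y ∈ A, x * y = y * x)
    (hB : ∃ K : Subgroup G, K ≤ B ∧ (K.subgroupOf B).FiniteIndex ∧
      ∀ x ∈ K, ∀ y ∈ K, x * y = y * x) :
    ∃ S : Subgroup G, S.FiniteIndex ∧ IsSolvable S := by
  obtain ⟨C, hCB, hfin, hC⟩ := hB
  have hcl : MainClass G A C := ⟨hA, hC, B, hCB, hfin.index_ne_zero, hAB⟩
  exact reduction (fun G [Group G] A C => MainClass G A C)
    (fun G _ A C h N _ => mainClass_quot G A C h N)
    (fun G _ A C h => h.1) (fun G _ A C h => h.2.1) (fun G _ A C h => mainClass_fin G A C h)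
    (fun G _ A C h hp hi => by
      obtain ⟨hA, hC, B, hCB, hfin, hAB⟩ := h
      exact no_prime hp hi hA hC hCB hfin hAB) G A C hcl

end Pool.Agent.AO
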