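import Pool.Agent.AO.CoreT
import Pool.Agent.AO.CoreP
import Pool.Agent.AO.FactThree

/-!
# There is no infinite prime factorised group (module AO-NoPrime)
-/

set_option autoImplicit false

universe u

namespace Pool.Agent.AO

open Filter

namespace PF

variable {G : Type u} [Group G] {A B C : Subgroup G}

/-- PROOF. Take `Q = B ⧸ C.subgroupOf B`, finite by `fin` (`Fintype` by `Fintype.ofFinite`),
`t q = (q.out : G)`, and the small group `⊤`. `hT`: `(t q)⁻¹ b ∈ C` iff the coset of `b` is `q`.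
`h3` is `F3`: every `b ∈ B` is `t q c'` with `c' ∈ C`, so `b c b⁻¹ = t q c (t q)⁻¹`.
`infA`: `infinite_A`; `ntC`: `infinite_C`. `abN`: a subgroup normalised by all elements is normal;
`PrimeGrp.abelian`; `finN`: `PrimeGrp.finite`. -/
theorem exists_pre (P : PF A B C) :
    ∃ (Q : Type u) (_ : Fintype Q) (S : Pre G Q), S.C = C := by
  have hfin : Finite (B ⧸ C.subgroupOf B) := by
    have h1 : (C.subgroupOf B).index ≠ 0 := P.fin
    have : (C.subgroupOf B).FiniteIndex := ⟨h1⟩
    exact Subgroup.finite_quotient_of_finiteIndex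
  have key : ∀ (b : G) (hb : b ∈ B) (q : B ⧸ C.subgroupOf B), ((q.out : B) : G)⁻¹ * b ∈ C ↔
      q = QuotientGroup.mk (⟨b, hb⟩ : B) := by
    intro b hb q
    have h1 : ((q.out : B) : G)⁻¹ * b ∈ C ↔
        (QuotientGroup.mk (q.out) : B ⧸ C.subgroupOf B) = QuotientGroup.mk (⟨b, hb⟩ : B) := by
      rw [QuotientGroup.eq, Subgroup.mem_subgroupOf]
      rfl
    rw [h1, QuotientGroup.out_eq']
  have hinf := P.inf
  refine ⟨B ⧸ C.subgroupOf B, Fintype.ofFinite _,
    @Pre.mk G _ (B ⧸ C.subgroupOf B) (Fintype.ofFinite _) A B C ⊤ P.cA P.cC P.hCB P.nC P.hAB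
      (fun g _ => ?_) (fun q => ((q.out : B) : G)) (fun q => (q.out : B).2)
      (fun q => Subgroup.mem_top _) (fun b hb => ?_) (fun c hc hc1 a ha h => ?_) ?_ ?_ ?_ ?_, rfl⟩
  · obtain ⟨a, ha, b, hb, h⟩ := P.hAB g
    exact ⟨a, ha, b, hb, Subgroup.mem_top _, Subgroup.mem_top _, h⟩
  · exact ⟨QuotientGroup.mk (⟨b, hb⟩ : B), (key b hb _).2 rfl, fun q hq => (key b hb q).1 hq⟩
  · refine P.F3 hc hc1 ha fun b hb => ?_
    have h1 := (key b hb _).2 rfl
    have h2 := h (QuotientGroup.mk (⟨b, hb⟩ : B))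
    set x : G := (((QuotientGroup.mk (⟨b, hb⟩ : B) : B ⧸ C.subgroupOf B).out : B) : G) with hx
    have h3 : x⁻¹ * b * c = c * (x⁻¹ * b) := P.cC _ h1 _ hc
    have h4 : b * c * b⁻¹ = x * c * x⁻¹ := by
      have h5 : b * c = x * c * x⁻¹ * b := by
        calc b * c = x * (x⁻¹ * b * c) := by group
          _ = x * (c * (x⁻¹ * b)) := by rw [h3]
          _ = x * c * x⁻¹ * b := by group
      rw [h5]
      group
    rw [h4]
    exact h2
  · rw [inf_top_eq]
    exact P.infinite_A
  · obtain ⟨c, hc, hc1⟩ := P.infinite_C.exists_notMem_finset {1}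
    refine ⟨c, hc, Subgroup.mem_top _, ?_⟩
    rintro rfl
    exact hc1 (Finset.mem_singleton_self _)
  · intro N _ hN hab
    have : N.Normal := ⟨fun x hx g => hN g (Subgroup.mem_top _) x hx⟩
    exact P.prime.abelian N hab
  · intro N _ hN hf
    have : N.Normal := ⟨fun x hx g => hN g (Subgroup.mem_top _) x hx⟩
    exact P.prime.finite N hf

/-- PROOF. Let `S : Pre G Q` be as in `exists_pre`. If there is `n > 0` with `c^n = 1` for all `c ∈ C`
then `no_bounded_exponent` (with `infinite_C`). Otherwise `exists_infinite_order` gives an element of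
infinite order for `S.ultra (hyperfilter ℕ)`, and `no_infinite_order` applies. -/
theorem false (P : PF A B C) : False := by
  obtain ⟨Q, hQ, S, hS⟩ := P.exists_pre
  by_cases h : ∃ n : ℕ, 0 < n ∧ ∀ c ∈ S.C, c ^ n = 1
  · obtain ⟨n, hn, hexp⟩ := h
    refine no_bounded_exponent S ?_ hn hexp
    rw [hS]
    exact P.infinite_C
  · push Not at h
    obtain ⟨y, hy, hy1⟩ := exists_infinite_order S h
    exact no_infinite_order (S.ultra (hyperfilter ℕ)) hy hy1

end PF

/-- There is no infinite prime group `G = A B` with `A` abelian and `B` with an abelian subgroup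
of finite index.
PROOF. Replace `C` by its core in `B`, `C' = {c ∈ C | ∀ b ∈ B, b c b⁻¹ ∈ C}` (the image of
`(C.subgroupOf B).normalCore`), which has finite index in `B`, and apply `PF.false`. -/
theorem no_prime {G : Type u} [Group G] {A B C : Subgroup G} (hG : PrimeGrp G) (hinf : Infinite G)
    (cA : ∀ x ∈ A, ∀ y ∈ A, x * y = y * x) (cC : ∀ x ∈ C, ∀ y ∈ C, x * y = y * x)
    (hCB : C ≤ B) (hfin : C.relIndex B ≠ 0) (hAB : ∀ g : G, ∃ a ∈ A, ∃ b ∈ B, g = a * b) :
    False := by
  have hfi : (C.subgroupOf B).FiniteIndex := ⟨hfin⟩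
  set N : Subgroup B := (C.subgroupOf B).normalCore with hN
  have hNfi : N.FiniteIndex := Subgroup.finiteIndex_normalCore _
  have hNC : N ≤ C.subgroupOf B := Subgroup.normalCore_le _
  have hNn : N.Normal := Subgroup.normalCore_normal _
  set C' : Subgroup G := N.map B.subtype with hC'
  have hC'C : C' ≤ C := by
    rintro _ ⟨x, hx, rfl⟩
    exact Subgroup.mem_subgroupOf.1 (hNC hx)
  refine PF.false (G := G) (A := A) (B := B) (C := C')
    ⟨hG, hinf, cA, fun x hx y hy => cC x (hC'C hx) y (hC'C hy), ?_, ?_, ?_, hAB⟩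
  · rintro _ ⟨x, hx, rfl⟩
    exact x.2
  · rintro b hb _ ⟨x, hx, rfl⟩
    exact ⟨⟨b, hb⟩ * x * ⟨b, hb⟩⁻¹, hNn.conj_mem x hx ⟨b, hb⟩, rfl⟩
  · have h1 : C'.subgroupOf B = N := by
      rw [hC', Subgroup.subgroupOf, Subgroup.comap_map_eq_self_of_injective B.subtype_injective]
    rw [Subgroup.relIndex, h1]
    exact hNfi.index_ne_zero

end Pool.Agent.AO
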