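import Pool.Agent.AO.VSol

/-!
# Soluble and finite normal subgroups of prime groups (module AO-PrimeSol)
-/

set_option autoImplicit false

namespace Pool.Agent.AO

/-- PROOF. In a prime group an abelian normal subgroup `N` is trivial: for `x ≠ 1` in `N` there is
`g` with `x`, `g x g⁻¹` not commuting, both in `N`. -/
theorem PrimeGrp.abelian {G : Type*} [Group G] (h : PrimeGrp G) (N : Subgroup G) [N.Normal]
    (hN : ∀ x ∈ N, ∀ y ∈ N, x * y = y * x) : N = ⊥ := by
  rw [Subgroup.eq_bot_iff_forall]
  intro x hx
  by_contra hx1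
  obtain ⟨g, hg⟩ := h x x hx1 hx1
  exact hg (hN x hx _ (Subgroup.Normal.conj_mem inferInstance x hx g))

/-- PROOF. If `N ≠ ⊥` let `k` be maximal such that the `k`-th derived subgroup of `N` is nontrivial;
it is characteristic in `N`, so normal in `G`, and abelian: contradiction to
`PrimeGrp.abelian`. -/
theorem PrimeGrp.solvable {G : Type*} [Group G] (h : PrimeGrp G) (N : Subgroup G) [N.Normal]
    (hN : IsSolvable N) : N = ⊥ := by
  obtain ⟨n, hn⟩ := hN
  induction n with
  | zero =>
    rw [derivedSeries_zero] at hn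
    rw [Subgroup.eq_bot_iff_forall]
    intro x hx
    have h1 : (⟨x, hx⟩ : N) ∈ (⊤ : Subgroup N) := Subgroup.mem_top _
    rw [hn, Subgroup.mem_bot] at h1
    exact congrArg Subtype.val h1
  | succ k ih =>
    apply ih
    have h1 : (derivedSeries N k).map N.subtype = ⊥ := by
      apply h.abelian
      rintro x ⟨x', hx', rfl⟩ y ⟨y', hy', rfl⟩
      have h2 := Subgroup.commutator_mem_commutator hx' hy'
      rw [← derivedSeries_succ, hn, Subgroup.mem_bot, commutatorElement_eq_one_iff_mul_comm] at h2
      rw [← map_mul, ← map_mul, h2]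
    rwa [Subgroup.map_eq_bot_iff_of_injective _ N.subtype_injective] at h1

/-- PROOF. Let `N` be finite and normal, `x ≠ 1` in `N`. The centraliser `E` of `N` has finite index
(kernel of the action of `G` on `N`), so it is infinite and normal; take `y ≠ 1` in `E`: `x` commutes
with all conjugates of `y`: contradiction. -/
theorem PrimeGrp.finite {G : Type*} [Group G] [Infinite G] (h : PrimeGrp G) (N : Subgroup G)
    [N.Normal] (hN : (N : Set G).Finite) : N = ⊥ := by
  have : Finite N := hN.to_subtype
  rw [Subgroup.eq_bot_iff_forall]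
  intro x hx
  by_contra hx1
  have hE : (MulAut.conjNormal : G →* MulAut N).ker ≠ ⊥ := by
    intro h1
    have h2 : Function.Injective (MulAut.conjNormal : G →* MulAut N) :=
      (MonoidHom.ker_eq_bot_iff _).1 h1
    have : Finite (MulAut N) := Finite.of_injective (fun f : MulAut N => (f : N → N))
      DFunLike.coe_injective
    exact (Finite.of_injective _ h2).false
  obtain ⟨⟨y, hy⟩, hy1'⟩ := (Subgroup.ne_bot_iff_exists_ne_one).1 hE
  have hy1 : y ≠ 1 := fun h0 => hy1' (Subtype.ext h0)
  obtain ⟨g, hg⟩ := h x y hx1 hy1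
  apply hg
  have h3 : g * y * g⁻¹ ∈ (MulAut.conjNormal : G →* MulAut N).ker :=
    Subgroup.Normal.conj_mem inferInstance y hy g
  rw [MonoidHom.mem_ker] at h3
  have h4 := congrArg (fun f : MulAut N => ((f ⟨x, hx⟩ : N) : G)) h3
  simp only [MulAut.conjNormal_apply, MulAut.one_apply] at h4
  have h5 : (g * y * g⁻¹) * x = x * (g * y * g⁻¹) := mul_inv_eq_iff_eq_mul.1 h4
  exact h5.symm

/-- PROOF. Let `R` be characteristic in `N`, soluble of finite index (`exists_characteristic`). Its
image in `G` is normal and soluble, so trivial (`PrimeGrp.solvable`), so `N` is finite and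
trivial by `PrimeGrp.finite`. -/
theorem PrimeGrp.virtSol {G : Type*} [Group G] [Infinite G] (h : PrimeGrp G) (N : Subgroup G)
    [N.Normal] (hN : VirtSol N) : N = ⊥ := by
  obtain ⟨R, hR, hfin, hsol⟩ := hN.exists_characteristic
  have h1 : R.map N.subtype = ⊥ := by
    apply h.solvable
    have : Group.IsSolvable R := hsol
    exact Group.isSolvable_of_surjective (f := N.subtype.subgroupMap R)
      (N.subtype.subgroupMap_surjective R)
  rw [Subgroup.map_eq_bot_iff_of_injective _ N.subtype_injective] at h1
  apply h.finite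
  have h2 : (⊥ : Subgroup N).FiniteIndex := h1 ▸ hfin
  have h3 : Nat.card N ≠ 0 := by
    rw [← Subgroup.index_bot]
    exact h2.index_ne_zero
  have : Finite N := Nat.finite_of_card_ne_zero h3
  exact Set.toFinite _

end Pool.Agent.AO
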