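import Pool.Agent.AO.XE

/-!
# The relations given by the factorisation of `x_e` (module AO-Rel)
-/

set_option autoImplicit false

namespace Pool.Agent.AO

open MonoidAlgebra

variable {H : Type*} [Group H] {𝔻 : Type*} [CommGroup 𝔻] {Q : Type*} [Fintype Q]

namespace TData

variable {S : Core H 𝔻 Q} {M : Type*} [AddCommGroup M] (T : TData S M)

/-- `P_e v = v + r_e (a0 - 1) v`. -/
noncomputable def PP (a0 : H) (e : 𝔻) (v : M) : M := v + T.rr e (T.act a0 v - v)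

theorem PP_add (a0 : H) (e : 𝔻) (v w : M) : T.PP a0 e (v + w) = T.PP a0 e v + T.PP a0 e w := by
  simp only [PP, map_add]
  rw [show T.act a0 v + T.act a0 w - (v + w) = (T.act a0 v - v) + (T.act a0 w - w) by abel,
    map_add]
  abel

/-- Let `ι x = α β⁻¹`, `α ∈ A`, `β ∈ B`, where `x` has the property `XId a0 e`, and let
`a ∈ A ∩ G`, `b ∈ B ∩ G`, `g = a b ∈ G1`, `β (b d b⁻¹) β⁻¹ = b d' b⁻¹`. Then conjugation by `β` maps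
`δ_g(d) d = g d g⁻¹` to `(P_e δ_g(d')) d'`.
PROOF. `β = x⁻¹ α` (`x` for `ι x`) and `α a = a α`, so `β a = x⁻¹ a α = x⁻¹ a x β`. So
`β g d g⁻¹ β⁻¹ = β a (b d b⁻¹) a⁻¹ β⁻¹ = x⁻¹ a x (β b d b⁻¹ β⁻¹) x⁻¹ a⁻¹ x
 = x⁻¹ a x (b d' b⁻¹) x⁻¹ a⁻¹ x = w (a b d' b⁻¹ a⁻¹) w⁻¹` with
`w = x⁻¹ (a x a⁻¹) = ι (act a x - x)`. And `a b d' b⁻¹ a⁻¹ = g d' g⁻¹ = ι (δ_g(d')) d'`, so we get
`w ι(δ_g(d')) d' w⁻¹ = ι(δ_g(d')) w (d' w⁻¹ d'⁻¹) d'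
 = ι (δ_g(d') + (act a x - x) - ρ d' (act a x - x)) d' = ι (P_e (δ_g(d'))) d'` by `XId`
(for `d'`). -/
theorem beta_conj {a0 : H} {e : 𝔻} {x : M} (hX : T.XId a0 e x) {α β : H} (hα : α ∈ S.A)
    (hx : T.ι x = α * β⁻¹) {a b : H} (haA : a ∈ S.A) (haG : a ∈ S.G) (hbB : b ∈ S.B)
    (hbG : b ∈ S.G) (hab : a * b ∈ T.G1) {d d' : 𝔻}
    (hd : β * (b * S.j d * b⁻¹) * β⁻¹ = b * S.j d' * b⁻¹) :
    β * (T.ι (T.δ (a * b) d) * S.j d) * β⁻¹ = T.ι (T.PP a0 e (T.δ (a * b) d')) * S.j d' := by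
  have h1 := T.δ_spec (a * b) hab d
  have h2 := T.δ_spec (a * b) hab d'
  have h3 := T.act_spec a haG x
  have hXid := hX a haA haG b hbB hbG hab d'
  have hPP : T.PP a0 e (T.δ (a * b) d') =
      T.δ (a * b) d' + ((T.act a x - x) - T.ρ d' (T.act a x - x)) := by
    unfold PP
    rw [hXid]
  have h4 : T.ι (T.act a x - x) = T.ι (T.act a x) * (T.ι x)⁻¹ := T.ι_sub _ _
  have h5 := T.ρ_spec d' (T.act a x - x)
  rw [hPP, T.ι_add, T.ι_sub (T.act a x - x), h5]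
  generalize hW : T.ι (T.act a x - x) = W at *
  have hc : W * T.ι (T.δ (a * b) d') = T.ι (T.δ (a * b) d') * W := by
    rw [← hW]
    exact T.ι_comm _ _
  have hc2 : T.ι (T.act a x) * (T.ι x)⁻¹ = (T.ι x)⁻¹ * T.ι (T.act a x) := by
    have h6 := T.ι_comm (T.act a x) x
    rw [mul_inv_eq_iff_eq_mul, mul_assoc, h6, inv_mul_cancel_left]
  have hWa : W * a = (T.ι x)⁻¹ * a * T.ι x := by
    rw [h4, hc2, h3]
    group
  have hβ : α = T.ι x * β := by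
    rw [hx]
    group
  have hβa : β * a = (T.ι x)⁻¹ * a * T.ι x * β := by
    have h7 : α * a = a * α := S.cA α hα a haA
    rw [hβ] at h7
    rw [mul_assoc, mul_assoc, ← h7]
    group
  have e1 : β * (T.ι (T.δ (a * b) d) * S.j d) * β⁻¹ =
      (β * a) * (b * S.j d * b⁻¹) * (β * a)⁻¹ := by
    rw [h1]
    group
  have e2 : (T.ι x)⁻¹ * a * T.ι x * β * (b * S.j d * b⁻¹) * ((T.ι x)⁻¹ * a * T.ι x * β)⁻¹ =
      ((T.ι x)⁻¹ * a * T.ι x) * (β * (b * S.j d * b⁻¹) * β⁻¹) * ((T.ι x)⁻¹ * a * T.ι x)⁻¹ := by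
    group
  have e3 : (W * a) * (b * S.j d' * b⁻¹) * (W * a)⁻¹ =
      W * (T.ι (T.δ (a * b) d') * S.j d') * W⁻¹ := by
    rw [h2]
    group
  rw [e1, hβa, e2, hd, ← hWa, e3, ← mul_assoc W, hc]
  group

/-- (γ1). PROOF. The set of `v` with the property is an additive subgroup (`PP_add`, `ι_add`,
conjugation by `γ` is multiplicative; for `-v` use `PP a0 e (-v) = - PP a0 e v`). By `gen'` it is
enough to consider `v = δ_g(d')`, `g ∈ G1`. Write `g = a b` with `a ∈ A ∩ G`, `b ∈ B ∩ G`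
(`hG`, `G1_le`). By `jB` (for `b⁻¹ β'⁻¹ b ∈ B`) there is `d` with `j d = (b⁻¹ β'⁻¹ b) d' (b⁻¹ β'⁻¹ b)⁻¹`,
i.e. `β' (b d b⁻¹) β'⁻¹ = b d' b⁻¹`; with `γ = β β'⁻¹ ∈ C` also
`β (b d b⁻¹) β⁻¹ = γ (b d' b⁻¹) γ⁻¹ = b d' b⁻¹` since `b d' b⁻¹ ∈ C`. Apply `beta_conj` to
`(e, β)` and `(f, β')`: `γ (ι(P_f δ_g(d')) d') γ⁻¹ = γ β' (δ_g(d) d) β'⁻¹ γ⁻¹ = β (δ_g(d) d) β⁻¹
= ι(P_e δ_g(d')) d'`, and `γ` commutes with `d'`. -/
theorem gamma_one {a0 : H} {e f : 𝔻} {x y : M} (hX : T.XId a0 e x) (hY : T.XId a0 f y)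
    {α β α' β' : H} (hα : α ∈ S.A) (hβ : β ∈ S.B) (hα' : α' ∈ S.A) (hβ' : β' ∈ S.B)
    (hx : T.ι x = α * β⁻¹) (hy : T.ι y = α' * β'⁻¹) (hγ : β * β'⁻¹ ∈ S.C) (v : M) :
    (β * β'⁻¹) * T.ι (T.PP a0 f v) * (β * β'⁻¹)⁻¹ = T.ι (T.PP a0 e v) := by
  have hγC := hγ
  set γ := β * β'⁻¹ with hγdef
  let N : AddSubgroup M :=
    { carrier := {v | γ * T.ι (T.PP a0 f v) * γ⁻¹ = T.ι (T.PP a0 e v)}
      add_mem' := by
        intro u v hu hv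
        rw [Set.mem_ofPred_eq] at hu hv ⊢
        rw [T.PP_add, T.PP_add, T.ι_add, T.ι_add, ← hu, ← hv]
        group
      zero_mem' := by
        rw [Set.mem_ofPred_eq]
        have h0 : ∀ g : 𝔻, T.PP a0 g 0 = 0 := by
          intro g
          simp [PP]
        rw [h0, h0, T.ι_zero]
        group
      neg_mem' := by
        intro v hv
        rw [Set.mem_ofPred_eq] at hv ⊢
        have hn : ∀ g : 𝔻, T.PP a0 g (-v) = - T.PP a0 g v := by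
          intro g
          unfold PP
          rw [map_neg, neg_sub_neg, ← neg_sub (T.act a0 v) v, map_neg]
          abel
        rw [hn, hn, T.ι_neg, T.ι_neg, ← hv]
        group }
  have hN : N = ⊤ := by
    apply T.gen'
    intro g hg d'
    obtain ⟨a, haA, b, hbB, haG, hbG, rfl⟩ := S.hG g (T.G1_le hg)
    have hb' : b⁻¹ * β'⁻¹ * b ∈ S.B :=
      S.B.mul_mem (S.B.mul_mem (S.B.inv_mem hbB) (S.B.inv_mem hβ')) hbB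
    obtain ⟨d, hd⟩ := S.jB _ hb' d'
    have hd1 : β' * (b * S.j d * b⁻¹) * β'⁻¹ = b * S.j d' * b⁻¹ := by
      rw [← hd]
      group
    have hc1 : γ * (b * S.j d' * b⁻¹) * γ⁻¹ = b * S.j d' * b⁻¹ := by
      rw [S.cC γ hγC _ (S.nC b hbB _ (S.jC d'))]
      group
    have hd2 : β * (b * S.j d * b⁻¹) * β⁻¹ = b * S.j d' * b⁻¹ := by
      rw [← hc1, ← hd1, hγdef]
      group
    have r1 := T.beta_conj hX hα hx haA haG hbB hbG hg hd2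
    have r2 := T.beta_conj hY hα' hy haA haG hbB hbG hg hd1
    show γ * T.ι (T.PP a0 f (T.δ (a * b) d')) * γ⁻¹ = T.ι (T.PP a0 e (T.δ (a * b) d'))
    have hc2 : γ * S.j d' * γ⁻¹ = S.j d' := by
      rw [S.cC γ hγC _ (S.jC d')]
      group
    have r3 : γ * T.ι (T.PP a0 f (T.δ (a * b) d')) * γ⁻¹ * S.j d' =
        T.ι (T.PP a0 e (T.δ (a * b) d')) * S.j d' := by
      rw [← r1]
      calc γ * T.ι (T.PP a0 f (T.δ (a * b) d')) * γ⁻¹ * S.j d'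
          = γ * T.ι (T.PP a0 f (T.δ (a * b) d')) * γ⁻¹ * (γ * S.j d' * γ⁻¹) := by rw [hc2]
        _ = γ * (T.ι (T.PP a0 f (T.δ (a * b) d')) * S.j d') * γ⁻¹ := by group
        _ = γ * (β' * (T.ι (T.δ (a * b) d) * S.j d) * β'⁻¹) * γ⁻¹ := by rw [r2]
        _ = β * (T.ι (T.δ (a * b) d) * S.j d) * β⁻¹ := by rw [hγdef]; group
    exact mul_right_cancel r3
  have hv : v ∈ N := by
    rw [hN]
    exact AddSubgroup.mem_top v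
  exact hv

/-- (γ3). PROOF. Let `γ = β β'⁻¹`, `α₀ = α α'⁻¹ ∈ A`. Since `β = x⁻¹ α`, `β'⁻¹ = α'⁻¹ y`
(`x, y` for `ι x, ι y`) we have `γ = x⁻¹ α₀ y`. As `V` is commutative and contains
`a w a⁻¹` (`act_spec`): `γ (a w a⁻¹) γ⁻¹ = x⁻¹ α₀ y (a w a⁻¹) y⁻¹ α₀⁻¹ x = x⁻¹ α₀ (a w a⁻¹) α₀⁻¹ x
= x⁻¹ a (α₀ w α₀⁻¹) a⁻¹ x`, and
`α₀ w α₀⁻¹ = x γ (y⁻¹ w y) γ⁻¹ x⁻¹ = x (γ w γ⁻¹) x⁻¹ = x w' x⁻¹ = w'`.
So the result is `x⁻¹ (a w' a⁻¹) x = a w' a⁻¹`. -/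
theorem gamma_three {x y : M} {α β α' β' : H} (hα : α ∈ S.A) (hα' : α' ∈ S.A)
    (hx : T.ι x = α * β⁻¹) (hy : T.ι y = α' * β'⁻¹) {w w' : M}
    (hw : (β * β'⁻¹) * T.ι w * (β * β'⁻¹)⁻¹ = T.ι w') {a : H} (haA : a ∈ S.A) (haG : a ∈ S.G) :
    (β * β'⁻¹) * T.ι (T.act a w) * (β * β'⁻¹)⁻¹ = T.ι (T.act a w') := by
  have h1 := T.act_spec a haG w
  have h2 := T.act_spec a haG w'
  have hβ : β = (T.ι x)⁻¹ * α := by
    rw [hx]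
    group
  have hβ' : β'⁻¹ = α'⁻¹ * T.ι y := by
    rw [hy]
    group
  have hγ : β * β'⁻¹ = (T.ι x)⁻¹ * (α * α'⁻¹) * T.ι y := by
    rw [hβ', hβ]
    group
  have hα0 : α * α'⁻¹ ∈ S.A := S.A.mul_mem hα (S.A.inv_mem hα')
  rw [hγ] at hw ⊢
  generalize α * α'⁻¹ = α0 at *
  have hcom : α0 * a = a * α0 := S.cA α0 hα0 a haA
  have cy : ∀ v : M, T.ι y * T.ι v * (T.ι y)⁻¹ = T.ι v := by
    intro v
    rw [T.ι_comm]
    group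
  have cx : ∀ v : M, T.ι x * T.ι v * (T.ι x)⁻¹ = T.ι v := by
    intro v
    rw [T.ι_comm]
    group
  have cx' : ∀ v : M, (T.ι x)⁻¹ * T.ι v * T.ι x = T.ι v := by
    intro v
    rw [mul_assoc, T.ι_comm v x]
    group
  have k1 : α0 * T.ι w * α0⁻¹ = T.ι w' := by
    have h3 : (T.ι x)⁻¹ * α0 * T.ι y * T.ι w * ((T.ι x)⁻¹ * α0 * T.ι y)⁻¹ =
        (T.ι x)⁻¹ * (α0 * (T.ι y * T.ι w * (T.ι y)⁻¹) * α0⁻¹) * T.ι x := by group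
    rw [h3, cy] at hw
    rw [← cx w', ← hw]
    group
  have e1 : (T.ι x)⁻¹ * α0 * T.ι y * T.ι (T.act a w) * ((T.ι x)⁻¹ * α0 * T.ι y)⁻¹ =
      (T.ι x)⁻¹ * (α0 * (T.ι y * T.ι (T.act a w) * (T.ι y)⁻¹) * α0⁻¹) * T.ι x := by group
  have e2 : α0 * (a * T.ι w * a⁻¹) * α0⁻¹ = a * (α0 * T.ι w * α0⁻¹) * a⁻¹ := by
    calc α0 * (a * T.ι w * a⁻¹) * α0⁻¹ = (α0 * a) * T.ι w * (α0 * a)⁻¹ := by group
      _ = (a * α0) * T.ι w * (a * α0)⁻¹ := by rw [hcom]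
      _ = a * (α0 * T.ι w * α0⁻¹) * a⁻¹ := by group
  rw [e1, cy, h1, e2, k1, ← h2, cx']

end TData

end Pool.Agent.AO
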