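import Pool.Agent.AO.LinA
import Pool.Agent.AO.Assoc

/-!
# The finite submodule `V1` (module AO-TFour)
-/

set_option autoImplicit false

namespace Pool.Agent.AO

open MonoidAlgebra

variable {H : Type*} [Group H] {𝔻 : Type*} [CommGroup 𝔻] {Q : Type*} [Fintype Q]

private theorem TFour_comap_fin (τ : 𝔻 ≃* 𝔻) (E : Subgroup 𝔻) (hE : E.FiniteIndex) :
    (E.comap (τ : 𝔻 →* 𝔻)).FiniteIndex := by
  refine ⟨?_⟩
  rw [Subgroup.index_comap_of_surjective E (f := (τ : 𝔻 →* 𝔻)) τ.surjective]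
  exact hE.index_ne_zero

private theorem TFour_ne_bot [Infinite 𝔻] (E : Subgroup 𝔻) (h : E.FiniteIndex) :
    ∃ d ∈ E, d ≠ 1 := by
  by_contra hcon
  push Not at hcon
  have h1 : E = ⊥ := by
    rw [Subgroup.eq_bot_iff_forall]
    exact hcon
  rw [h1] at h
  have := h.index_ne_zero
  rw [Subgroup.index_bot] at this
  exact this Nat.card_eq_zero_of_infinite

private theorem TFour_infinite (S : Core H 𝔻 Q)
    (htf : ∀ (d : 𝔻) (n : ℕ), n ≠ 0 → d ^ n = 1 → d = 1) : Infinite 𝔻 := by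
  by_contra hcon
  rw [not_infinite_iff_finite] at hcon
  haveI := Fintype.ofFinite 𝔻
  obtain ⟨d, hd⟩ := S.nt
  exact hd (htf d (Fintype.card 𝔻) Fintype.card_ne_zero pow_card_eq_one)

private theorem TFour_aux {N : Type*} [AddCommGroup N] [Group.FG 𝔻] [Nonempty Q]
    (Φ : MonoidAlgebra ℤ 𝔻 →ₐ[ℤ] Module.End ℤ N) (W : AddSubgroup N)
    (hW : ∀ x, ∀ v ∈ W, Φ x v ∈ W) (σ : Q → 𝔻 ≃* 𝔻) (κ : 𝔻 → Q) (w : N) (hw : w ∉ W)
    (hκ : ∀ e f, κ e = κ f → Φ (rR σ e) w = Φ (rR σ f) w) :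
    ∃ y, y ∉ W ∧ ∃ E : Subgroup 𝔻, E.FiniteIndex ∧
      ∀ k ∈ E, Φ (MonoidAlgebra.of ℤ 𝔻 k) y - y ∈ W := by
  letI : Module (MonoidAlgebra ℤ 𝔻) N := Module.compHom N Φ.toRingHom
  have hsmul : ∀ (x : MonoidAlgebra ℤ 𝔻) (v : N), x • v = Φ x v := fun x v => rfl
  let W' : Submodule (MonoidAlgebra ℤ 𝔻) N :=
    { carrier := W
      add_mem' := fun ha hb => W.add_mem ha hb
      zero_mem' := W.zero_mem
      smul_mem' := fun x v hv => hW x v hv }
  have hmem : ∀ v, v ∈ W' ↔ v ∈ W := fun v => Iff.rfl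
  obtain ⟨y', hy', E, hE, h⟩ := exists_fixed (N := N ⧸ W') σ κ (W'.mkQ w)
    (by
      intro h0
      apply hw
      rw [Submodule.mkQ_apply, Submodule.Quotient.mk_eq_zero] at h0
      exact h0)
    (by
      intro e f hef
      rw [← map_smul, ← map_smul, hsmul, hsmul, hκ e f hef])
  obtain ⟨y, rfl⟩ := W'.mkQ_surjective y'
  refine ⟨y, ?_, E, hE, ?_⟩
  · intro h0
    apply hy'
    rw [Submodule.mkQ_apply, Submodule.Quotient.mk_eq_zero]
    exact h0
  · intro k hk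
    have h1 := h k hk
    rw [← map_smul, Submodule.mkQ_apply, Submodule.mkQ_apply, Submodule.Quotient.eq, hsmul] at h1
    exact h1

namespace TData

variable {S : Core H 𝔻 Q} {M : Type*} [AddCommGroup M] (T : TData S M)

/-- The elements of `M` fixed by a subgroup of finite index of `𝔻`. -/
def V1 : AddSubgroup M where
  carrier := {v | ∃ E : Subgroup 𝔻, E.FiniteIndex ∧ ∀ k ∈ E, T.ρ k v = v}
  zero_mem' := ⟨⊤, inferInstance, fun k _ => map_zero _⟩
  add_mem' := by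
    rintro v w ⟨E, hE, h⟩ ⟨F, hF, h'⟩
    refine ⟨E ⊓ F, inferInstance, fun k hk => ?_⟩
    rw [map_add, h k hk.1, h' k hk.2]
  neg_mem' := by
    rintro v ⟨E, hE, h⟩
    exact ⟨E, hE, fun k hk => by rw [map_neg, h k hk]⟩

theorem mem_V1 (v : M) :
    v ∈ T.V1 ↔ ∃ E : Subgroup 𝔻, E.FiniteIndex ∧ ∀ k ∈ E, T.ρ k v = v := Iff.rfl

/-- PROOF. `𝔻` is torsion-free and nontrivial (`nt`), so infinite. Every finite subset `F` of `V1`
is contained in `{v | ∀ q, ρ (σ q d) v = v}` for some `d ≠ 1`: the intersection `E` of the subgroups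
belonging to the elements of `F` has finite index, so has `⋂_q (σ q)⁻¹(E)`, and a subgroup of
finite index in an infinite group is nontrivial. So `|F| ≤ |Q|` by `DData.fix`
(`Set.ncard_le_ncard`). If `V1` were infinite it would have a finite subset with `|Q| + 1` elements
(`Set.Infinite.exists_subset_card_eq`). -/
theorem V1_finite (htf : ∀ (d : 𝔻) (n : ℕ), n ≠ 0 → d ^ n = 1 → d = 1) :
    (T.V1 : Set M).Finite := by
  classical
  by_contra hinf
  have hinf' : (T.V1 : Set M).Infinite := hinf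
  obtain ⟨F, hF, hcard⟩ := hinf'.exists_subset_card_eq (Fintype.card Q + 1)
  have h1 : ∀ v : M, ∃ E : Subgroup 𝔻, E.FiniteIndex ∧ (v ∈ T.V1 → ∀ k ∈ E, T.ρ k v = v) := by
    intro v
    by_cases hv : v ∈ T.V1
    · obtain ⟨E, hE, h⟩ := hv
      exact ⟨E, hE, fun _ => h⟩
    · exact ⟨⊤, inferInstance, fun h => absurd h hv⟩
  choose E hE hE' using h1
  have hE1 : (⨅ v : F, E v.1).FiniteIndex := Subgroup.finiteIndex_iInf fun v => hE v.1
  have hE2 : (⨅ q : Q, (⨅ v : F, E v.1).comap (T.σ q : 𝔻 →* 𝔻)).FiniteIndex :=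
    Subgroup.finiteIndex_iInf fun q => TFour_comap_fin (T.σ q) _ hE1
  haveI := TFour_infinite S htf
  obtain ⟨d, hd, hd1⟩ := TFour_ne_bot _ hE2
  have h3 := T.fix hd1
  have h4 : (F : Set M) ⊆ {v : M | ∀ q, T.ρ (T.σ q d) v = v} := by
    intro v hv q
    have h5 := (Subgroup.mem_iInf.1 hd) q
    have h6 := (Subgroup.mem_iInf.1 (Subgroup.mem_comap.1 h5)) ⟨v, hv⟩
    exact hE' v (hF hv) _ h6
  have h5 := Set.ncard_le_ncard h4 h3.1
  rw [Set.ncard_coe_finset, hcard] at h5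
  have h6 := h3.2
  omega

/-- PROOF. The map `E → V1`, `k ↦ ρ k v - v` takes finitely many values (`V1_finite`), and if it
takes the same value at `k, k'` then `ρ k v = ρ k' v`, so `k⁻¹ k'` fixes `v`. So the stabiliser of
`v` in `E` (a subgroup `E'` of `𝔻`) has finite index: the cosets of `E'` in `E` inject into
the finite set `V1`, and `E` has finite index in `𝔻`. -/
theorem V1_lift (htf : ∀ (d : 𝔻) (n : ℕ), n ≠ 0 → d ^ n = 1 → d = 1) {v : M} {E : Subgroup 𝔻}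
    (hE : E.FiniteIndex) (h : ∀ k ∈ E, T.ρ k v - v ∈ T.V1) : v ∈ T.V1 := by
  classical
  let E' : Subgroup 𝔻 :=
    { carrier := {k | k ∈ E ∧ T.ρ k v = v}
      mul_mem' := by
        rintro a b ⟨ha, ha'⟩ ⟨hb, hb'⟩
        refine ⟨E.mul_mem ha hb, ?_⟩
        rw [map_mul, Module.End.mul_apply, hb', ha']
      one_mem' := ⟨E.one_mem, by rw [map_one, Module.End.one_apply]⟩
      inv_mem' := by
        rintro a ⟨ha, ha'⟩
        refine ⟨E.inv_mem ha, ?_⟩
        conv_lhs => rw [← ha']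
        rw [← Module.End.mul_apply, ← map_mul, inv_mul_cancel, map_one, Module.End.one_apply] }
  have hmem : ∀ k, k ∈ E' ↔ k ∈ E ∧ T.ρ k v = v := fun k => Iff.rfl
  have hle : E' ≤ E := fun k hk => hk.1
  haveI hfin : Finite T.V1 := T.V1_finite htf
  haveI : Finite (E ⧸ E'.subgroupOf E) := by
    apply Finite.of_injective
      (fun c : E ⧸ E'.subgroupOf E => (⟨T.ρ c.out.1 v - v, h _ c.out.2⟩ : T.V1))
    intro c c' hcc
    have h1 : T.ρ c.out.1 v - v = T.ρ c'.out.1 v - v := congrArg Subtype.val hcc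
    have h2 : T.ρ c.out.1 v = T.ρ c'.out.1 v := sub_left_injective h1
    have h3 : c.out⁻¹ * c'.out ∈ E'.subgroupOf E := by
      rw [Subgroup.mem_subgroupOf, hmem]
      refine ⟨(c.out⁻¹ * c'.out).2, ?_⟩
      rw [Subgroup.coe_mul, Subgroup.coe_inv, map_mul, Module.End.mul_apply, ← h2,
        ← Module.End.mul_apply, ← map_mul, inv_mul_cancel, map_one, Module.End.one_apply]
    rw [← QuotientGroup.eq] at h3
    rwa [QuotientGroup.out_eq', QuotientGroup.out_eq'] at h3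
  refine ⟨E', ⟨?_⟩, fun k hk => hk.2⟩
  rw [← Subgroup.relIndex_mul_index hle]
  exact mul_ne_zero Subgroup.index_ne_zero_of_finite hE.index_ne_zero

/-- `V1` is invariant under `G`.
PROOF. Let `g ∈ G`; by `G_G1` (and the identity `g = (g b) b⁻¹`) it is enough to consider
`g ∈ G1` (`act_ρ_G1`, same subgroup `E`) and `g ∈ B ∩ G`: for `b ∈ B ∩ G` with `τ` the conjugation by
`b` (`exists_tau`), `b (ρ k v) = ρ (τ k) (b v)` (`act_ρ_B`), so `τ(E)` fixes `b v`. Use `act_mul`. -/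
theorem V1_act {g : H} (hg : g ∈ S.G) {v : M} (hv : v ∈ T.V1) : T.act g v ∈ T.V1 := by
  have hB : ∀ b ∈ S.B, b ∈ S.G → ∀ u ∈ T.V1, T.act b u ∈ T.V1 := by
    rintro b hb hbG u ⟨E, hE, h⟩
    obtain ⟨τ, hτ⟩ := DData.exists_tau (S := S) hb
    refine ⟨E.comap (τ.symm : 𝔻 →* 𝔻), TFour_comap_fin τ.symm E hE, ?_⟩
    intro k hk
    have h1 : τ.symm k ∈ E := hk
    have h2 : S.j k = b * S.j (τ.symm k) * b⁻¹ := by
      rw [← hτ, MulEquiv.apply_symm_apply]
    rw [← T.act_ρ_B hbG h2, h _ h1]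
  have h1 : ∀ g ∈ T.G1, ∀ u ∈ T.V1, T.act g u ∈ T.V1 := by
    rintro g hg u ⟨E, hE, h⟩
    refine ⟨E, hE, fun k hk => ?_⟩
    rw [← T.act_ρ_G1 hg, h k hk]
  obtain ⟨b, hb, hbG, hgb⟩ := T.G_G1 g hg
  have h2 : T.act g v = T.act (g * b) (T.act b⁻¹ v) := by
    rw [← Module.End.mul_apply, ← T.act_mul (T.G1_le hgb) (S.G.inv_mem hbG), mul_inv_cancel_right]
  rw [h2]
  exact h1 _ hgb _ (hB _ (S.B.inv_mem hb) (S.G.inv_mem hbG) _ hv)

/-- PROOF. Suppose not. Let `w = a0 (c v) - c (a0 v) ∉ V1`. Let `κ` be as in `exists_kappa`.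
Make `M` a module over `R = ℤ[𝔻]` via `Φ` (`Module.compHom M T.Φ.toRingHom`, `letI`), `V1` is an
`R`-submodule (it is invariant under `ρ d` for all `d` since `𝔻` is commutative, so under all
`Φ x` by induction on `x`), and apply `exists_fixed` to `N = M ⧸ V1` and the image of `w`
(`Q` is nonempty by `hT` for `1 ∈ B`): there is `y ∈ M \ V1` and `E` of finite index with
`ρ k y - y ∈ V1` for `k ∈ E`. By `V1_lift` `y ∈ V1`: contradiction. -/
theorem comm_mem_V1 [Group.FG 𝔻] (htf : ∀ (d : 𝔻) (n : ℕ), n ≠ 0 → d ^ n = 1 → d = 1)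
    {a0 : H} (ha0A : a0 ∈ S.A) (ha0 : a0 ∈ T.G1) {c : H} (hc : c ∈ S.C) (hcG : c ∈ S.G) (v : M) :
    T.act a0 (T.act c v) - T.act c (T.act a0 v) ∈ T.V1 := by
  by_contra hw
  obtain ⟨κ, hκ⟩ := T.exists_kappa ha0A ha0
  haveI : Nonempty Q := by
    obtain ⟨q, _⟩ := S.hT 1 S.B.one_mem
    exact ⟨q⟩
  have hρ : ∀ d : 𝔻, ∀ u ∈ T.V1, T.ρ d u ∈ T.V1 := by
    rintro d u ⟨E, hE, h⟩
    refine ⟨E, hE, fun k hk => ?_⟩
    rw [← Module.End.mul_apply, ← map_mul, mul_comm, map_mul, Module.End.mul_apply, h k hk]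
  have hΦ : ∀ x : MonoidAlgebra ℤ 𝔻, ∀ u ∈ T.V1, T.Φ x u ∈ T.V1 := by
    intro x u hu
    induction x using MonoidAlgebra.induction_on with
    | of d =>
      rw [T.Φ_of]
      exact hρ d u hu
    | add f g hf hg =>
      rw [map_add, LinearMap.add_apply]
      exact T.V1.add_mem hf hg
    | smul r f hf =>
      rw [map_smul, LinearMap.smul_apply]
      exact T.V1.zsmul_mem hf r
  obtain ⟨y, hy, E, hE, h⟩ := TFour_aux T.Φ T.V1 hΦ T.σ κ _ hw
    (fun e f hef => hκ e f hef c hc hcG v)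
  apply hy
  apply T.V1_lift htf hE
  intro k hk
  have h1 := h k hk
  rw [T.Φ_of] at h1
  exact h1

end TData

end Pool.Agent.AO
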