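import Pool.Agent.AO.Cent

/-!
# `V` is normalised by `G` if `𝔻` is torsion-free (module AO-TOne)

Notation: `d` stands for `S.j d`; `Gam' ` is the group generated by the commutators
`[x, y] = x y x⁻¹ y⁻¹` of elements of `Gam`.
-/

set_option autoImplicit false

namespace Pool.Agent.AO

namespace Core

variable {H : Type*} [Group H] {𝔻 : Type*} [CommGroup 𝔻] {Q : Type*} [Fintype Q]
variable (S : Core H 𝔻 Q)

/-- The set of elements of `Gam` commuting with all commutators of `Gam`. -/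
def Good (w : H) : Prop :=
  w ∈ S.Gam ∧ ∀ x ∈ S.Gam, ∀ y ∈ S.Gam, Commute w (x * y * x⁻¹ * y⁻¹)

/-- PROOF. `x = v d`, `y = w e` (`mem_Gam`) with `v, w ∈ V`, `d, e ∈ 𝔻`. Then
`x y x⁻¹ y⁻¹ = v (d w d⁻¹) (e v⁻¹ e⁻¹) w⁻¹` (since `d e = e d`) lies in `V` by `D_norm_V`. -/
theorem comm_mem_V : ∀ x ∈ S.Gam, ∀ y ∈ S.Gam, x * y * x⁻¹ * y⁻¹ ∈ S.V := by
  intro x hx y hy
  obtain ⟨v, hv, d, rfl⟩ := (mem_Gam S x).1 hx
  obtain ⟨w, hw, e, rfl⟩ := (mem_Gam S y).1 hy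
  have h1 : S.j d * S.j e * (S.j d)⁻¹ = S.j e := by
    rw [← map_mul, mul_comm d e, map_mul]; group
  have h2 : v * S.j d * (w * S.j e) * (v * S.j d)⁻¹ * (w * S.j e)⁻¹ =
      v * (S.j d * w * (S.j d)⁻¹) * (S.j e * v⁻¹ * (S.j e)⁻¹) * w⁻¹ := by
    calc v * S.j d * (w * S.j e) * (v * S.j d)⁻¹ * (w * S.j e)⁻¹
        = v * (S.j d * w * (S.j d)⁻¹) * ((S.j d * S.j e * (S.j d)⁻¹) * v⁻¹ * (S.j e)⁻¹) * w⁻¹ := by
          group
      _ = v * (S.j d * w * (S.j d)⁻¹) * (S.j e * v⁻¹ * (S.j e)⁻¹) * w⁻¹ := by rw [h1]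
  rw [h2]
  exact mul_mem (mul_mem (mul_mem hv (D_norm_V S d w hw)) (D_norm_V S e _ (inv_mem hv)))
    (inv_mem hw)

/-- PROOF. If `x` is good then `g x g⁻¹` is good for `g ∈ G`: conjugation by `g` maps `Gam` onto
`Gam` (`G_norm_Gam` for `g` and `g⁻¹`) and commutators to commutators. -/
theorem Good.conj {x : H} (hx : S.Good x) : ∀ g ∈ S.G, S.Good (g * x * g⁻¹) := by
  intro g hg
  refine ⟨G_norm_Gam S g hg x hx.1, fun a ha b hb => ?_⟩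
  have ha' : g⁻¹ * a * g⁻¹⁻¹ ∈ S.Gam := G_norm_Gam S g⁻¹ (inv_mem hg) a ha
  have hb' : g⁻¹ * b * g⁻¹⁻¹ ∈ S.Gam := G_norm_Gam S g⁻¹ (inv_mem hg) b hb
  have h1 := (hx.2 _ ha' _ hb').eq
  have h2 : g⁻¹ * a * g⁻¹⁻¹ * (g⁻¹ * b * g⁻¹⁻¹) * (g⁻¹ * a * g⁻¹⁻¹)⁻¹ * (g⁻¹ * b * g⁻¹⁻¹)⁻¹ =
      g⁻¹ * (a * b * a⁻¹ * b⁻¹) * g := by group
  rw [h2] at h1
  show g * x * g⁻¹ * (a * b * a⁻¹ * b⁻¹) = a * b * a⁻¹ * b⁻¹ * (g * x * g⁻¹)
  calc g * x * g⁻¹ * (a * b * a⁻¹ * b⁻¹) = g * (x * (g⁻¹ * (a * b * a⁻¹ * b⁻¹) * g)) * g⁻¹ := by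
        group
    _ = g * (g⁻¹ * (a * b * a⁻¹ * b⁻¹) * g * x) * g⁻¹ := by rw [h1]
    _ = a * b * a⁻¹ * b⁻¹ * (g * x * g⁻¹) := by group

/-- PROOF. `comm_mem_V` and `V_comm`, `V_le_Gam`. -/
theorem good_of_V {x : H} (hx : x ∈ S.V) : S.Good x := by
  refine ⟨V_le_Gam S hx, fun a ha b hb => ?_⟩
  exact V_comm S x hx _ (comm_mem_V S a ha b hb)

/-- An element `j d`, `d : 𝔻`, which is good is trivial if `𝔻` is torsion-free.
PROOF. Suppose `j d` commutes with all commutators of `Gam`. Let `w ∈ V`, put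
`u = d w d⁻¹ w⁻¹ ∈ V`. For `e : 𝔻` the element `e w e⁻¹ w⁻¹` is a commutator of elements of `Gam`,
so `d (e w e⁻¹ w⁻¹) d⁻¹ = e w e⁻¹ w⁻¹`, which says (as `V` is commutative and `d e = e d`) that
`e u e⁻¹ = u`: indeed `(d e w e⁻¹ d⁻¹) (d w⁻¹ d⁻¹) = (e w e⁻¹) w⁻¹`, so
`e (d w d⁻¹) e⁻¹ · (e w e⁻¹)⁻¹ = w⁻¹ (d w d⁻¹)` and `e u e⁻¹ = u`. So `u` commutes with all of
`j(𝔻)`. Suppose `d ≠ 1`. Then `u` is in the set `F` of `fix_small` for `d` (`t q d (t q)⁻¹ ∈ j(𝔻)` by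
`jB`), intersected with the centraliser of `j(𝔻)`, which is a finite group; let `m > 0` be its order
(or `m` = the factorial of `|Q|`); then `u^m = 1`. As `u` commutes with `d`,
`d^k w d^{-k} = u^k w` for all `k` (induction on `k`: `d (u^k w) d⁻¹ = u^k (d w d⁻¹) = u^k u w`), so
`d^m` commutes with `w`. So `d^m` commutes with all `w ∈ V` and with `j(𝔻)`, so with `Gam`
(`mem_Gam`), and `j (d^m) ∈ C`, so `j (d^m) = 1` by `cent_inf_C`, `d^m = 1` by `jinj`, and `d = 1`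
by `htf`. -/
theorem good_j (htf : ∀ (d : 𝔻) (n : ℕ), n ≠ 0 → d ^ n = 1 → d = 1) {d : 𝔻}
    (h : S.Good (S.j d)) : d = 1 := by
  by_contra hd
  -- the finite group of the elements of `V` commuting with all `j e`
  let Y : Subgroup H := S.V ⊓ Subgroup.centralizer (Set.range S.j)
  have hYfin : (Y : Set H).Finite := by
    refine (fix_small S hd).1.subset ?_
    intro v hv
    have hv' := Subgroup.mem_inf.1 hv
    refine ⟨hv'.1, fun q => ?_⟩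
    obtain ⟨d', hd'⟩ := S.jB (S.t q) (S.tB q) d
    rw [hd']
    exact ((Subgroup.mem_centralizer_iff.1 hv'.2) _ ⟨d', rfl⟩).symm
  have : Finite Y := hYfin
  have hm : Nat.card Y ≠ 0 := Nat.card_pos.ne'
  have hcomm : ∀ w ∈ S.V, Commute (S.j (d ^ Nat.card Y)) w := by
    intro w hw
    have hWd : S.j d * w * (S.j d)⁻¹ ∈ S.V := D_norm_V S d w hw
    have huV : S.j d * w * (S.j d)⁻¹ * w⁻¹ ∈ S.V := mul_mem hWd (inv_mem hw)
    have hue : ∀ e : 𝔻, S.j e * (S.j d * w * (S.j d)⁻¹ * w⁻¹) =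
        (S.j d * w * (S.j d)⁻¹ * w⁻¹) * S.j e := by
      intro e
      have hWe : S.j e * w * (S.j e)⁻¹ ∈ S.V := D_norm_V S e w hw
      have h1 := (h.2 _ (j_mem_Gam S e) _ (V_le_Gam S hw)).eq
      have h2 : S.j e * S.j d = S.j d * S.j e := by
        rw [← map_mul, mul_comm e d, map_mul]
      have h3 : (S.j e * w * (S.j e)⁻¹) * w⁻¹ = w⁻¹ * (S.j e * w * (S.j e)⁻¹) :=
        V_comm S _ hWe _ (inv_mem hw)
      have h4 : (S.j e * w * (S.j e)⁻¹) * (w⁻¹ * (S.j d * w * (S.j d)⁻¹)) =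
          (w⁻¹ * (S.j d * w * (S.j d)⁻¹)) * (S.j e * w * (S.j e)⁻¹) :=
        V_comm S _ hWe _ (mul_mem (inv_mem hw) hWd)
      have h5 : (S.j d * w * (S.j d)⁻¹) * w⁻¹ = w⁻¹ * (S.j d * w * (S.j d)⁻¹) :=
        V_comm S _ hWd _ (inv_mem hw)
      have h6 : S.j d * (S.j e * w * (S.j e)⁻¹) * (S.j d)⁻¹ =
          (S.j e * w * (S.j e)⁻¹) * (w⁻¹ * (S.j d * w * (S.j d)⁻¹)) := by
        calc S.j d * (S.j e * w * (S.j e)⁻¹) * (S.j d)⁻¹
            = (S.j d * (S.j e * w * (S.j e)⁻¹ * w⁻¹)) * w * (S.j d)⁻¹ := by group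
          _ = ((S.j e * w * (S.j e)⁻¹ * w⁻¹) * S.j d) * w * (S.j d)⁻¹ := by rw [h1]
          _ = (S.j e * w * (S.j e)⁻¹) * (w⁻¹ * (S.j d * w * (S.j d)⁻¹)) := by group
      have h7 : S.j e * (S.j d * w * (S.j d)⁻¹ * w⁻¹) * (S.j e)⁻¹ =
          S.j d * w * (S.j d)⁻¹ * w⁻¹ := by
        calc S.j e * (S.j d * w * (S.j d)⁻¹ * w⁻¹) * (S.j e)⁻¹
            = (S.j e * S.j d) * w * (S.j e * S.j d)⁻¹ * (S.j e * w * (S.j e)⁻¹)⁻¹ := by group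
          _ = (S.j d * S.j e) * w * (S.j d * S.j e)⁻¹ * (S.j e * w * (S.j e)⁻¹)⁻¹ := by rw [h2]
          _ = (S.j d * (S.j e * w * (S.j e)⁻¹) * (S.j d)⁻¹) * (S.j e * w * (S.j e)⁻¹)⁻¹ := by group
          _ = (w⁻¹ * (S.j d * w * (S.j d)⁻¹)) * (S.j e * w * (S.j e)⁻¹) *
                (S.j e * w * (S.j e)⁻¹)⁻¹ := by rw [h6, h4]
          _ = w⁻¹ * (S.j d * w * (S.j d)⁻¹) := by group
          _ = S.j d * w * (S.j d)⁻¹ * w⁻¹ := h5.symm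
      calc S.j e * (S.j d * w * (S.j d)⁻¹ * w⁻¹)
          = (S.j e * (S.j d * w * (S.j d)⁻¹ * w⁻¹) * (S.j e)⁻¹) * S.j e := by group
        _ = (S.j d * w * (S.j d)⁻¹ * w⁻¹) * S.j e := by rw [h7]
    have huY : S.j d * w * (S.j d)⁻¹ * w⁻¹ ∈ Y := by
      refine Subgroup.mem_inf.2 ⟨huV, ?_⟩
      rw [Subgroup.mem_centralizer_iff]
      rintro y ⟨e, rfl⟩
      exact hue e
    have hum : (S.j d * w * (S.j d)⁻¹ * w⁻¹) ^ Nat.card Y = 1 := by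
      have h8 : (⟨_, huY⟩ : Y) ^ Nat.card Y = 1 := pow_card_eq_one'
      have h9 := congrArg (fun z : Y => (z : H)) h8
      rw [Subgroup.coe_pow] at h9
      exact h9
    have hpow : ∀ k : ℕ, (S.j d) ^ k * w =
        (S.j d * w * (S.j d)⁻¹ * w⁻¹) ^ k * w * (S.j d) ^ k := by
      intro k
      induction k with
      | zero => simp
      | succ k ih =>
        have hc : Commute (S.j d) ((S.j d * w * (S.j d)⁻¹ * w⁻¹) ^ k) :=
          Commute.pow_right (hue d) k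
        calc (S.j d) ^ (k + 1) * w = S.j d * ((S.j d) ^ k * w) := by rw [pow_succ']; group
          _ = S.j d * ((S.j d * w * (S.j d)⁻¹ * w⁻¹) ^ k * w * (S.j d) ^ k) := by rw [ih]
          _ = (S.j d * (S.j d * w * (S.j d)⁻¹ * w⁻¹) ^ k) * (w * (S.j d) ^ k) := by
              simp only [mul_assoc]
          _ = ((S.j d * w * (S.j d)⁻¹ * w⁻¹) ^ k * S.j d) * (w * (S.j d) ^ k) := by rw [hc.eq]
          _ = (S.j d * w * (S.j d)⁻¹ * w⁻¹) ^ k * ((S.j d * w * (S.j d)⁻¹ * w⁻¹) * w *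
                (S.j d * (S.j d) ^ k)) := by
              group
          _ = (S.j d * w * (S.j d)⁻¹ * w⁻¹) ^ (k + 1) * w * (S.j d) ^ (k + 1) := by
              rw [pow_succ (S.j d * w * (S.j d)⁻¹ * w⁻¹) k, pow_succ' (S.j d) k]
              simp only [mul_assoc]
    have h10 := hpow (Nat.card Y)
    rw [hum, one_mul] at h10
    rw [map_pow]
    exact h10
  have hj1 : S.j (d ^ Nat.card Y) = 1 := by
    refine cent_inf_C S (S.jC _) fun x hx => ?_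
    obtain ⟨w, hw, e, rfl⟩ := (mem_Gam S x).1 hx
    exact (hcomm w hw).mul_right (S.cC _ (S.jC _) _ (S.jC _))
  have hd1 : d ^ Nat.card Y = 1 := S.jinj (by rw [hj1, map_one])
  exact hd (htf d _ hm hd1)

/-- PROOF. Let `v ∈ V`, `g ∈ G`. By `good_of_V` and `Good.conj` the element `x = g v g⁻¹` is good.
Write `x = v' d` (`mem_Gam`), `v' ∈ V`. As `v'` is good, `j d = v'⁻¹ x` commutes with all commutators
of `Gam`, so it is good (it is in `Gam`), `d = 1` by `good_j` and `x = v' ∈ V`. -/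
theorem V_norm (htf : ∀ (d : 𝔻) (n : ℕ), n ≠ 0 → d ^ n = 1 → d = 1) :
    ∀ g ∈ S.G, ∀ v ∈ S.V, g * v * g⁻¹ ∈ S.V := by
  intro g hg v hv
  have hx : S.Good (g * v * g⁻¹) := Good.conj S (good_of_V S hv) g hg
  obtain ⟨v', hv', d, hd⟩ := (mem_Gam S _).1 hx.1
  have hj : S.j d = v'⁻¹ * (g * v * g⁻¹) := by rw [hd]; group
  have hgj : S.Good (S.j d) := by
    refine ⟨j_mem_Gam S d, fun a ha b hb => ?_⟩
    rw [hj]
    exact (((good_of_V S hv').2 a ha b hb).inv_left).mul_left (hx.2 a ha b hb)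
  have hd1 : d = 1 := good_j S htf hgj
  rw [hd, hd1, map_one, mul_one]
  exact hv'

end Core

end Pool.Agent.AO
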