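import Pool.Agent.AO.Defs

/-!
# Ultrapowers of `Pre` (module AO-Ultra)
-/

set_option autoImplicit false

namespace Pool.Agent.AO

open Filter

variable {I : Type*} {H : Type*} [Group H]

/-- The ultrapower of `H`. -/
abbrev UP (𝒰 : Ultrafilter I) (H : Type*) := (𝒰 : Filter I).Germ H

/-- The ultrapower of a subgroup. -/
def starSub (𝒰 : Ultrafilter I) (K : Subgroup H) : Subgroup (UP 𝒰 H) where
  carrier := {x | x.LiftPred (· ∈ K)}
  one_mem' := by
    change ∀ᶠ _ in (𝒰 : Filter I), (1 : H) ∈ K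
    exact Eventually.of_forall fun _ => one_mem K
  mul_mem' := by
    intro x y
    induction x using Germ.inductionOn with | _ f
    induction y using Germ.inductionOn with | _ g
    intro (hf : ∀ᶠ i in (𝒰 : Filter I), f i ∈ K) (hg : ∀ᶠ i in (𝒰 : Filter I), g i ∈ K)
    change ∀ᶠ i in (𝒰 : Filter I), f i * g i ∈ K
    filter_upwards [hf, hg] with i h1 h2 using mul_mem h1 h2
  inv_mem' := by
    intro x
    induction x using Germ.inductionOn with | _ f
    intro (hf : ∀ᶠ i in (𝒰 : Filter I), f i ∈ K)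
    change ∀ᶠ i in (𝒰 : Filter I), (f i)⁻¹ ∈ K
    filter_upwards [hf] with i h1 using inv_mem h1

theorem mem_starSub (𝒰 : Ultrafilter I) (K : Subgroup H) (f : I → H) :
    ((f : (𝒰 : Filter I).Germ H) ∈ starSub 𝒰 K) ↔ ∀ᶠ i in (𝒰 : Filter I), f i ∈ K := Iff.rfl

/-- The diagonal embedding. -/
def cst (𝒰 : Ultrafilter I) (H : Type*) [Group H] : H →* UP 𝒰 H where
  toFun h := ((fun _ => h : I → H) : (𝒰 : Filter I).Germ H)
  map_one' := rfl
  map_mul' _ _ := rfl

theorem cst_injective (𝒰 : Ultrafilter I) : Function.Injective (cst 𝒰 H) := by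
  intro x y h
  have h1 : ∀ᶠ _ in (𝒰 : Filter I), x = y := Germ.coe_eq.1 h
  exact h1.exists.choose_spec

/-- If `Q` is finite and for almost all `i` there is `q` with `P i q` then there is `q` with
`P i q` for almost all `i`. PROOF. `Ultrafilter.eventually_exists...`; e.g. by contradiction with
`Ultrafilter.eventually_not` and `eventually_all` (finite intersection). -/
theorem exists_of_eventually_exists (𝒰 : Ultrafilter I) {Q : Type*} [Finite Q] {P : I → Q → Prop}
    (h : ∀ᶠ i in (𝒰 : Filter I), ∃ q, P i q) : ∃ q, ∀ᶠ i in (𝒰 : Filter I), P i q := by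
  by_contra hcon
  push Not at hcon
  have h1 : ∀ q, ∀ᶠ i in (𝒰 : Filter I), ¬ P i q := hcon
  have h2 : ∀ᶠ i in (𝒰 : Filter I), ∀ q, ¬ P i q := eventually_all.2 h1
  obtain ⟨i, hi1, hi2⟩ := (h.and h2).exists
  obtain ⟨q, hq⟩ := hi1
  exact hi2 q hq

/-- The ultrapower of `S : Pre H Q`; the small group is the diagonal copy of the small group of `S`.
PROOF of the fields: each of `cA, cC, hCB, nC, hAB` is checked on representatives
(`Germ.inductionOn`, `filter_upwards`; for `hAB` choose functions by `choose`, for all `i`).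
`hG`, `tB`, `tG`: from the fields of `S` by `cst` (a homomorphism; elements of `S.A` go to
`starSub S.A`). `hT`: if `b` is the germ of `f` with `f i ∈ S.B` almost everywhere, then by
`exists_of_eventually_exists` there is `q` with `(t q)⁻¹ f i ∈ S.C` almost everywhere; uniqueness:
if `q, q'` both work then for some `i` (nonempty intersection, ultrafilter) both
`(t q)⁻¹ f i, (t q')⁻¹ f i ∈ C` and `f i ∈ B`. `h3`: on representatives: for almost all `i` we have
`c i ∈ C`, `c i ≠ 1` (`c ≠ 1` in the ultrapower: `Ultrafilter.eventually_not`), `a i ∈ A` and for all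
`q` (finite: `eventually_all`) `a i (t q c i (t q)⁻¹) (a i)⁻¹ ∈ C`, so `a i = 1`.
`infA`: `cst` is injective and maps `A ⊓ G` into `starSub A ⊓ G.map cst`.
`ntC`: image of the element of `S.ntC`.
`abN`, `finN`: a subgroup `N ≤ G.map cst` is the image of `N.comap cst ⊓ G ≤ S.G`
(in fact `N = (N.comap cst ⊓ S.G).map cst`), which satisfies the hypotheses of
`S.abN`, `S.finN`. -/
def Pre.ultra {Q : Type*} [Fintype Q] (S : Pre H Q) (𝒰 : Ultrafilter I) : Pre (UP 𝒰 H) Q where
  A := starSub 𝒰 S.A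
  B := starSub 𝒰 S.B
  C := starSub 𝒰 S.C
  G := S.G.map (cst 𝒰 H)
  cA := by
    intro x hx y hy
    induction x using Germ.inductionOn with | _ f
    induction y using Germ.inductionOn with | _ g
    have hf : ∀ᶠ i in (𝒰 : Filter I), f i ∈ S.A := hx
    have hg : ∀ᶠ i in (𝒰 : Filter I), g i ∈ S.A := hy
    exact Germ.coe_eq.2 (by
      filter_upwards [hf, hg] with i h1 h2 using S.cA _ h1 _ h2)
  cC := by
    intro x hx y hy
    induction x using Germ.inductionOn with | _ f
    induction y using Germ.inductionOn with | _ g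
    have hf : ∀ᶠ i in (𝒰 : Filter I), f i ∈ S.C := hx
    have hg : ∀ᶠ i in (𝒰 : Filter I), g i ∈ S.C := hy
    exact Germ.coe_eq.2 (by
      filter_upwards [hf, hg] with i h1 h2 using S.cC _ h1 _ h2)
  hCB := by
    intro x hx
    induction x using Germ.inductionOn with | _ f
    have hf : ∀ᶠ i in (𝒰 : Filter I), f i ∈ S.C := hx
    exact hf.mono fun i hi => S.hCB hi
  nC := by
    intro b hb c hc
    induction b using Germ.inductionOn with | _ f
    induction c using Germ.inductionOn with | _ g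
    have hf : ∀ᶠ i in (𝒰 : Filter I), f i ∈ S.B := hb
    have hg : ∀ᶠ i in (𝒰 : Filter I), g i ∈ S.C := hc
    change ∀ᶠ i in (𝒰 : Filter I), f i * g i * (f i)⁻¹ ∈ S.C
    filter_upwards [hf, hg] with i h1 h2 using S.nC _ h1 _ h2
  hAB := by
    intro h
    induction h using Germ.inductionOn with | _ f
    have h1 : ∀ i, ∃ a ∈ S.A, ∃ b ∈ S.B, f i = a * b := fun i => S.hAB (f i)
    choose a ha b hb hab using h1
    exact ⟨((a : I → H) : (𝒰 : Filter I).Germ H), Eventually.of_forall ha,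
      ((b : I → H) : (𝒰 : Filter I).Germ H), Eventually.of_forall hb,
      Germ.coe_eq.2 (Eventually.of_forall hab)⟩
  hG := by
    rintro g ⟨g0, hg0, rfl⟩
    obtain ⟨a, ha, b, hb, haG, hbG, hab⟩ := S.hG g0 hg0
    exact ⟨cst 𝒰 H a, Eventually.of_forall fun _ => ha, cst 𝒰 H b,
      Eventually.of_forall fun _ => hb, ⟨a, haG, rfl⟩, ⟨b, hbG, rfl⟩, by rw [hab, map_mul]⟩
  t q := cst 𝒰 H (S.t q)
  tB := by
    intro q
    exact Eventually.of_forall fun _ => S.tB q
  tG := by
    intro q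
    exact ⟨S.t q, S.tG q, rfl⟩
  hT := by
    intro b hb
    induction b using Germ.inductionOn with | _ f
    have hf : ∀ᶠ i in (𝒰 : Filter I), f i ∈ S.B := hb
    obtain ⟨q, hq⟩ := exists_of_eventually_exists 𝒰 (P := fun i q => (S.t q)⁻¹ * f i ∈ S.C)
      (hf.mono fun i hi => (S.hT (f i) hi).exists)
    refine ⟨q, hq, fun q' hq' => ?_⟩
    have hq2 : ∀ᶠ i in (𝒰 : Filter I), (S.t q')⁻¹ * f i ∈ S.C := hq'
    obtain ⟨i, ⟨h1, h2⟩, h3⟩ := ((hf.and hq).and hq2).exists
    exact (S.hT (f i) h1).unique h3 h2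
  h3 := by
    intro c hc hc1 a ha hq
    induction c using Germ.inductionOn with | _ f
    induction a using Germ.inductionOn with | _ g
    have hf : ∀ᶠ i in (𝒰 : Filter I), f i ∈ S.C := hc
    have hg : ∀ᶠ i in (𝒰 : Filter I), g i ∈ S.A := ha
    have hne : ∀ᶠ i in (𝒰 : Filter I), ¬ f i = 1 :=
      Ultrafilter.eventually_not.2 fun h => hc1 (Germ.coe_eq.2 h)
    have hq' : ∀ᶠ i in (𝒰 : Filter I), ∀ q, g i * (S.t q * f i * (S.t q)⁻¹) * (g i)⁻¹ ∈ S.C :=
      eventually_all.2 fun q => hq q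
    refine Germ.coe_eq.2 ?_
    filter_upwards [hf, hg, hne, hq'] with i h1 h2 h3 h4
    exact S.h3 (f i) h1 h3 (g i) h2 h4
  infA := by
    refine (S.infA.image ((cst_injective 𝒰).injOn)).mono ?_
    rintro _ ⟨x, hx, rfl⟩
    exact ⟨Eventually.of_forall fun _ => hx.1, ⟨x, hx.2, rfl⟩⟩
  ntC := by
    obtain ⟨c, hc, hcG, hc1⟩ := S.ntC
    refine ⟨cst 𝒰 H c, Eventually.of_forall fun _ => hc, ⟨c, hcG, rfl⟩, fun h => hc1 ?_⟩
    exact cst_injective 𝒰 (h.trans (map_one _).symm)
  abN := by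
    intro N hN hnorm hab
    rw [Subgroup.eq_bot_iff_forall]
    intro x hx
    have h0 := S.abN (N.comap (cst 𝒰 H) ⊓ S.G) inf_le_right
      (fun g hg y hy => ⟨by
        change cst 𝒰 H (g * y * g⁻¹) ∈ N
        rw [map_mul, map_mul, map_inv]
        exact hnorm _ ⟨g, hg, rfl⟩ _ hy.1, S.G.mul_mem (S.G.mul_mem hg hy.2) (S.G.inv_mem hg)⟩)
      (fun y hy z hz => cst_injective 𝒰 (by
        rw [map_mul, map_mul]
        exact hab _ hy.1 _ hz.1))
    obtain ⟨x0, hx0, rfl⟩ := hN hx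
    have h1 : x0 ∈ N.comap (cst 𝒰 H) ⊓ S.G := ⟨hx, hx0⟩
    rw [h0] at h1
    rw [Subgroup.mem_bot.1 h1, map_one]
  finN := by
    intro N hN hnorm hfin
    rw [Subgroup.eq_bot_iff_forall]
    intro x hx
    have h0 := S.finN (N.comap (cst 𝒰 H) ⊓ S.G) inf_le_right
      (fun g hg y hy => ⟨by
        change cst 𝒰 H (g * y * g⁻¹) ∈ N
        rw [map_mul, map_mul, map_inv]
        exact hnorm _ ⟨g, hg, rfl⟩ _ hy.1, S.G.mul_mem (S.G.mul_mem hg hy.2) (S.G.inv_mem hg)⟩)
      ((hfin.preimage (cst_injective 𝒰).injOn).subset fun y hy => hy.1)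
    obtain ⟨x0, hx0, rfl⟩ := hN hx
    have h1 : x0 ∈ N.comap (cst 𝒰 H) ⊓ S.G := ⟨hx, hx0⟩
    rw [h0] at h1
    rw [Subgroup.mem_bot.1 h1, map_one]

end Pool.Agent.AO
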