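import Pool.Agent.AO.Ultra

/-!
# Elements of infinite order; constructing a `Core` (module AO-UltraTwo)
-/

set_option autoImplicit false

namespace Pool.Agent.AO

open Filter

variable {H : Type*} [Group H]

/-- If `C` does not have bounded exponent then the ultrapower over a hyperfilter on `ℕ` has an
element of infinite order in its `C`.
PROOF. For every `n` choose `y n ∈ C` with `(y n)^(n!) ≠ 1`. The germ `y` is in `starSub C`. Let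
`m > 0`; for `n ≥ m` (almost all `n`) `(y n)^m ≠ 1` since `m ∣ n!`; so `y ^ m ≠ 1` (the power of a germ
is the germ of the powers). -/
theorem exists_infinite_order {Q : Type*} [Fintype Q] (S : Pre H Q)
    (h : ∀ n : ℕ, 0 < n → ∃ c ∈ S.C, c ^ n ≠ 1) :
    ∃ y ∈ (S.ultra (hyperfilter ℕ)).C, ∀ m : ℕ, 0 < m → y ^ m ≠ 1 := by
  choose y hyC hy using fun n : ℕ => h n.factorial n.factorial_pos
  refine ⟨((y : ℕ → H) : ((hyperfilter ℕ : Ultrafilter ℕ) : Filter ℕ).Germ H), ?_, ?_⟩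
  · change ∀ᶠ i in ((hyperfilter ℕ : Ultrafilter ℕ) : Filter ℕ), y i ∈ S.C
    exact Eventually.of_forall hyC
  · intro m hm heq
    have h1 : ∀ᶠ i in ((hyperfilter ℕ : Ultrafilter ℕ) : Filter ℕ), (y i) ^ m = 1 :=
      Germ.coe_eq.1 heq
    have h2 : ∀ᶠ i in ((hyperfilter ℕ : Ultrafilter ℕ) : Filter ℕ), m ≤ i :=
      Nat.hyperfilter_le_atTop (eventually_ge_atTop m)
    obtain ⟨i, hi1, hi2⟩ := (h1.and h2).exists
    apply hy i
    obtain ⟨k, hk⟩ := Nat.dvd_factorial hm hi2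
    rw [hk, pow_mul, hi1, one_pow]

/-- A `Core` is obtained from a homomorphism `φ : 𝔻 →* H` and `c0` such that for all `g ∈ G` the
products `c0 φ(x) g` all lie in the same set `A (t q) C`.
PROOF. Take `j = φ` and `U = {u | u ∈ G ∧ ∀ x, ∃ a ∈ A, ∃ c ∈ C, c0 * φ x * u = a * c}`. `1 ∈ U` (take
`a = 1`). `hUB`: for `g ∈ G` let `q` be as in `hK`, `b = (t q)⁻¹ ∈ B ∩ G`; then
`c0 φ(x) g b = a (t q) c (t q)⁻¹` and `(t q) c (t q)⁻¹ ∈ C`. -/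
theorem exists_core {Q : Type*} [Fintype Q] (S : Pre H Q) {𝔻 : Type*} [CommGroup 𝔻] (φ : 𝔻 →* H)
    (hφ : Function.Injective φ) (hφC : ∀ x, φ x ∈ S.C)
    (hφB : ∀ b ∈ S.B, ∀ x, ∃ x', b * φ x * b⁻¹ = φ x') (hnt : ∃ x : 𝔻, x ≠ 1) (c0 : H)
    (hc0 : c0 ∈ S.C)
    (hK : ∀ g ∈ S.G, ∃ q, ∀ x, ∃ a ∈ S.A, ∃ c ∈ S.C, c0 * φ x * g = a * S.t q * c) :
    Nonempty (Core H 𝔻 Q) := by
  refine ⟨{ S with
    j := φ
    jinj := hφ
    jC := hφC
    jB := hφB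
    nt := hnt
    U := {u | u ∈ S.G ∧ ∀ x, ∃ a ∈ S.A, ∃ c ∈ S.C, c0 * φ x * u = a * c}
    hUG := fun u hu => hu.1
    oneU := ⟨S.G.one_mem, fun x => ⟨1, S.A.one_mem, c0 * φ x, S.C.mul_mem hc0 (hφC x), by simp⟩⟩
    hUB := ?_
    c0 := c0
    hc0 := hc0
    hK := fun u hu d => hu.2 d }⟩
  intro g hg
  obtain ⟨q, hq⟩ := hK g hg
  refine ⟨(S.t q)⁻¹, S.B.inv_mem (S.tB q), S.G.inv_mem (S.tG q),
    S.G.mul_mem hg (S.G.inv_mem (S.tG q)), fun x => ?_⟩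
  obtain ⟨a, ha, c, hc, e⟩ := hq x
  refine ⟨a, ha, S.t q * c * (S.t q)⁻¹, S.nC _ (S.tB q) _ hc, ?_⟩
  calc c0 * φ x * (g * (S.t q)⁻¹) = (c0 * φ x * g) * (S.t q)⁻¹ := by group
    _ = a * S.t q * c * (S.t q)⁻¹ := by rw [e]
    _ = a * (S.t q * c * (S.t q)⁻¹) := by group

end Pool.Agent.AO
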