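import Pool.Agent.AO.Defs

/-!
# Virtually soluble groups and prime groups (module AO-VSol)
-/

set_option autoImplicit false

namespace Pool.Agent.AO

/-- Virtually soluble (almost soluble) groups. -/
def VirtSol (G : Type*) [Group G] : Prop := ∃ S : Subgroup G, S.FiniteIndex ∧ IsSolvable S

private theorem vsolSubgroupOf {G : Type*} [Group G] (S K : Subgroup G) (h : Group.IsSolvable S) :
    Group.IsSolvable (S.subgroupOf K) := by
  let f : (S.subgroupOf K) →* S :=
    { toFun := fun x => ⟨((x : K) : G), x.2⟩
      map_one' := rfl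
      map_mul' := fun _ _ => rfl }
  have hf : Function.Injective f := by
    intro x y hxy
    have h1 : ((x : K) : G) = ((y : K) : G) := congrArg (fun z : S => (z : G)) hxy
    exact Subtype.ext (Subtype.ext h1)
  exact Group.isSolvable_of_isSolvable_injective hf

/-- PROOF. `S ⊓ K` in `K` (`S.subgroupOf K`), finite index and soluble. -/
theorem VirtSol.subgroup {G : Type*} [Group G] (h : VirtSol G) (K : Subgroup G) : VirtSol K := by
  obtain ⟨S, hS, hsol⟩ := h
  have hsol' : Group.IsSolvable S := hsol
  refine ⟨S.subgroupOf K, inferInstance, ?_⟩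
  exact vsolSubgroupOf S K hsol

/-- PROOF. Image of `S`. -/
theorem VirtSol.of_surjective {G G' : Type*} [Group G] [Group G'] (h : VirtSol G) (f : G →* G')
    (hf : Function.Surjective f) : VirtSol G' := by
  obtain ⟨S, hS, hsol⟩ := h
  have hsol' : Group.IsSolvable S := hsol
  refine ⟨S.map f, ⟨?_⟩, ?_⟩
  · intro h0
    have h1 : (S.map f).index ∣ S.index := Subgroup.index_map_dvd S hf
    rw [h0] at h1
    exact hS.index_ne_zero (zero_dvd_iff.mp h1)
  · exact Group.isSolvable_of_surjective (f.subgroupMap_surjective S)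

/-- PROOF. `C.subgroupOf B` is commutative, so soluble. -/
theorem VirtSol.of_abelian {G : Type*} [Group G] {B C : Subgroup G}
    (hC : ∀ x ∈ C, ∀ y ∈ C, x * y = y * x) (hCB : C.relIndex B ≠ 0) : VirtSol B := by
  refine ⟨C.subgroupOf B, ⟨hCB⟩, ?_⟩
  refine Group.isSolvable_of_comm ?_
  intro a b
  apply Subtype.ext
  apply Subtype.ext
  exact hC _ a.2 _ b.2

/-- The join of two soluble normal subgroups is soluble.
PROOF. `(N ⊔ M) / N` is a quotient of `M` (second isomorphism theorem, or: the map
`M → (N ⊔ M) / N.subgroupOf (N ⊔ M)` is surjective); extension of soluble by soluble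
(`solvable_of_ker_le_range` or `solvable_of_solvable_injective`...). -/
theorem isSolvable_sup {G : Type*} [Group G] (N M : Subgroup G) [N.Normal] [M.Normal]
    (hN : IsSolvable N) (hM : IsSolvable M) : IsSolvable (N ⊔ M : Subgroup G) := by
  have hN' : Group.IsSolvable N := hN
  have hM' : Group.IsSolvable M := hM
  have hmap : (N ⊔ M).map (QuotientGroup.mk' N) = M.map (QuotientGroup.mk' N) := by
    rw [Subgroup.map_sup]
    have h1 : N.map (QuotientGroup.mk' N) = ⊥ := by
      rw [Subgroup.map_eq_bot_iff, QuotientGroup.ker_mk']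
    rw [h1, bot_sup_eq]
  have hq : Group.IsSolvable ((N ⊔ M).map (QuotientGroup.mk' N) : Subgroup (G ⧸ N)) := by
    rw [hmap]
    exact Group.isSolvable_of_surjective ((QuotientGroup.mk' N).subgroupMap_surjective M)
  refine Group.isSolvable_of_ker_le_range (Subgroup.inclusion (le_sup_left : N ≤ N ⊔ M))
    ((QuotientGroup.mk' N).subgroupMap (N ⊔ M)) ?_
  intro x hx
  rw [MonoidHom.mem_ker] at hx
  have hx2 : (QuotientGroup.mk' N) (x : G) = 1 := congrArg Subtype.val hx
  have hx3 : (x : G) ∈ N := (QuotientGroup.eq_one_iff (x : G)).mp hx2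
  exact ⟨⟨x, hx3⟩, Subtype.ext rfl⟩

/-- PROOF. The core of `S` is a normal soluble subgroup of finite index. Let `R` be a normal soluble
subgroup of finite index with `R.index` minimal. If `M` is another normal soluble subgroup then
`R ⊔ M` is normal and soluble (`isSolvable_sup`) of finite index `≤ R.index`, with equality by
minimality, so `M ≤ R`. So `R` contains every normal soluble subgroup; for an automorphism `φ`,
`R.map φ` is normal and soluble, so `R.map φ ≤ R`: `R` is characteristic. -/
theorem VirtSol.exists_characteristic {G : Type*} [Group G] (h : VirtSol G) :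
    ∃ R : Subgroup G, R.Characteristic ∧ R.FiniteIndex ∧ IsSolvable R := by
  obtain ⟨S, hS, hsol⟩ := h
  have hsol' : Group.IsSolvable S := hsol
  let P : ℕ → Prop := fun n => ∃ R : Subgroup G, R.Normal ∧ R.FiniteIndex ∧ Group.IsSolvable R ∧
    R.index = n
  have hP : ∃ n, P n := by
    refine ⟨S.normalCore.index, S.normalCore, inferInstance, inferInstance, ?_, rfl⟩
    exact Group.isSolvable_of_isSolvable_injective (Subgroup.inclusion_injective S.normalCore_le)
  classical
  obtain ⟨R, hRn, hRf, hRs, hRi⟩ := Nat.find_spec hP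
  have hmin : ∀ M : Subgroup G, M.Normal → Group.IsSolvable M → M ≤ R := by
    intro M hM hMs
    have h1 : R ≤ R ⊔ M := le_sup_left
    have h2 : (R ⊔ M).FiniteIndex := Subgroup.finiteIndex_of_le h1
    have h3 : (R ⊔ M : Subgroup G).Normal := inferInstance
    have h4 : Nat.find hP ≤ (R ⊔ M).index :=
      Nat.find_min' hP ⟨R ⊔ M, h3, h2, isSolvable_sup R M hRs hMs, rfl⟩
    rw [← hRi] at h4
    have h5 : R.relIndex (R ⊔ M) * (R ⊔ M).index = R.index := Subgroup.relIndex_mul_index h1
    have h6 : R.relIndex (R ⊔ M) = 1 := by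
      have h7 : 0 < (R ⊔ M).index := Nat.pos_of_ne_zero h2.index_ne_zero
      have h8 : 0 < R.index := Nat.pos_of_ne_zero hRf.index_ne_zero
      have h9 : R.relIndex (R ⊔ M) ≤ 1 := by
        by_contra hcon
        push Not at hcon
        nlinarith
      have h10 : R.relIndex (R ⊔ M) ≠ 0 := by
        intro h0
        rw [h0] at h5
        omega
      omega
    exact le_sup_right.trans (Subgroup.relIndex_eq_one.mp h6)
  have hRs' : Group.IsSolvable R := hRs
  refine ⟨R, ?_, hRf, hRs⟩
  rw [Subgroup.characteristic_iff_map_le]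
  intro φ
  apply hmin
  · exact hRn.map φ.toMonoidHom φ.surjective
  · exact Group.isSolvable_of_surjective (φ.toMonoidHom.subgroupMap_surjective R)

/-- PROOF. Let `R` be a characteristic soluble subgroup of finite index of `N`; its image `R'` in `G`
is normal in `G` (`ConjAct`/`Subgroup.Characteristic` instance: characteristic in normal is
normal). Let `E` be the kernel of the action of `G` on the finite set `N ⧸ R` by conjugation,
i.e. `E = {g | ∀ x ∈ N, g x g⁻¹ x⁻¹ ∈ R'}`; it has finite index in `G`. `E ⊓ N` is soluble: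
its commutators lie in `R'`, which is soluble. Let `K ≥ N` be the preimage of a soluble subgroup of
finite index of `G ⧸ N`. Then `S = E ⊓ K` has finite index, `S ⊓ N ≤ E ⊓ N` is soluble and
`S / (S ⊓ N)` embeds into `K / N`, so `S` is soluble. -/
theorem VirtSol.extension {G : Type*} [Group G] (N : Subgroup G) [N.Normal] (hN : VirtSol N)
    (hQ : VirtSol (G ⧸ N)) : VirtSol G := by
  obtain ⟨R, hRc, hRf, hRs⟩ := hN.exists_characteristic
  obtain ⟨K, hKf, hKs⟩ := hQ
  have hRs' : Group.IsSolvable R := hRs
  have hKs' : Group.IsSolvable K := hKs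
  have hR'n : (R.map N.subtype).Normal := ConjAct.normal_of_characteristic_of_normal
  set R' : Subgroup G := R.map N.subtype with hR'
  have hR'N : R' ≤ N := by
    rintro x ⟨y, -, rfl⟩
    exact y.2
  have hR's : Group.IsSolvable R' := Group.isSolvable_of_surjective (N.subtype.subgroupMap_surjective R)
  let q := QuotientGroup.mk' R'
  have hNqn : (N.map q).Normal := Subgroup.Normal.map inferInstance q (QuotientGroup.mk'_surjective R')
  have hNfin : Finite (N.map q) := by
    have h1 : Finite (N ⧸ R) := inferInstance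
    let f : N →* (N.map q : Subgroup (G ⧸ R')) := q.subgroupMap N
    have hf : Function.Surjective f := q.subgroupMap_surjective N
    have hk : R ≤ f.ker := by
      intro x hx
      rw [MonoidHom.mem_ker]
      apply Subtype.ext
      change q (x : G) = 1
      have : (x : G) ∈ q.ker := by
        rw [QuotientGroup.ker_mk']
        exact ⟨x, hx, rfl⟩
      exact this
    have hfi : f.ker.FiniteIndex := Subgroup.finiteIndex_of_le hk
    have h2 : Finite (N ⧸ f.ker) := inferInstance
    exact Finite.of_equiv _ (QuotientGroup.quotientKerEquivOfSurjective f hf).toEquiv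
  let c : (G ⧸ R') →* MulAut (N.map q) := MulAut.conjNormal
  have hcf : c.ker.FiniteIndex := by
    have : Finite (MulAut (N.map q)) := inferInstance
    exact Subgroup.finiteIndex_ker c
  let D : Subgroup G := c.ker.comap q
  have hDf : D.FiniteIndex := by
    refine ⟨?_⟩
    rw [Subgroup.index_comap_of_surjective _ (QuotientGroup.mk'_surjective R')]
    exact hcf.index_ne_zero
  have hcomm : ∀ x ∈ D, ∀ y ∈ N, q (x * y) = q (y * x) := by
    intro x hx y hy
    have h1 : c (q x) = 1 := hx
    have h2 : (c (q x)) ⟨q y, y, hy, rfl⟩ = ⟨q y, y, hy, rfl⟩ := by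
      rw [h1]
      rfl
    have h3 : q x * q y * (q x)⁻¹ = q y := congrArg Subtype.val h2
    rw [map_mul, map_mul]
    rw [mul_inv_eq_iff_eq_mul] at h3
    exact h3
  have hDN : Group.IsSolvable (D ⊓ N : Subgroup G) := by
    have himg : Group.IsSolvable ((D ⊓ N).map q : Subgroup (G ⧸ R')) := by
      refine Group.isSolvable_of_comm ?_
      rintro ⟨_, x, hx, rfl⟩ ⟨_, y, hy, rfl⟩
      apply Subtype.ext
      change q x * q y = q y * q x
      rw [← map_mul, ← map_mul]
      exact hcomm x hx.1 y hy.2
    have hle : R' ⊓ (D ⊓ N) ≤ D ⊓ N := inf_le_right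
    have hsol : Group.IsSolvable (R' ⊓ (D ⊓ N) : Subgroup G) :=
      Group.isSolvable_of_isSolvable_injective (Subgroup.inclusion_injective (inf_le_left : R' ⊓ (D ⊓ N) ≤ R'))
    refine Group.isSolvable_of_ker_le_range (Subgroup.inclusion hle) (q.subgroupMap (D ⊓ N)) ?_
    intro x hx
    rw [MonoidHom.mem_ker] at hx
    have hx2 : q (x : G) = 1 := congrArg Subtype.val hx
    have hx3 : (x : G) ∈ R' := by
      rw [← QuotientGroup.ker_mk' R']
      exact hx2
    exact ⟨⟨x, hx3, x.2⟩, Subtype.ext rfl⟩
  let K' : Subgroup G := K.comap (QuotientGroup.mk' N)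
  have hK'f : K'.FiniteIndex := by
    refine ⟨?_⟩
    rw [Subgroup.index_comap_of_surjective _ (QuotientGroup.mk'_surjective N)]
    exact hKf.index_ne_zero
  refine ⟨D ⊓ K', inferInstance, ?_⟩
  have hle : (D ⊓ N) ⊓ (D ⊓ K') ≤ D ⊓ K' := inf_le_right
  have hsol : Group.IsSolvable ((D ⊓ N) ⊓ (D ⊓ K') : Subgroup G) :=
    Group.isSolvable_of_isSolvable_injective
      (Subgroup.inclusion_injective (inf_le_left : (D ⊓ N) ⊓ (D ⊓ K') ≤ D ⊓ N))
  have himg : Group.IsSolvable ((D ⊓ K').map (QuotientGroup.mk' N) : Subgroup (G ⧸ N)) := by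
    have h1 : (D ⊓ K').map (QuotientGroup.mk' N) ≤ K := by
      rintro _ ⟨x, hx, rfl⟩
      exact hx.2
    exact Group.isSolvable_of_isSolvable_injective (Subgroup.inclusion_injective h1)
  refine Group.isSolvable_of_ker_le_range (Subgroup.inclusion hle)
    ((QuotientGroup.mk' N).subgroupMap (D ⊓ K')) ?_
  intro x hx
  rw [MonoidHom.mem_ker] at hx
  have hx2 : (QuotientGroup.mk' N) (x : G) = 1 := congrArg Subtype.val hx
  have hx3 : (x : G) ∈ N := (QuotientGroup.eq_one_iff (x : G)).mp hx2
  exact ⟨⟨x, ⟨x.2.1, hx3⟩, x.2⟩, Subtype.ext rfl⟩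

end Pool.Agent.AO
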