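import Pool.Agent.AO.GroupRing

/-!
# The elements `x_e` (module AO-XE)
-/

set_option autoImplicit false

namespace Pool.Agent.AO

open MonoidAlgebra

variable {H : Type*} [Group H] {𝔻 : Type*} [CommGroup 𝔻] {Q : Type*} [Fintype Q]

namespace TData

variable {S : Core H 𝔻 Q} {M : Type*} [AddCommGroup M] (T : TData S M)

/-- The property of `x_e`:
`(1 - d) (a - 1) x = r_e (a0 - 1) δ_{ab}(d)` for all `a b ∈ G1`, `a ∈ A ∩ G`, `b ∈ B ∩ G`. -/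
def XId (a0 : H) (e : 𝔻) (x : M) : Prop :=
  ∀ a ∈ S.A, a ∈ S.G → ∀ b ∈ S.B, b ∈ S.G → a * b ∈ T.G1 → ∀ d,
    (T.act a x - x) - T.ρ d (T.act a x - x)
      = T.rr e (T.act a0 (T.δ (a * b) d) - T.δ (a * b) d)

/-- PROOF. Let `r'` be as in `exists_rR'` (`r e = r' e (1 - e)`) and
`x = Φ(r' e) (δ_{a0}(e))`. Let `a, b, d` be given, `g = a b`, `τ` the conjugation by `b`
(`exists_tau`), `e' = τ⁻¹ e`, i.e. `e = b e' b⁻¹`, and `x' = mapDomainRingHom τ.symm (r' e)`, so that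
`r' e = τ(x')`. By `act_Φ_A`: `a x = a Φ(τ x') δ_{a0}(e) = Φ(x') (a δ_{a0}(e))`, and by `star`
(with `d' = e`, `d = e'`): `a δ_{a0}(e) = (a0 - 1) δ_g(e') + δ_{a0}(e')`. Now
`(1 - d) δ_g(e') = (1 - e') δ_g(d)` (`δ_swap`), the same for `δ_{a0}`, and `a0` commutes with `ρ`
(`act_ρ_G1`), `Φ` is commutative (`Φ_comm`, `Φ_of`). So
`(1 - d) a x = Φ(x' (1 - e')) ((a0 - 1) δ_g(d) + δ_{a0}(d))`, and
`x' (1 - e') = τ⁻¹(r' e (1 - e)) = τ⁻¹(r e) = r e` by `rR_inv` (apply `τ⁻¹` to `τ(r e) = r e`;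
`mapDomainRingHom` of `τ.symm` is inverse to that of `τ`). Also
`(1 - d) x = Φ(r' e) (1 - d) δ_{a0}(e) = Φ(r' e) (1 - e) δ_{a0}(d) = r_e δ_{a0}(d)`. Subtract. -/
theorem exists_xe {a0 : H} (ha0A : a0 ∈ S.A) (ha0 : a0 ∈ T.G1) (e : 𝔻) :
    ∃ x : M, T.XId a0 e x := by
  obtain ⟨r', hr'⟩ := T.toDData.exists_rR'
  refine ⟨T.Φ (r' e) (T.δ a0 e), ?_⟩
  intro a haA haG b hbB hbG hab d
  obtain ⟨τ, hτ⟩ := DData.exists_tau (S := S) hbB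
  have hP : ∀ (c : 𝔻) (v : M), T.Φ (1 - MonoidAlgebra.of ℤ 𝔻 c) v = v - T.ρ c v := by
    intro c v
    rw [map_sub, map_one, T.Φ_of, LinearMap.sub_apply, Module.End.one_apply]
  have hτ' : ∀ c, S.j (τ.symm c) = b⁻¹ * S.j c * b⁻¹⁻¹ := by
    intro c
    have h := hτ (τ.symm c)
    rw [MulEquiv.apply_symm_apply] at h
    rw [h]
    group
  have hje : S.j e = b * S.j (τ.symm e) * b⁻¹ := by
    have h := hτ (τ.symm e)
    rwa [MulEquiv.apply_symm_apply] at h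
  have hcomp : ∀ y : MonoidAlgebra ℤ 𝔻,
      mapDomainRingHom ℤ (τ : 𝔻 →* 𝔻) (mapDomainRingHom ℤ (τ.symm : 𝔻 →* 𝔻) y) = y := by
    intro y
    have hid : (τ : 𝔻 →* 𝔻).comp (τ.symm : 𝔻 →* 𝔻) = MonoidHom.id 𝔻 := by
      ext z
      simp
    rw [← RingHom.comp_apply, ← mapDomainRingHom_comp, hid, mapDomainRingHom_id,
      RingHom.id_apply]
  have h1 : T.act a (T.Φ (r' e) (T.δ a0 e))
      = T.Φ (mapDomainRingHom ℤ (τ.symm : 𝔻 →* 𝔻) (r' e)) (T.act a (T.δ a0 e)) := by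
    have h := T.act_Φ_A haG hbG hab hτ (mapDomainRingHom ℤ (τ.symm : 𝔻 →* 𝔻) (r' e)) (T.δ a0 e)
    rwa [hcomp] at h
  have h2 := T.star ha0A ha0 haA haG hbB hbG hab hje
  have h3 : mapDomainRingHom ℤ (τ.symm : 𝔻 →* 𝔻) (r' e)
      * (1 - MonoidAlgebra.of ℤ 𝔻 (τ.symm e)) = rR T.σ e := by
    have h := T.toDData.rR_inv (S.B.inv_mem hbB) hτ' e
    rw [hr' e, map_mul, map_sub, map_one] at h
    rw [hr' e, ← h]
    simp [MonoidAlgebra.of_apply]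
  have hsw : ∀ {g : H}, g ∈ T.G1 → ∀ c f : 𝔻,
      T.Φ (1 - MonoidAlgebra.of ℤ 𝔻 c) (T.δ g f) = T.Φ (1 - MonoidAlgebra.of ℤ 𝔻 f) (T.δ g c) := by
    intro g hg c f
    rw [hP, hP]
    exact T.δ_swap hg c f
  have h4 : T.Φ (1 - MonoidAlgebra.of ℤ 𝔻 d) (T.act a (T.Φ (r' e) (T.δ a0 e)))
      = T.Φ (rR T.σ e) (T.act a0 (T.δ (a * b) d) - T.δ (a * b) d + T.δ a0 d) := by
    rw [h1, h2, T.Φ_comm, map_add, map_sub, ← T.act_Φ_G1 ha0, hsw hab, hsw ha0, T.act_Φ_G1 ha0,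
      ← map_sub, ← map_add, ← Module.End.mul_apply, ← map_mul, h3]
  have h5 : T.Φ (1 - MonoidAlgebra.of ℤ 𝔻 d) (T.Φ (r' e) (T.δ a0 e))
      = T.Φ (rR T.σ e) (T.δ a0 d) := by
    rw [T.Φ_comm, hsw ha0, ← Module.End.mul_apply, ← map_mul, ← hr' e]
  rw [← hP, map_sub, h4, h5, ← map_sub, add_sub_cancel_right]
  rfl

end TData

end Pool.Agent.AO
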